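import Pool.Agent.PF.St

/-!
# PF, module CV

Change of variables on an interval.
-/

set_option autoImplicit false

open MeasureTheory Set Filter Topology Metric
open scoped ENNReal RealInnerProductSpace ContDiff

namespace Pool.Agent.PF.CVx

lemma inj {h : ℝ → ℝ} {Q : Set ℝ} {m : ℝ} (hh : ContDiff ℝ ∞ h) (hQ : Q.OrdConnected)
    (hm : 0 < m) (hd : ∀ s ∈ Q, m ≤ |deriv h s|) : InjOn h Q := by
  have key : ∀ a ∈ Q, ∀ b ∈ Q, a < b → h a ≠ h b := by
    intro a ha b hb hab he
    obtain ⟨c, hc, hc'⟩ := exists_deriv_eq_zero hab hh.continuous.continuousOn he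
    have h1 := hd c (hQ.out ha hb ⟨hc.1.le, hc.2.le⟩)
    rw [hc', abs_zero] at h1
    linarith
  intro a ha b hb he
  rcases lt_trichotomy a b with h1 | h1 | h1
  · exact absurd he (key a ha b hb h1)
  · exact h1
  · exact absurd he.symm (key b hb a ha h1)

lemma dist_le {Q : Set ℝ} (hQ : Q.OrdConnected) (hv : volume Q ≠ ⊤) {s s₀ : ℝ} (hs : s ∈ Q)
    (hs₀ : s₀ ∈ Q) : |s - s₀| ≤ volume.real Q := by
  have h1 : uIcc s₀ s ⊆ Q := hQ.uIcc_subset hs₀ hs
  have h2 : volume (uIcc s₀ s) ≤ volume Q := measure_mono h1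
  rw [Real.volume_interval] at h2
  exact (ENNReal.ofReal_le_iff_le_toReal hv).1 h2

end Pool.Agent.PF.CVx

namespace Pool.Agent.PF

open CVx

/-- CV: change of variables on an interval. -/
theorem t_CV : S_CV := by
  intro h Q m K hh hQ hv hm hd s₀ hs₀ g _ x t ht
  have hdiff : ∀ s, DifferentiableAt ℝ h s := fun s =>
    (hh.differentiable (by simp)).differentiableAt
  have hinj : InjOn (fun s => x - t * h s) Q := by
    intro a ha b hb he
    apply inj hh hQ hm (fun s hs => (hd s hs).1) ha hb
    have h1 : t * h a = t * h b := by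
      have : x - t * h a = x - t * h b := he
      linarith
    exact mul_left_cancel₀ ht.ne' h1
  have hder : ∀ s ∈ Q, HasDerivWithinAt (fun s => x - t * h s) (-(t * deriv h s)) Q s := by
    intro s _
    have h1 : HasDerivAt (fun s => x - t * h s) (0 - t * deriv h s) s :=
      (hasDerivAt_const s x).sub ((hdiff s).hasDerivAt.const_mul t)
    rw [zero_sub] at h1
    exact h1.hasDerivWithinAt
  have hcv := lintegral_image_eq_lintegral_abs_deriv_mul hQ.measurableSet hder hinj g
  have hmt : 0 < m * t := mul_pos hm ht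
  have hlow : ENNReal.ofReal (m * t) * ∫⁻ s in Q, g (x - t * h s) ≤
      ∫⁻ s in Q, ENNReal.ofReal |-(t * deriv h s)| * g (x - t * h s) := by
    rw [← lintegral_const_mul' _ _ ENNReal.ofReal_ne_top]
    apply setLIntegral_mono' hQ.measurableSet
    intro s hs
    apply mul_le_mul_left
    apply ENNReal.ofReal_le_ofReal
    rw [abs_neg, abs_mul, abs_of_pos ht, mul_comm]
    exact mul_le_mul_of_nonneg_left (hd s hs).1 ht.le
  rw [← hcv] at hlow
  have hsub : (fun s => x - t * h s) '' Q ⊆
      Icc (x - t * (h s₀ + K * m * volume.real Q)) (x - t * (h s₀ - K * m * volume.real Q)) := by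
    rintro y ⟨s, hs, rfl⟩
    have h1 : |h s - h s₀| ≤ K * m * |s - s₀| := by
      have := Convex.norm_image_sub_le_of_norm_deriv_le (f := h) (C := K * m) (s := Q)
        (fun s _ => hdiff s) (fun s hs => (hd s hs).2) hQ.convex hs₀ hs
      simpa only [Real.norm_eq_abs] using this
    have h2 : 0 ≤ K * m := (abs_nonneg _).trans (hd s hs).2
    have h3 : |h s - h s₀| ≤ K * m * volume.real Q :=
      h1.trans (mul_le_mul_of_nonneg_left (dist_le hQ hv hs hs₀) h2)
    have h4 := abs_le.1 h3
    constructor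
    · have : t * h s ≤ t * (h s₀ + K * m * volume.real Q) :=
        mul_le_mul_of_nonneg_left (by linarith) ht.le
      show x - t * (h s₀ + K * m * volume.real Q) ≤ x - t * h s
      linarith
    · have : t * (h s₀ - K * m * volume.real Q) ≤ t * h s :=
        mul_le_mul_of_nonneg_left (by linarith) ht.le
      show x - t * h s ≤ x - t * (h s₀ - K * m * volume.real Q)
      linarith
  have h5 := hlow.trans (lintegral_mono_set (f := g) hsub)
  have e1 : ENNReal.ofReal (1 / (m * t)) * ENNReal.ofReal (m * t) = 1 := by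
    rw [← ENNReal.ofReal_mul (by positivity), one_div_mul_cancel hmt.ne', ENNReal.ofReal_one]
  calc ∫⁻ s in Q, g (x - t * h s)
      = ENNReal.ofReal (1 / (m * t)) *
          (ENNReal.ofReal (m * t) * ∫⁻ s in Q, g (x - t * h s)) := by
        rw [← mul_assoc, e1, one_mul]
    _ ≤ _ := mul_le_mul_right h5 _

end Pool.Agent.PF
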