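import Pool.Agent.PF.St

/-! # FL: the majorant for product sets (MP_0a3820_an) -/

set_option autoImplicit false

open MeasureTheory Set Filter Topology Metric
open scoped ENNReal RealInnerProductSpace ContDiff

namespace Pool.Agent.PF

open Pool.Agent.MC

namespace FL

open Classical in
theorem prod_ind {n : ℕ} (e : Fin n → En n) (A : Fin n → Set ℝ) (y : En n) :
    (∏ i, (A i).indicator (fun _ => (1 : ℝ≥0∞)) ⟪e i, y⟫) =
      ({x : En n | ∀ i, ⟪e i, x⟫ ∈ A i}).indicator (fun _ => (1 : ℝ≥0∞)) y := by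
  by_cases h : ∀ i, ⟪e i, y⟫ ∈ A i
  · have h1 : y ∈ {x : En n | ∀ i, ⟪e i, x⟫ ∈ A i} := h
    rw [indicator_of_mem h1]
    apply Finset.prod_eq_one
    intro i _
    rw [indicator_of_mem (h i)]
  · have h1 : y ∉ {x : En n | ∀ i, ⟪e i, x⟫ ∈ A i} := h
    rw [indicator_of_notMem h1]
    push Not at h
    obtain ⟨i, hi⟩ := h
    apply Finset.prod_eq_zero (Finset.mem_univ i)
    rw [indicator_of_notMem hi]

end FL

theorem t_FL : M_FL := by
  intro hMJ n hn γ a b hN p₀ hp
  have hp0 : 0 < p₀ := lt_of_le_of_lt (Nat.cast_nonneg n) hp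
  obtain ⟨C, hC, H⟩ := hMJ n hn γ a b hN p₀ hp
  refine ⟨C, hC, ?_⟩
  intro K hKo _ hK
  obtain ⟨e, A, he, hA, hKe⟩ := hK
  obtain ⟨G, hGm, h1, h2⟩ := H e he (fun i => (A i).indicator (fun _ => (1 : ℝ≥0∞)))
    (fun i => measurable_const.indicator (hA i).measurableSet)
  refine ⟨G, hGm, ?_, ?_⟩
  · refine h2.trans (le_of_eq ?_)
    congr 1
    have h3 : (fun x : En n => (∏ i, (A i).indicator (fun _ => (1 : ℝ≥0∞)) ⟪e i, x⟫) ^ p₀) =
        K.indicator (fun _ => (1 : ℝ≥0∞)) := by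
      funext x
      rw [FL.prod_ind, ← hKe]
      by_cases hx : x ∈ K
      · rw [indicator_of_mem hx, ENNReal.one_rpow]
      · rw [indicator_of_notMem hx, ENNReal.zero_rpow_of_pos hp0]
    rw [h3, lintegral_indicator_const hKo.measurableSet, one_mul]
  · intro x t ht
    refine le_trans ?_ (h1 x t ht)
    apply ENNReal.rpow_le_rpow _ hp0.le
    have hc : Continuous fun s : ℝ => x - t • γ s :=
      continuous_const.sub (hN.2.1.continuous.const_smul t)
    have hPm : MeasurableSet {s : ℝ | x - t • γ s ∈ K} := (hKo.preimage hc).measurableSet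
    have h3 : ∀ s : ℝ, (∏ i, (A i).indicator (fun _ => (1 : ℝ≥0∞)) ⟪e i, x - t • γ s⟫) =
        ({s : ℝ | x - t • γ s ∈ K}).indicator (fun _ => (1 : ℝ≥0∞)) s := by
      intro s
      rw [FL.prod_ind, ← hKe]
      by_cases hs : x - t • γ s ∈ K
      · have hs' : s ∈ {s : ℝ | x - t • γ s ∈ K} := hs
        rw [indicator_of_mem hs, indicator_of_mem hs']
      · have hs' : s ∉ {s : ℝ | x - t • γ s ∈ K} := hs
        rw [indicator_of_notMem hs, indicator_of_notMem hs']
    simp only [h3]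
    rw [lintegral_indicator_const hPm, one_mul, Measure.restrict_apply hPm]
    apply measure_mono
    rintro s ⟨hs1, hs2⟩
    exact ⟨hs2, Ioo_subset_Icc_self hs1⟩

end Pool.Agent.PF
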