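import Pool.Agent.PF.St

/-!
# Product functions (MP_0a3820_an), module FP: the norm inequality
-/

set_option autoImplicit false

open MeasureTheory Set Filter Topology Metric
open scoped ENNReal RealInnerProductSpace ContDiff

namespace Pool.Agent.PF

open Pool.Agent.MC

namespace FP

/-- the absolute value of a product function as a product -/
theorem prod_abs {n : ℕ} (e : Fin n → En n) (f : Fin n → ℝ → ℝ) (y : En n) :
    (∏ i, ENNReal.ofReal |f i ⟪e i, y⟫|) = ENNReal.ofReal |∏ i, f i ⟪e i, y⟫| := by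
  rw [Finset.abs_prod, ENNReal.ofReal_prod_of_nonneg (fun i _ => abs_nonneg _)]

/-- the bound for finite exponents -/
theorem fin_case (hMJ : S_MJ) (n : ℕ) (hn : 2 ≤ n) (γ : ℝ → En n) (a b : ℝ) (hNd : Nd n γ a b)
    (ψ : ℝ → ℝ) (hψ : Continuous ψ) (hsupp : tsupport ψ ⊆ Ioo a b) (p : ℝ) (hp : (n : ℝ) < p) :
    ∃ C : ℝ≥0∞, C ≠ ⊤ ∧ ∀ e : Fin n → En n, LinearIndependent ℝ e →
      ∀ f : Fin n → ℝ → ℝ, (∀ i, Continuous (f i)) →
        eLpNorm (Mx γ ψ (fun x => ∏ i, f i ⟪e i, x⟫)) (ENNReal.ofReal p) volume ≤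
          C * eLpNorm (fun x => ∏ i, f i ⟪e i, x⟫) (ENNReal.ofReal p) volume := by
  have hn0 : (0 : ℝ) ≤ n := Nat.cast_nonneg n
  have hpp : 0 < p := by linarith
  obtain ⟨C, hC, H⟩ := hMJ n hn γ a b hNd p hp
  obtain ⟨B, hB⟩ : ∃ B, ∀ s ∈ Icc a b, ‖ψ s‖ ≤ B :=
    isCompact_Icc.exists_bound_of_continuousOn hψ.continuousOn
  set E : ℝ≥0∞ := ENNReal.ofReal B with hE
  have hEt : E ≠ ⊤ := ENNReal.ofReal_ne_top
  have hp1 : 0 ≤ 1 / p := by positivity
  refine ⟨E * C ^ (1 / p), ENNReal.mul_ne_top hEt (ENNReal.rpow_ne_top_of_nonneg hp1 hC), ?_⟩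
  intro e he f hf
  set F : En n → ℝ := fun x => ∏ i, f i ⟪e i, x⟫ with hF
  obtain ⟨G, hG1, hG2, hG3⟩ := H e he (fun i u => ENNReal.ofReal |f i u|)
    (fun i => ((hf i).abs.measurable).ennreal_ofReal)
  have hpr : ∀ y : En n, (∏ i, (fun i u => ENNReal.ofReal |f i u|) i ⟪e i, y⟫) =
      ENNReal.ofReal |F y| := fun y => prod_abs e f y
  have hpt : ∀ x, ‖Mx γ ψ F x‖ₑ ≤ E * G x ^ (1 / p) := by
    intro x
    apply enorm_Mx_le
    intro t ht
    have h3 : ENNReal.ofReal |∫ s : ℝ, ψ s * F (x - t • γ s)| ≤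
        ∫⁻ s, ‖ψ s * F (x - t • γ s)‖ₑ := by
      rw [← Real.norm_eq_abs, ofReal_norm_eq_enorm]
      exact enorm_integral_le_lintegral_enorm _
    have h4 : ∀ s, ‖ψ s * F (x - t • γ s)‖ₑ ≤ (Icc a b).indicator
        (fun s => ENNReal.ofReal B * ENNReal.ofReal |F (x - t • γ s)|) s := by
      intro s
      by_cases hs : s ∈ Icc a b
      · rw [indicator_of_mem hs, ← ofReal_norm_eq_enorm, norm_mul,
          ENNReal.ofReal_mul (norm_nonneg _), Real.norm_eq_abs (F _)]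
        gcongr
        exact hB s hs
      · have h0 : ψ s = 0 := by
          by_contra h0
          exact hs (Ioo_subset_Icc_self (hsupp (subset_tsupport _ h0)))
        rw [h0, zero_mul, enorm_zero]
        exact zero_le
    have h5 : ∫⁻ s in Icc a b, ENNReal.ofReal |F (x - t • γ s)| ≤ G x ^ (1 / p) := by
      have h6 := hG2 x t ht
      have h7 : (∫⁻ s in Icc a b, ∏ i, (fun i u => ENNReal.ofReal |f i u|) i ⟪e i, x - t • γ s⟫) =
          ∫⁻ s in Icc a b, ENNReal.ofReal |F (x - t • γ s)| :=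
        lintegral_congr fun s => hpr _
      rw [h7] at h6
      calc ∫⁻ s in Icc a b, ENNReal.ofReal |F (x - t • γ s)|
          = ((∫⁻ s in Icc a b, ENNReal.ofReal |F (x - t • γ s)|) ^ p) ^ (1 / p) := by
            rw [← ENNReal.rpow_mul, mul_one_div_cancel hpp.ne', ENNReal.rpow_one]
        _ ≤ G x ^ (1 / p) := ENNReal.rpow_le_rpow h6 hp1
    calc ENNReal.ofReal |∫ s : ℝ, ψ s * F (x - t • γ s)|
        ≤ ∫⁻ s, (Icc a b).indicator
            (fun s => ENNReal.ofReal B * ENNReal.ofReal |F (x - t • γ s)|) s :=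
          h3.trans (lintegral_mono h4)
      _ = ENNReal.ofReal B * ∫⁻ s in Icc a b, ENNReal.ofReal |F (x - t • γ s)| := by
          rw [lintegral_indicator measurableSet_Icc, lintegral_const_mul' _ _ ENNReal.ofReal_ne_top]
      _ ≤ E * G x ^ (1 / p) := by
          gcongr
  have hSi : ∫⁻ x, G x ≤ C * ∫⁻ y, ‖F y‖ₑ ^ p := by
    have h3 : ∫⁻ x, (∏ i, (fun i u => ENNReal.ofReal |f i u|) i ⟪e i, x⟫) ^ p =
        ∫⁻ y, ‖F y‖ₑ ^ p := by
      apply lintegral_congr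
      intro y
      rw [hpr y, ← Real.norm_eq_abs, ofReal_norm_eq_enorm]
    rw [← h3]
    exact hG3
  have hq0 : ENNReal.ofReal p ≠ 0 := by
    rw [Ne, ENNReal.ofReal_eq_zero]
    linarith
  have hqt : (ENNReal.ofReal p).toReal = p := ENNReal.toReal_ofReal hpp.le
  rw [eLpNorm_eq_lintegral_rpow_enorm_toReal hq0 ENNReal.ofReal_ne_top,
    eLpNorm_eq_lintegral_rpow_enorm_toReal hq0 ENNReal.ofReal_ne_top, hqt]
  calc (∫⁻ x, ‖Mx γ ψ F x‖ₑ ^ p) ^ (1 / p)
      ≤ (∫⁻ x, (E * G x ^ (1 / p)) ^ p) ^ (1 / p) := by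
        gcongr with x
        exact hpt x
    _ = (E ^ p * ∫⁻ x, G x) ^ (1 / p) := by
        have h4 : ∀ x, (E * G x ^ (1 / p)) ^ p = E ^ p * G x := by
          intro x
          rw [ENNReal.mul_rpow_of_nonneg _ _ hpp.le, ← ENNReal.rpow_mul, one_div,
            inv_mul_cancel₀ hpp.ne', ENNReal.rpow_one]
        simp only [h4]
        rw [lintegral_const_mul _ hG1]
    _ ≤ (E ^ p * (C * ∫⁻ y, ‖F y‖ₑ ^ p)) ^ (1 / p) := by
        gcongr
    _ = E * C ^ (1 / p) * (∫⁻ x, ‖F x‖ₑ ^ p) ^ (1 / p) := by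
        rw [ENNReal.mul_rpow_of_nonneg _ _ hp1, ENNReal.mul_rpow_of_nonneg _ _ hp1,
          ← ENNReal.rpow_mul, mul_one_div_cancel hpp.ne', ENNReal.rpow_one]
        ring

end FP

theorem t_FP : M_FP := by
  intro hMJ n hn γ a b hNd ψ hψ hsupp p hp
  have hcont : ∀ (e : Fin n → En n) (f : Fin n → ℝ → ℝ), (∀ i, Continuous (f i)) →
      Continuous (fun x : En n => ∏ i, f i ⟪e i, x⟫) := by
    intro e f hf
    apply continuous_finset_prod
    intro i _
    exact (hf i).comp (continuous_const.inner continuous_id)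
  rcases eq_or_ne p ⊤ with hpt | hpt
  · subst hpt
    obtain ⟨C, hC, H⟩ := main_top γ a b ψ hψ hsupp
    refine ⟨C.toReal, ?_⟩
    intro e he f hf _
    rw [ENNReal.ofReal_toReal hC]
    exact H _ (hcont e f hf)
  · have hpr : (n : ℝ) < p.toReal := by
      rw [← ENNReal.toReal_natCast]
      exact (ENNReal.toReal_lt_toReal (ENNReal.natCast_ne_top n) hpt).2 hp
    obtain ⟨C, hC, H⟩ := FP.fin_case hMJ n hn γ a b hNd ψ hψ hsupp p.toReal hpr
    refine ⟨C.toReal, ?_⟩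
    intro e he f hf _
    rw [ENNReal.ofReal_toReal hC]
    have := H e he f hf
    rw [ENNReal.ofReal_toReal hpt] at this
    exact this

end Pool.Agent.PF
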