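import Pool.Agent.PF.St

/-!
# MP_0a3820_an, product functions: assembly
-/

set_option autoImplicit false

open MeasureTheory Set Filter Topology Metric
open scoped ENNReal RealInnerProductSpace ContDiff

namespace Pool.Agent.PF

open Pool.Agent.MC

theorem prodSet_open {n : ℕ} {K : Set (En n)} (h : ProdSet n K) : IsOpen K := by
  obtain ⟨e, A, -, hA, rfl⟩ := h
  rw [setOf_forall]
  exact isOpen_iInter_of_finite fun i =>
    (hA i).preimage (continuous_const.inner continuous_id)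

theorem fin_union (hFL : S_FL) {n : ℕ} (hn : 2 ≤ n) (γ : ℝ → En n) (a b : ℝ) (hN : Nd n γ a b)
    (ψ : ℝ → ℝ) (hψ : Continuous ψ) (hsupp : tsupport ψ ⊆ Ioo a b) (p : ℝ≥0∞)
    (hp : (n : ℝ≥0∞) < p) (θ : ℝ) (hθ : (n : ℝ) / p.toReal < θ) :
    ∃ C : ℝ, ∀ m : ℕ, 1 ≤ m → ∀ f : En n → ℝ, Continuous f → HasCompactSupport f →
      (∀ v : ℝ, 0 < v → ∃ K : Fin m → Set (En n), (∀ i, ProdSet n (K i)) ∧
        {y | v < |f y|} = ⋃ i, K i) →
      eLpNorm (Mx γ ψ f) p volume ≤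
        ENNReal.ofReal (C * (m : ℝ) ^ θ) * eLpNorm f p volume := by
  have hab := hN.1
  have hγ := hN.2.1
  have hnd := hN.2.2
  have hn2 : (2 : ℝ) ≤ n := by exact_mod_cast hn
  rcases eq_or_ne p ⊤ with hpt | hpt
  · obtain ⟨C, hC, H⟩ := Pool.Agent.MC.main_top (n := n) γ a b ψ hψ hsupp
    have hθ0 : 0 < θ := by
      rw [hpt, ENNReal.toReal_top, div_zero] at hθ
      exact hθ
    refine ⟨C.toReal, fun m hm f hf hfc _ => ?_⟩
    have hm1 : (1 : ℝ) ≤ m := by exact_mod_cast hm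
    rw [hpt]
    refine (H f hf).trans ?_
    gcongr
    rw [ENNReal.le_ofReal_iff_toReal_le hC (by positivity)]
    exact le_mul_of_one_le_right ENNReal.toReal_nonneg (Real.one_le_rpow hm1 hθ0.le)
  · have hp0 : p ≠ 0 := (zero_le.trans_lt hp).ne'
    have hpr : 0 < p.toReal := ENNReal.toReal_pos hp0 hpt
    have hnp : (n : ℝ) < p.toReal := by
      have := (ENNReal.toReal_lt_toReal (ENNReal.natCast_ne_top n) hpt).2 hp
      rwa [ENNReal.toReal_natCast] at this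
    rw [div_lt_iff₀ hpr] at hθ
    set p0 : ℝ := min (θ * p.toReal) ((n + p.toReal) / 2) with hp0'
    have h1 : (n : ℝ) < p0 := lt_min hθ (by linarith)
    have h2 : p0 < p.toReal := (min_le_right _ _).trans_lt (by linarith)
    have h3 : p0 / p.toReal ≤ θ := by
      rw [div_le_iff₀ hpr]
      exact min_le_left _ _
    obtain ⟨Cm, hCm, HM⟩ := hFL n hn γ a b hN p0 h1
    obtain ⟨C, hC, H⟩ := Pool.Agent.RadF.norm_bound (ProdSet n) γ hγ.continuous a b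
      hab ψ hψ hsupp p0 p.toReal (by linarith) h2 Cm hCm HM
    rw [ENNReal.ofReal_toReal hpt] at H
    refine ⟨C.toReal, fun m hm f hf hfc hlev => ?_⟩
    have hm1 : (1 : ℝ) ≤ m := by exact_mod_cast hm
    refine (H m f hf hfc (fun v hv => ?_)).trans ?_
    · obtain ⟨K, hK, hK'⟩ := hlev v hv
      exact ⟨K, fun i => ⟨prodSet_open (hK i), hK i⟩, hK'⟩
    gcongr
    rw [ENNReal.ofReal_mul ENNReal.toReal_nonneg, ENNReal.ofReal_toReal hC]
    gcongr
    have h4 : ENNReal.ofReal ((m : ℝ) ^ θ) = (m : ℝ≥0∞) ^ θ := by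
      rw [← ENNReal.ofReal_rpow_of_pos (by linarith), ENNReal.ofReal_natCast]
    rw [h4]
    exact ENNReal.rpow_le_rpow_of_exponent_le (by exact_mod_cast hm) h3

theorem fin_iff (hFP : S_FP) (hNG : S_NG) {n : ℕ} (hn : 2 ≤ n) (γ : ℝ → En n) (a b : ℝ)
    (hN : Nd n γ a b) (ψ : ℝ → ℝ) (hψ : Continuous ψ) (hsupp : tsupport ψ ⊆ Ioo a b)
    (hψ0 : ∀ s, 0 ≤ ψ s) (hψ1 : ∃ s, ψ s ≠ 0) (p : ℝ≥0∞) (hp1 : 1 ≤ p) :
    (n : ℝ≥0∞) < p ↔ ∃ C : ℝ, ∀ e : Fin n → En n, LinearIndependent ℝ e →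
        ∀ f : Fin n → ℝ → ℝ, (∀ i, Continuous (f i)) → (∀ i, HasCompactSupport (f i)) →
          eLpNorm (Mx γ ψ (fun x => ∏ i, f i ⟪e i, x⟫)) p volume ≤
            ENNReal.ofReal C * eLpNorm (fun x => ∏ i, f i ⟪e i, x⟫) p volume := by
  constructor
  · intro hp
    exact hFP n hn γ a b hN ψ hψ hsupp p hp
  · rintro ⟨C, hC⟩
    by_contra hp
    exact hNG n hn γ a b hN ψ hψ hsupp hψ0 hψ1 p hp1 (not_lt.1 hp) (ENNReal.ofReal C)
      ENNReal.ofReal_ne_top hC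

end Pool.Agent.PF
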