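import Pool.Agent.PF.St

/-!
# PF, module LN: sublevel sets of the derivative of a coordinate (MP_0a3820_an)
-/

set_option autoImplicit false

open MeasureTheory Set Filter Topology Metric
open scoped ENNReal RealInnerProductSpace ContDiff

namespace Pool.Agent.PF

open Pool.Agent.MC

namespace LN

/-- the coordinate of the derivative -/
theorem iter_u {n : ℕ} (γ : ℝ → En n) (hγ : ContDiff ℝ ∞ γ) (e : En n) (k : ℕ) (s : ℝ) :
    iteratedDeriv k (fun x => ⟪e, deriv γ x⟫) s = ⟪e, iteratedDeriv (k + 1) γ s⟫ := by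
  have h1 : (fun x => ⟪e, deriv γ x⟫) = deriv (fun x => ⟪e, γ x⟫) := by
    funext x
    have h2 := congrFun (iteratedDeriv_inner γ hγ e 1) x
    rw [iteratedDeriv_one] at h2
    rw [h2, iteratedDeriv_one]
  rw [h1, ← iteratedDeriv_succ', iteratedDeriv_inner γ hγ e (k + 1)]

theorem contDiff_u {n : ℕ} (γ : ℝ → En n) (hγ : ContDiff ℝ ∞ γ) (e : En n) :
    ContDiff ℝ ∞ (fun x => ⟪e, deriv γ x⟫) := by
  have h1 : ContDiff ℝ ∞ (deriv γ) := by
    have h2 := (contDiff_infty_iff_deriv (f := γ)).1 hγ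
    exact h2.2
  exact contDiff_const.inner ℝ h1

/-- one interval -/
theorem one {n : ℕ} (hn : 2 ≤ n) {γ : ℝ → En n} (hγ : ContDiff ℝ ∞ γ) {C c B : ℝ}
    (hC : 1 ≤ C) (hc : 0 < c) (hB : 1 ≤ B)
    (H : ∀ k < n, ∀ h : ℝ → ℝ, ContDiff ℝ ∞ h →
      ∀ α β c : ℝ, 0 < c → ((∀ s ∈ Ioo α β, c ≤ iteratedDeriv (k + 1) h s) ∨
        (∀ s ∈ Ioo α β, iteratedDeriv (k + 1) h s ≤ -c)) →
        ∀ lam τ : ℝ, 0 ≤ τ →
          volume.real {s | s ∈ Ioo α β ∧ |h s - lam| ≤ τ} ^ (k + 1) ≤ C * τ / c)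
    (e : En n) {α β : ℝ} (hβ : β - α ≤ B) (k : ℕ) (hk : k < n)
    (hd : (∀ s ∈ Ioo α β, c ≤ ⟪e, iteratedDeriv (k + 1) γ s⟫) ∨
      (∀ s ∈ Ioo α β, ⟪e, iteratedDeriv (k + 1) γ s⟫ ≤ -c)) {δ : ℝ} (hδ : 0 ≤ δ) :
    volume.real {s | s ∈ Ioo α β ∧ |⟪e, deriv γ s⟫| ≤ δ} ^ (n - 1) ≤ C * B ^ n / c * δ := by
  set v := volume.real {s | s ∈ Ioo α β ∧ |⟪e, deriv γ s⟫| ≤ δ} with hv
  have hv0 : 0 ≤ v := measureReal_nonneg
  have hvB : v ≤ B := by
    have h1 : v ≤ volume.real (Ioo α β) := by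
      refine measureReal_mono (fun s hs => hs.1) ?_
      rw [Real.volume_Ioo]
      exact ENNReal.ofReal_ne_top
    have h2 : volume.real (Ioo α β) ≤ B := by
      rw [Measure.real, Real.volume_Ioo, ENNReal.toReal_ofReal']
      exact max_le hβ (by linarith)
    exact h1.trans h2
  have hBn : ∀ i : ℕ, i ≤ n → B ^ i ≤ B ^ n := fun i hi => pow_le_pow_right₀ hB hi
  have hBp : 0 < B ^ n := by positivity
  rcases Nat.eq_zero_or_pos k with rfl | hk0
  · rcases lt_or_ge δ c with h1 | h1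
    · have h2 : {s | s ∈ Ioo α β ∧ |⟪e, deriv γ s⟫| ≤ δ} = ∅ := by
        rw [Set.eq_empty_iff_forall_notMem]
        rintro s ⟨hs, h3⟩
        have h4 : c ≤ |⟪e, deriv γ s⟫| := by
          rcases hd with hd | hd
          · have h5 := hd s hs
            rw [iteratedDeriv_one] at h5
            exact h5.trans (le_abs_self _)
          · have h5 := hd s hs
            rw [iteratedDeriv_one] at h5
            exact (by linarith : c ≤ -⟪e, deriv γ s⟫).trans (neg_le_abs _)
        linarith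
      have h3 : v = 0 := by
        rw [hv, h2, measureReal_empty]
      rw [h3, zero_pow (by omega)]
      positivity
    · have h2 : v ^ (n - 1) ≤ B ^ n :=
        (pow_le_pow_left₀ hv0 hvB _).trans (hBn _ (by omega))
      have h3 : B ^ n ≤ C * B ^ n := le_mul_of_one_le_left hBp.le hC
      have h4 : C * B ^ n = C * B ^ n / c * c := by
        field_simp
      have h5 : C * B ^ n / c * c ≤ C * B ^ n / c * δ :=
        mul_le_mul_of_nonneg_left h1 (by positivity)
      linarith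
  · obtain ⟨m, rfl⟩ : ∃ m, k = m + 1 := ⟨k - 1, by omega⟩
    have h1 := H m (by omega) (fun x => ⟪e, deriv γ x⟫) (contDiff_u γ hγ e) α β c hc (by
      rcases hd with hd | hd
      · left
        intro s hs
        rw [iter_u γ hγ]
        exact hd s hs
      · right
        intro s hs
        rw [iter_u γ hγ]
        exact hd s hs) 0 δ hδ
    simp only [sub_zero] at h1
    rw [← hv] at h1
    have h2 : v ^ (n - 1) = v ^ (m + 1) * v ^ (n - 1 - (m + 1)) := by
      rw [← pow_add]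
      congr 1
      omega
    rw [h2]
    have h3 : v ^ (n - 1 - (m + 1)) ≤ B ^ n :=
      (pow_le_pow_left₀ hv0 hvB _).trans (hBn _ (by omega))
    calc v ^ (m + 1) * v ^ (n - 1 - (m + 1)) ≤ (C * δ / c) * B ^ n :=
          mul_le_mul h1 h3 (pow_nonneg hv0 _) (by positivity)
      _ = C * B ^ n / c * δ := by ring

end LN

theorem t_LN : S_LN := by
  intro n hn γ a b hNd
  obtain ⟨hab, hγ, hli⟩ := hNd
  obtain ⟨c, δ₀, hc, hδ₀, hft⟩ := finite_type (by omega) γ a b hab hγ hli
  obtain ⟨C, hC, H⟩ := unif_const n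
  obtain ⟨N, hN⟩ := exists_nat_gt ((b - a) / δ₀)
  have hba : 0 < b - a := sub_pos.2 hab
  have hN0 : 0 < (N : ℝ) := lt_trans (by positivity) hN
  have hNpos : 0 < N := by exact_mod_cast hN0
  set w := (b - a) / N with hw
  have hw0 : 0 < w := by positivity
  have hwδ : w < δ₀ := by
    rw [hw, div_lt_iff₀ hN0]
    rw [div_lt_iff₀ hδ₀] at hN
    linarith
  have hwN : w * N = b - a := by
    rw [hw]
    field_simp
  set B := max 1 (b - a) with hB
  have hB1 : 1 ≤ B := le_max_left _ _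
  have hwB : w ≤ B := by
    refine le_trans ?_ (le_max_right _ _)
    rw [← hwN]
    exact le_mul_of_one_le_right hw0.le (by exact_mod_cast hNpos)
  refine ⟨(N : ℝ) ^ (n - 1) * (C * B ^ n / c), by positivity, fun e he δ hδ => ?_⟩
  have hα : ∀ i < N, a + i * w ∈ Icc a b := by
    intro i hi
    refine ⟨by have : 0 ≤ (i : ℝ) * w := by positivity
               linarith, ?_⟩
    have h1 : (i : ℝ) * w ≤ N * w := mul_le_mul_of_nonneg_right (by exact_mod_cast hi.le) hw0.le
    linarith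
  have hsub : ∀ i < N, ∀ s ∈ Ioo (a + i * w) (a + (i + 1) * w), s ∈ Icc a b ∧
      |s - (a + i * w)| < δ₀ := by
    intro i hi s hs
    have h1 : ((i : ℝ) + 1) * w ≤ N * w :=
      mul_le_mul_of_nonneg_right (by exact_mod_cast hi) hw0.le
    have h2 : 0 ≤ (i : ℝ) * w := by positivity
    have h3 := hs.1
    have h4 := hs.2
    refine ⟨⟨by linarith, by linarith⟩, ?_⟩
    rw [abs_of_pos (by linarith)]
    linarith
  set A : ℕ → Set ℝ := fun i =>
    {s | s ∈ Ioo (a + i * w) (a + (i + 1) * w) ∧ |⟪e, deriv γ s⟫| ≤ δ} with hA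
  have hone : ∀ i < N, volume.real (A i) ^ (n - 1) ≤ C * B ^ n / c * δ := by
    intro i hi
    obtain ⟨k, hk, hd⟩ := hft e he (a + i * w) (hα i hi)
    refine LN.one hn hγ hC hc hB1 H e (α := a + i * w) (β := a + (i + 1) * w) (by linarith) k hk
      ?_ hδ
    rcases hd with hd | hd
    · left
      intro s hs
      exact hd s (hsub i hi s hs).1 (hsub i hi s hs).2
    · right
      intro s hs
      exact hd s (hsub i hi s hs).1 (hsub i hi s hs).2
  have hcov : {s | s ∈ Icc a b ∧ |⟪e, deriv γ s⟫| ≤ δ} ⊆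
      (⋃ i ∈ Finset.range N, A i) ∪ ((Finset.range (N + 1)).image fun i : ℕ => a + i * w : Finset ℝ) := by
    rintro s ⟨hs, hs2⟩
    by_cases h1 : s ∈ (((Finset.range (N + 1)).image fun i : ℕ => a + i * w : Finset ℝ) : Set ℝ)
    · exact Or.inr h1
    left
    have hsw : 0 ≤ (s - a) / w := div_nonneg (by linarith [hs.1]) hw0.le
    set i := ⌊(s - a) / w⌋₊ with hi
    have h2 : (i : ℝ) ≤ (s - a) / w := Nat.floor_le hsw
    have h3 : (s - a) / w < i + 1 := Nat.lt_floor_add_one _
    rw [le_div_iff₀ hw0] at h2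
    rw [div_lt_iff₀ hw0] at h3
    have h4 : i ≤ N := by
      have h5 : (i : ℝ) * w ≤ N * w := by
        have := hs.2
        linarith
      exact_mod_cast le_of_mul_le_mul_right h5 hw0
    have h5 : s ≠ a + i * w := by
      intro h6
      apply h1
      rw [Finset.mem_coe, Finset.mem_image]
      exact ⟨i, Finset.mem_range.2 (by omega), h6.symm⟩
    have h6 : i < N := by
      rcases h4.lt_or_eq with h6 | h6
      · exact h6
      · exfalso
        have h7 : (i : ℝ) * w = b - a := by rw [h6, mul_comm, hwN]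
        have := hs.2
        exact h5 (by linarith)
    rw [Set.mem_iUnion₂]
    refine ⟨i, Finset.mem_range.2 h6, ⟨?_, ?_⟩, hs2⟩
    · exact lt_of_le_of_ne (by linarith) (Ne.symm h5)
    · linarith
  have hAfin : ∀ i, volume (A i) ≠ ⊤ := by
    intro i
    refine ne_top_of_le_ne_top ?_ (measure_mono (fun s hs => hs.1))
    rw [Real.volume_Ioo]
    exact ENNReal.ofReal_ne_top
  have hsum : volume.real {s | s ∈ Icc a b ∧ |⟪e, deriv γ s⟫| ≤ δ} ≤
      ∑ i ∈ Finset.range N, volume.real (A i) := by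
    have h1 : volume {s | s ∈ Icc a b ∧ |⟪e, deriv γ s⟫| ≤ δ} ≤
        ∑ i ∈ Finset.range N, volume (A i) := by
      refine (measure_mono hcov).trans ((measure_union_le _ _).trans ?_)
      have h2 : volume (((Finset.range (N + 1)).image fun i : ℕ => a + i * w : Finset ℝ) : Set ℝ) = 0 :=
        (Finset.finite_toSet _).measure_zero _
      rw [h2, add_zero]
      exact measure_biUnion_finset_le _ _
    have h3 : ∑ i ∈ Finset.range N, volume (A i) ≠ ⊤ :=
      ENNReal.sum_ne_top.2 fun i _ => hAfin i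
    have h4 := ENNReal.toReal_mono h3 h1
    rw [ENNReal.toReal_sum fun i _ => hAfin i] at h4
    exact h4
  obtain ⟨i0, hi0, hmax⟩ := Finset.exists_max_image (Finset.range N) (fun i => volume.real (A i))
    ⟨0, Finset.mem_range.2 hNpos⟩
  have h1 : ∑ i ∈ Finset.range N, volume.real (A i) ≤ N * volume.real (A i0) := by
    have h2 := Finset.sum_le_card_nsmul (Finset.range N) (fun i => volume.real (A i))
      (volume.real (A i0)) hmax
    rwa [Finset.card_range, nsmul_eq_mul] at h2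
  calc volume.real {s | s ∈ Icc a b ∧ |⟪e, deriv γ s⟫| ≤ δ} ^ (n - 1)
      ≤ (N * volume.real (A i0)) ^ (n - 1) :=
        pow_le_pow_left₀ measureReal_nonneg (hsum.trans h1) _
    _ = (N : ℝ) ^ (n - 1) * volume.real (A i0) ^ (n - 1) := mul_pow _ _ _
    _ ≤ (N : ℝ) ^ (n - 1) * (C * B ^ n / c * δ) :=
        mul_le_mul_of_nonneg_left (hone i0 (Finset.mem_range.1 hi0)) (by positivity)
    _ = (N : ℝ) ^ (n - 1) * (C * B ^ n / c) * δ := by ring

end Pool.Agent.PF
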