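import Pool.Agent.PF.St

/-!
# LV: the levels of the derivative
-/

set_option autoImplicit false

open MeasureTheory Set Filter Topology Metric
open scoped ENNReal RealInnerProductSpace ContDiff

namespace Pool.Agent.PF

open Pool.Agent.MC

namespace LV

lemma ord {u : ℝ → ℝ} {P : Set ℝ} (hP : P.OrdConnected) (hm : MonotoneOn u P ∨ AntitoneOn u P)
    (α β : ℝ) : ({s | s ∈ P ∧ α < u s ∧ u s ≤ β} : Set ℝ).OrdConnected := by
  refine ⟨fun x hx y hy z hz => ?_⟩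
  have hzP : z ∈ P := hP.out hx.1 hy.1 hz
  rcases hm with h | h
  · exact ⟨hzP, hx.2.1.trans_le (h hx.1 hzP hz.1), (h hzP hy.1 hz.2).trans hy.2.2⟩
  · exact ⟨hzP, hy.2.1.trans_le (h hzP hy.1 hz.2), (h hx.1 hzP hz.1).trans hx.2.2⟩

lemma near {M v : ℝ} (hM : 0 < M) (hv : 0 < v) (hvM : v ≤ M) :
    ∃ j : ℕ, M / 2 / 2 ^ j < v ∧ v ≤ M / 2 ^ j := by
  obtain ⟨j, h1, h2⟩ := exists_nat_pow_near_of_lt_one (x := v / M) (y := 1 / 2) (by positivity)
    ((div_le_one hM).2 hvM) (by norm_num) (by norm_num)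
  refine ⟨j, ?_, ?_⟩
  · rw [lt_div_iff₀ hM, one_div, inv_pow, pow_succ] at h1
    have : M / 2 / 2 ^ j = (2 ^ j * 2)⁻¹ * M := by field_simp
    rw [this]
    exact h1
  · rw [div_le_iff₀ hM, one_div, inv_pow] at h2
    have : M / 2 ^ j = (2 ^ j)⁻¹ * M := by field_simp
    rw [this]
    exact h2

lemma piece (u : ℝ → ℝ) {P : Set ℝ} (hP : P.OrdConnected) (hm : MonotoneOn u P ∨ AntitoneOn u P)
    {M : ℝ} (hM : 0 < M) (hb : ∀ s ∈ P, |u s| ≤ M) :
    ∃ Q : Bool → ℕ → Set ℝ, (∀ κ j, (Q κ j).OrdConnected ∧ Q κ j ⊆ P ∧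
      ∀ s ∈ Q κ j, M / 2 / 2 ^ j ≤ |u s| ∧ |u s| ≤ M / 2 ^ j) ∧
      ∀ s ∈ P, u s ≠ 0 → ∃ κ j, s ∈ Q κ j := by
  have hm' : MonotoneOn (fun s => -u s) P ∨ AntitoneOn (fun s => -u s) P := by
    rcases hm with h | h
    · exact Or.inr h.neg
    · exact Or.inl h.neg
  refine ⟨fun κ j => match κ with
    | true => {s | s ∈ P ∧ M / 2 / 2 ^ j < u s ∧ u s ≤ M / 2 ^ j}
    | false => {s | s ∈ P ∧ M / 2 / 2 ^ j < -u s ∧ -u s ≤ M / 2 ^ j}, ?_, ?_⟩
  · intro κ j
    have hpos : 0 < M / 2 / 2 ^ j := by positivity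
    cases κ with
    | true =>
      refine ⟨ord hP hm _ _, fun s hs => hs.1, fun s hs => ?_⟩
      obtain ⟨-, h1, h2⟩ := hs
      rw [abs_of_pos (hpos.trans h1)]
      exact ⟨h1.le, h2⟩
    | false =>
      refine ⟨ord hP hm' _ _, fun s hs => hs.1, fun s hs => ?_⟩
      obtain ⟨-, h1, h2⟩ := hs
      rw [abs_of_neg (by linarith)]
      exact ⟨h1.le, h2⟩
  · intro s hs h0
    obtain ⟨j, h1, h2⟩ := near hM (abs_pos.2 h0) (hb s hs)
    rcases lt_or_gt_of_ne h0 with h | h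
    · rw [abs_of_neg h] at h1 h2
      exact ⟨false, j, hs, h1, h2⟩
    · rw [abs_of_pos h] at h1 h2
      exact ⟨true, j, hs, h1, h2⟩

lemma loc (hPM : S_PM) (n : ℕ) (u : ℝ → ℝ) (hu : ContDiff ℝ ∞ u) {J : Set ℝ}
    (hJ : J.OrdConnected) {k : ℕ} (hkn : k < n) {c M : ℝ} (hc : 0 < c) (hM : 0 < M)
    (hk : (∀ s ∈ J, c ≤ iteratedDeriv k u s) ∨ (∀ s ∈ J, iteratedDeriv k u s ≤ -c))
    (hb : ∀ s ∈ J, |u s| ≤ M) :
    ∃ Q : Fin (2 ^ n) × Bool → ℕ → Set ℝ, (∀ κ j, (Q κ j).OrdConnected ∧ Q κ j ⊆ J ∧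
      ∀ s ∈ Q κ j, min c (M / 2) / 2 ^ j ≤ |u s| ∧ |u s| ≤ M / 2 ^ j) ∧
      ∀ s ∈ J, u s ≠ 0 → ∃ κ j, s ∈ Q κ j := by
  classical
  cases k with
  | zero =>
    refine ⟨fun _ j => if j = 0 then J else ∅, ?_, ?_⟩
    · intro κ j
      by_cases hj : j = 0
      · subst hj
        simp only [if_true]
        refine ⟨hJ, subset_rfl, fun s hs => ?_⟩
        rw [pow_zero, div_one, div_one]
        refine ⟨(min_le_left _ _).trans ?_, hb s hs⟩
        rcases hk with h | h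
        · have := h s hs
          rw [iteratedDeriv_zero] at this
          exact this.trans (le_abs_self _)
        · have := h s hs
          rw [iteratedDeriv_zero] at this
          exact le_abs.2 (Or.inr (by linarith))
      · simp only [hj, if_false]
        exact ⟨ordConnected_empty, empty_subset _, fun s hs => absurd hs (notMem_empty s)⟩
    · intro s hs _
      exact ⟨(⟨0, by positivity⟩, true), 0, by simpa using hs⟩
  | succ k =>
    have hne : ∀ s ∈ J, iteratedDeriv (k + 1) u s ≠ 0 := by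
      intro s hs h0
      rcases hk with h | h
      · have := h s hs
        linarith
      · have := h s hs
        linarith
    obtain ⟨P, hP, hJP⟩ := hPM k u hu J hJ hne
    have hPJ : ∀ i, P i ⊆ J := fun i => by rw [hJP]; exact subset_iUnion P i
    choose Q hQ1 hQ2 using fun i => piece u (hP i).1 (hP i).2 hM (fun s hs => hb s (hPJ i hs))
    refine ⟨fun κ j => if h : (κ.1 : ℕ) < 2 ^ k then Q ⟨κ.1, h⟩ κ.2 j else ∅, ?_, ?_⟩
    · intro κ j
      by_cases h : (κ.1 : ℕ) < 2 ^ k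
      · simp only [h, dif_pos]
        obtain ⟨h1, h2, h3⟩ := hQ1 ⟨κ.1, h⟩ κ.2 j
        refine ⟨h1, h2.trans (hPJ _), fun s hs => ⟨?_, (h3 s hs).2⟩⟩
        exact (div_le_div_of_nonneg_right (min_le_right _ _) (by positivity)).trans (h3 s hs).1
      · simp only [h, dif_neg, not_false_eq_true]
        exact ⟨ordConnected_empty, empty_subset _, fun s hs => absurd hs (notMem_empty s)⟩
    · intro s hs h0
      rw [hJP] at hs
      obtain ⟨i, hi⟩ := mem_iUnion.1 hs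
      obtain ⟨κ, j, hκ⟩ := hQ2 i s hi h0
      have hlt : (i : ℕ) < 2 ^ n := i.2.trans_le (Nat.pow_le_pow_right (by norm_num) (by omega))
      refine ⟨(⟨i, hlt⟩, κ), j, ?_⟩
      have hi2 : (i : ℕ) < 2 ^ k := i.2
      simpa only [hi2, dif_pos] using hκ

end LV

theorem t_LV : M_LV := by
  classical
  intro hPM hLN n hn γ a b hNd
  obtain ⟨hab, hγ, hnd⟩ := hNd
  obtain ⟨c, δ, hc, hδ, hft⟩ := finite_type (by omega) γ a b hab hγ hnd
  have hγ' : ContDiff ℝ ∞ (deriv γ) := (contDiff_infty_iff_deriv.1 hγ).2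
  obtain ⟨M₀, hM₀⟩ := isCompact_Icc.exists_bound_of_continuousOn (s := Icc a b)
    hγ'.continuous.continuousOn
  obtain ⟨N₀, hN₀⟩ := exists_nat_gt ((b - a) / δ)
  have hN₀pos : (0 : ℝ) < N₀ := lt_of_le_of_lt (div_nonneg (by linarith) hδ.le) hN₀
  set M : ℝ := max M₀ 1 with hMdef
  have hM : 0 < M := lt_of_lt_of_le one_pos (le_max_right _ _)
  set l : ℝ := (b - a) / N₀ with hl
  have hl0 : 0 < l := div_pos (by linarith) hN₀pos
  have hlδ : l < δ := by
    rw [hl, div_lt_iff₀ hN₀pos]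
    rw [div_lt_iff₀ hδ] at hN₀
    linarith
  have hlN : l * N₀ = b - a := by rw [hl]; field_simp
  obtain ⟨C, hC, hLN'⟩ := hLN n hn γ a b ⟨hab, hγ, hnd⟩
  refine ⟨Fintype.card (Fin N₀ × (Fin (2 ^ n) × Bool)), min c (M / 2), M, lt_min hc (by positivity),
    (min_le_right _ _).trans (by linarith), fun e he => ?_⟩
  set u : ℝ → ℝ := fun s => ⟪e, deriv γ s⟫ with hu
  have hucd : ContDiff ℝ ∞ u := contDiff_inner (deriv γ) hγ' e
  have huk : ∀ k, iteratedDeriv k u = fun s => ⟪e, iteratedDeriv (k + 1) γ s⟫ := by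
    intro k
    rw [hu, iteratedDeriv_inner (deriv γ) hγ' e k, iteratedDeriv_succ']
  have hub : ∀ s ∈ Icc a b, |u s| ≤ M := by
    intro s hs
    refine (abs_real_inner_le_norm _ _).trans ?_
    rw [he, one_mul]
    exact (hM₀ s hs).trans (le_max_left _ _)
  have hI : ∀ r : Fin N₀, Icc (a + r * l) (a + (r + 1) * l) ⊆ Icc a b := by
    intro r s hs
    have h1 : (0 : ℝ) ≤ r := Nat.cast_nonneg _
    have h2 : (r : ℝ) + 1 ≤ N₀ := by exact_mod_cast r.2
    refine ⟨?_, ?_⟩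
    · have := mul_nonneg h1 hl0.le
      linarith [hs.1]
    · have h3 : ((r : ℝ) + 1) * l ≤ N₀ * l := mul_le_mul_of_nonneg_right h2 hl0.le
      linarith [hs.2]
  have key : ∀ r : Fin N₀, ∃ Q : Fin (2 ^ n) × Bool → ℕ → Set ℝ,
      (∀ κ j, (Q κ j).OrdConnected ∧ Q κ j ⊆ Icc (a + r * l) (a + (r + 1) * l) ∧
      ∀ s ∈ Q κ j, min c (M / 2) / 2 ^ j ≤ |u s| ∧ |u s| ≤ M / 2 ^ j) ∧
      ∀ s ∈ Icc (a + r * l) (a + (r + 1) * l), u s ≠ 0 → ∃ κ j, s ∈ Q κ j := by
    intro r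
    have hs0 : a + r * l ∈ Icc (a + r * l) (a + (r + 1) * l) := ⟨le_rfl, by nlinarith⟩
    obtain ⟨k, hkn, hk⟩ := hft e he (a + r * l) (hI r hs0)
    have hclose : ∀ s ∈ Icc (a + r * l) (a + (r + 1) * l), |s - (a + r * l)| < δ := by
      intro s hs
      rw [abs_of_nonneg (by linarith [hs.1])]
      have : s - (a + r * l) ≤ l := by nlinarith [hs.2]
      linarith
    refine LV.loc hPM n u hucd ordConnected_Icc hkn hc hM ?_ (fun s hs => hub s (hI r hs))
    rcases hk with h | h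
    · left
      intro s hs
      rw [huk k]
      exact h s (hI r hs) (hclose s hs)
    · right
      intro s hs
      rw [huk k]
      exact h s (hI r hs) (hclose s hs)
  choose Q hQ1 hQ2 using key
  let E := Fintype.equivFin (Fin N₀ × (Fin (2 ^ n) × Bool))
  refine ⟨fun κ j => Q (E.symm κ).1 (E.symm κ).2 j, ?_, ?_⟩
  · intro κ j
    obtain ⟨h1, h2, h3⟩ := hQ1 (E.symm κ).1 (E.symm κ).2 j
    exact ⟨h1, h2.trans (hI _), h3⟩
  · have h0 : volume {s | s ∈ Icc a b ∧ |⟪e, deriv γ s⟫| ≤ 0} = 0 := by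
      have h1 := hLN' e he 0 le_rfl
      rw [mul_zero] at h1
      have h2 : volume.real {s | s ∈ Icc a b ∧ |⟪e, deriv γ s⟫| ≤ 0} ^ (n - 1) = 0 :=
        le_antisymm h1 (by positivity)
      have h3 : volume.real {s | s ∈ Icc a b ∧ |⟪e, deriv γ s⟫| ≤ 0} = 0 :=
        pow_eq_zero_iff (by omega) |>.1 h2
      rw [Measure.real, ENNReal.toReal_eq_zero_iff] at h3
      rcases h3 with h3 | h3
      · exact h3
      · exfalso
        have h4 : volume {s | s ∈ Icc a b ∧ |⟪e, deriv γ s⟫| ≤ 0} ≤ volume (Icc a b) :=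
          measure_mono fun s hs => hs.1
        rw [h3, Real.volume_Icc] at h4
        exact absurd h4 (by simp)
    refine measure_mono_null ?_ h0
    rintro s ⟨hs, hns⟩
    refine ⟨hs, ?_⟩
    by_contra hcon
    apply hns
    have hus : u s ≠ 0 := by
      intro h
      apply hcon
      rw [show ⟪e, deriv γ s⟫ = u s from rfl, h, abs_zero]
    -- the interval of `s`
    obtain ⟨r, hr⟩ : ∃ r : Fin N₀, s ∈ Icc (a + r * l) (a + (r + 1) * l) := by
      by_cases hsb : s = b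
      · have hN1 : 1 ≤ N₀ := by
          have : (0 : ℝ) < N₀ := hN₀pos
          exact_mod_cast this
        refine ⟨⟨N₀ - 1, by omega⟩, ?_⟩
        have h1 : ((N₀ - 1 : ℕ) : ℝ) = (N₀ : ℝ) - 1 := by push_cast [hN1]; ring
        simp only [h1]
        refine ⟨?_, ?_⟩
        · rw [hsb]; nlinarith
        · rw [hsb]; nlinarith
      · have hslt : s < b := lt_of_le_of_ne hs.2 hsb
        have hx0 : 0 ≤ (s - a) / l := div_nonneg (by linarith [hs.1]) hl0.le
        have hx1 : (s - a) / l < N₀ := by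
          rw [div_lt_iff₀ hl0]
          nlinarith
        have hfl : ⌊(s - a) / l⌋₊ < N₀ := (Nat.floor_lt hx0).2 hx1
        refine ⟨⟨⌊(s - a) / l⌋₊, hfl⟩, ?_⟩
        have h1 := Nat.floor_le hx0
        have h2 := Nat.lt_floor_add_one ((s - a) / l)
        rw [le_div_iff₀ hl0] at h1
        rw [div_lt_iff₀ hl0] at h2
        exact ⟨by simpa using (by linarith : a + (⌊(s - a) / l⌋₊ : ℝ) * l ≤ s),
          by simpa using (by linarith : s ≤ a + ((⌊(s - a) / l⌋₊ : ℝ) + 1) * l)⟩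
    obtain ⟨κ, j, hκ⟩ := hQ2 r s hr hus
    refine mem_iUnion.2 ⟨E (r, κ), mem_iUnion.2 ⟨j, ?_⟩⟩
    simpa [E] using hκ

end Pool.Agent.PF
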