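import Pool.Agent.PF.St

/-!
# MP_0a3820_an, product functions, module MJ: linear change of coordinates
-/

set_option autoImplicit false

open MeasureTheory Set Filter Topology Metric
open scoped ENNReal RealInnerProductSpace ContDiff

namespace Pool.Agent.PF

open Pool.Agent.MC

namespace MJ

/-- Tonelli's theorem in `n` variables -/
lemma lint_prod {n : ℕ} (f : Fin n → ℝ → ℝ≥0∞) (hf : ∀ i, Measurable (f i)) :
    ∫⁻ y : Fin n → ℝ, ∏ i, f i (y i) = ∏ i, ∫⁻ u, f i u := by
  induction n with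
  | zero =>
    simp only [Finset.univ_eq_empty, Finset.prod_empty, lintegral_const, one_mul]
    rw [volume_pi, Measure.pi_univ]
    simp
  | succ n ih =>
    have h1 := (volume_preserving_piFinSuccAbove (fun _ : Fin (n + 1) => ℝ) 0).symm
    rw [← h1.lintegral_comp_emb (MeasurableEquiv.measurableEmbedding _)]
    have h2 : ∀ z : ℝ × (Fin n → ℝ), ∏ i, f i ((MeasurableEquiv.piFinSuccAbove
        (fun _ : Fin (n + 1) => ℝ) 0).symm z i) = f 0 z.1 * ∏ i : Fin n, f i.succ (z.2 i) := by
      intro z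
      rw [Fin.prod_univ_succ]
      simp [MeasurableEquiv.piFinSuccAbove_symm_apply, Fin.insertNthEquiv]
    simp only [h2]
    have h3 : (volume : Measure (ℝ × (Fin n → ℝ))) = volume.prod volume := rfl
    rw [h3, lintegral_prod_mul (f := fun u => f 0 u)
      (g := fun w : Fin n → ℝ => ∏ i : Fin n, f i.succ (w i)) (hf 0).aemeasurable
      (Finset.measurable_fun_prod _ fun i _ =>
        (hf i.succ).comp (measurable_pi_apply i)).aemeasurable,
      ih (fun i => f i.succ) (fun i => hf i.succ), Fin.prod_univ_succ]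

/-- the coordinates given by a basis -/
lemma exists_equiv {n : ℕ} (u : Fin n → En n) (hu : LinearIndependent ℝ u) :
    ∃ T : En n ≃L[ℝ] (Fin n → ℝ), ∀ x i, T x i = ⟪u i, x⟫ := by
  have hspan : Submodule.span ℝ (Set.range u) = ⊤ :=
    hu.span_eq_top_of_card_eq_finrank' (by simp)
  let L : En n →ₗ[ℝ] (Fin n → ℝ) := LinearMap.pi fun i => (innerₛₗ ℝ (u i))
  have hL : ∀ x i, L x i = ⟪u i, x⟫ := fun x i => rfl
  have hinj : Function.Injective L := by
    rw [← LinearMap.ker_eq_bot, LinearMap.ker_eq_bot']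
    intro x hx
    have h1 : ∀ y ∈ Submodule.span ℝ (Set.range u), ⟪y, x⟫ = 0 := by
      intro y hy
      induction hy using Submodule.span_induction with
      | mem y hy =>
        obtain ⟨i, rfl⟩ := hy
        rw [← hL, hx]
        rfl
      | zero => exact inner_zero_left _
      | add y z _ _ h1 h2 => rw [inner_add_left, h1, h2, add_zero]
      | smul c y _ h1 => rw [real_inner_smul_left, h1, mul_zero]
    have h2 := h1 x (by rw [hspan]; exact Submodule.mem_top)
    exact inner_self_eq_zero.1 h2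
  let E := LinearEquiv.ofInjectiveOfFinrankEq L hinj (by simp)
  refine ⟨E.toContinuousLinearEquiv, fun x i => ?_⟩
  rw [← hL]
  rfl

end MJ

theorem t_MJ : M_MJ := by
  intro hSM n hn γ a b hN p hp
  obtain ⟨C, hC, H⟩ := hSM n hn γ a b hN p hp
  refine ⟨C, hC, fun e he g hg => ?_⟩
  have hp0 : 0 ≤ p := (Nat.cast_nonneg n).trans hp.le
  have hne : ∀ i, e i ≠ 0 := fun i => he.ne_zero i
  have hnn : ∀ i, ‖e i‖ ≠ 0 := fun i => norm_ne_zero_iff.2 (hne i)
  set u : Fin n → En n := fun i => (‖e i‖)⁻¹ • e i with hu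
  have hu1 : ∀ i, ‖u i‖ = 1 := by
    intro i
    rw [hu, norm_smul, norm_inv, norm_norm, inv_mul_cancel₀ (hnn i)]
  have hui : LinearIndependent ℝ u := by
    have := he.units_smul fun i => Units.mk0 (‖e i‖)⁻¹ (inv_ne_zero (hnn i))
    exact this
  have hue : ∀ i (x : En n), ‖e i‖ * ⟪u i, x⟫ = ⟪e i, x⟫ := by
    intro i x
    rw [hu, real_inner_smul_left, ← mul_assoc, mul_inv_cancel₀ (hnn i), one_mul]
  set g' : Fin n → ℝ → ℝ≥0∞ := fun i s => g i (‖e i‖ * s) with hg'
  have hg'm : ∀ i, Measurable (g' i) := fun i => (hg i).comp (measurable_const_mul _)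
  obtain ⟨G', hG', hG1, hG2⟩ := H u hu1 g' hg'm
  obtain ⟨T, hT⟩ := MJ.exists_equiv u hui
  have hTm : Measurable T := T.continuous.measurable
  refine ⟨fun x => G' (T x), hG'.comp hTm, ?_, ?_⟩
  · intro x t ht
    have h1 := hG1 (T x) t ht
    have h2 : ∀ s i, g' i (T x i - t * ⟪u i, γ s⟫) = g i ⟪e i, x - t • γ s⟫ := by
      intro s i
      rw [hg', hT]
      beta_reduce
      congr 1
      rw [inner_sub_right, real_inner_smul_right, ← hue i x, ← hue i (γ s)]
      ring
    simp only [h2] at h1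
    exact h1
  · set κ := Measure.addHaarScalarFactor ((volume : Measure (En n)).map T)
      (volume : Measure (Fin n → ℝ)) with hκ
    have hmap : (volume : Measure (En n)).map T = κ • (volume : Measure (Fin n → ℝ)) :=
      Measure.isAddLeftInvariant_eq_smul _ _
    have h3 : ∀ F : (Fin n → ℝ) → ℝ≥0∞, Measurable F →
        ∫⁻ x, F (T x) = κ * ∫⁻ y, F y := by
      intro F hF
      rw [← lintegral_map hF hTm, hmap, lintegral_smul_measure]
      rfl
    have h4 : ∀ x : En n, (∏ i, g i ⟪e i, x⟫) ^ p = ∏ i, g' i (T x i) ^ p := by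
      intro x
      rw [← ENNReal.prod_rpow_of_nonneg hp0]
      have h5 : ∀ i, g' i (T x i) = g i ⟪e i, x⟫ := by
        intro i
        rw [hg', hT]
        beta_reduce
        rw [hue]
      simp only [h5]
    rw [h3 G' hG']
    simp only [h4]
    rw [h3 (fun y => ∏ i, g' i (y i) ^ p) (Finset.measurable_fun_prod _ fun i _ =>
      ((hg'm i).comp (measurable_pi_apply i)).pow_const p),
      MJ.lint_prod (fun i s => g' i s ^ p) (fun i => (hg'm i).pow_const p)]
    calc (κ : ℝ≥0∞) * ∫⁻ y, G' y ≤ κ * (C * ∏ i, ∫⁻ s, g' i s ^ p) := by gcongr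
      _ = C * (κ * ∏ i, ∫⁻ s, g' i s ^ p) := by ring

end Pool.Agent.PF
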