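import Pool.Agent.PF.St

/-!
# Module NG of the project PF: failure of the maximal estimate for products, `p ≤ n`
-/

set_option autoImplicit false

open MeasureTheory Set Filter Topology Metric
open scoped ENNReal RealInnerProductSpace ContDiff

namespace Pool.Agent.PF

open Pool.Agent.MC

namespace NG

variable {n : ℕ}

lemma gen_norm (hn : 0 < n) {e : En n} (he : e ≠ 0) {ε : ℝ} (hε : 0 < ε) {g : En n → ℝ} {R₂ : ℝ}
    (hg0 : ∀ y, 0 ≤ g y) (hg : ∀ y, g y ≤ (|⟪e, y⟫| ^ (1 / (n : ℝ)) + ε)⁻¹)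
    (hs : Function.support g ⊆ closedBall 0 R₂) :
    eLpNorm g (n : ℝ≥0∞) volume ≤
      (volume (closedBall (0 : En n) (R₂ + ‖e‖⁻¹)) *
        ENNReal.ofReal (1 + 2 * Real.log ((1 + ε ^ n) / ε ^ n))) ^ (1 / (n : ℝ)) := by
  have hn0 : (0 : ℝ) < n := by exact_mod_cast hn
  have hn1 : (n : ℝ≥0∞) ≠ 0 := by exact_mod_cast hn.ne'
  rw [eLpNorm_eq_lintegral_rpow_enorm_toReal hn1 (ENNReal.natCast_ne_top n),
    ENNReal.toReal_natCast]
  apply ENNReal.rpow_le_rpow _ (by positivity)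
  have h1 : ∀ y, ‖g y‖ₑ ^ (n : ℝ) ≤ (closedBall (0 : En n) R₂).indicator
      (fun y => ENNReal.ofReal ((1 * |⟪e, y⟫| + ε ^ n)⁻¹)) y := by
    intro y
    by_cases hy : y ∈ closedBall (0 : En n) R₂
    · rw [indicator_of_mem hy, Real.enorm_eq_ofReal (hg0 y),
        ENNReal.ofReal_rpow_of_nonneg (hg0 y) hn0.le]
      apply ENNReal.ofReal_le_ofReal
      have hd := den_pos (e := e) hε y
      have hw : 0 ≤ |⟪e, y⟫| ^ (1 / (n : ℝ)) := Real.rpow_nonneg (abs_nonneg _) _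
      have h2 : |⟪e, y⟫| = (|⟪e, y⟫| ^ (1 / (n : ℝ))) ^ n := by
        rw [← Real.rpow_natCast, ← Real.rpow_mul (abs_nonneg _), one_div,
          inv_mul_cancel₀ hn0.ne', Real.rpow_one]
      calc g y ^ (n : ℝ) ≤ ((|⟪e, y⟫| ^ (1 / (n : ℝ)) + ε)⁻¹) ^ (n : ℝ) :=
            Real.rpow_le_rpow (hg0 y) (hg y) hn0.le
        _ = ((|⟪e, y⟫| ^ (1 / (n : ℝ)) + ε) ^ n)⁻¹ := by
            rw [Real.rpow_natCast, inv_pow]
        _ ≤ (1 * |⟪e, y⟫| + ε ^ n)⁻¹ := by
            apply inv_anti₀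
            · have := abs_nonneg ⟪e, y⟫
              positivity
            · rw [one_mul]
              conv_lhs => rw [h2]
              exact pow_add_pow_le hw hε.le hn.ne'
    · rw [indicator_of_notMem hy]
      have h0 : g y = 0 := by
        by_contra h0
        exact hy (hs h0)
      rw [h0, enorm_zero, ENNReal.zero_rpow_of_pos hn0]
  calc ∫⁻ y, ‖g y‖ₑ ^ (n : ℝ)
      ≤ ∫⁻ y in closedBall (0 : En n) R₂, ENNReal.ofReal ((1 * |⟪e, y⟫| + ε ^ n)⁻¹) := by
        rw [← lintegral_indicator measurableSet_closedBall]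
        exact lintegral_mono h1
    _ ≤ _ := slab_int e he (fun w => ENNReal.ofReal ((1 * |w| + ε ^ n)⁻¹))
        (ENNReal.continuous_ofReal.comp (cont_inv (ε ^ n) (by positivity) 1 one_pos)).measurable
        R₂ _ (one_dim_int (ε ^ n) (by positivity))

lemma gen_norm_p (hn : 0 < n) {e : En n} (he : e ≠ 0) {ε : ℝ} (hε : 0 < ε) {g : En n → ℝ}
    {R₂ : ℝ} (hc : Continuous g)
    (hg0 : ∀ y, 0 ≤ g y) (hg : ∀ y, g y ≤ (|⟪e, y⟫| ^ (1 / (n : ℝ)) + ε)⁻¹)
    (hs : Function.support g ⊆ closedBall 0 R₂) (p : ℝ≥0∞) (hp : p ≤ n) :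
    eLpNorm g p volume ≤
      (volume (closedBall (0 : En n) (R₂ + ‖e‖⁻¹)) *
        ENNReal.ofReal (1 + 2 * Real.log ((1 + ε ^ n) / ε ^ n))) ^ (1 / (n : ℝ)) *
      volume (closedBall (0 : En n) R₂) ^ (1 / p.toReal - 1 / (n : ℝ)) := by
  have h1 := eLpNorm_restrict_eq_of_support_subset (μ := volume) (p := p) hs
  rw [← h1]
  have h2 := eLpNorm_le_eLpNorm_mul_rpow_measure_univ (μ := volume.restrict
    (closedBall (0 : En n) R₂)) hp hc.aestronglyMeasurable
  refine h2.trans ?_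
  rw [ENNReal.toReal_natCast, Measure.restrict_apply_univ,
    eLpNorm_restrict_eq_of_support_subset hs]
  gcongr
  exact gen_norm hn he hε hg0 hg hs


theorem core (hn : 2 ≤ n) (γ : ℝ → En n) (a b : ℝ) (hγ : ContDiff ℝ ∞ γ)
    (hnd : ∀ s ∈ Icc a b, LinearIndependent ℝ (fun k : Fin n => iteratedDeriv ((k : ℕ) + 1) γ s))
    (ψ : ℝ → ℝ) (hψ : Continuous ψ) (hsupp : tsupport ψ ⊆ Ioo a b) (hψ0 : ∀ s, 0 ≤ ψ s)
    (hψ1 : ∃ s, ψ s ≠ 0) (p : ℝ≥0∞) (hp1 : 1 ≤ p) (hp : p ≤ n) (C : ℝ≥0∞) (hC : C ≠ ⊤) :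
    ∃ (e : En n) (R : ℝ), e ≠ 0 ∧ ∀ (R₂ : ℝ) (F : ℝ → En n → ℝ),
      (∀ ε, 0 < ε → Continuous (F ε)) → (∀ ε, 0 < ε → ∀ y, 0 ≤ F ε y) →
      (∀ ε, 0 < ε → ∀ y, F ε y ≤ (|⟪e, y⟫| ^ (1 / (n : ℝ)) + ε)⁻¹) →
      (∀ ε, 0 < ε → ∀ y, ‖y‖ ≤ R → F ε y = (|⟪e, y⟫| ^ (1 / (n : ℝ)) + ε)⁻¹) →
      (∀ ε, 0 < ε → Function.support (F ε) ⊆ closedBall 0 R₂) →
      (∀ ε, 0 < ε → eLpNorm (Mx γ ψ (F ε)) p volume ≤ C * eLpNorm (F ε) p volume) → False := by
  have hn0 : 0 < n := by omega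
  have hnr : (0 : ℝ) < n := by exact_mod_cast hn0
  have hpt : p ≠ ⊤ := (hp.trans_lt (ENNReal.natCast_lt_top n)).ne
  have hp0 : p ≠ 0 := (zero_lt_one.trans_le hp1).ne'
  have hpr : 0 < p.toReal := ENNReal.toReal_pos hp0 hpt
  have hγc := hγ.continuous
  have hψc : HasCompactSupport ψ :=
    isCompact_Icc.of_isClosed_subset (isClosed_tsupport _) (hsupp.trans Ioo_subset_Icc_self)
  have hψin : ∀ s, ψ s ≠ 0 → s ∈ Icc a b := fun s hs =>
    Ioo_subset_Icc_self (hsupp (subset_tsupport _ hs))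
  obtain ⟨s0, hs0, e, he1, he2⟩ := exists_transversal hn γ hγ {s | ψ s ≠ 0}
    (isOpen_ne_fun hψ continuous_const) hψ1 (fun s hs => hnd s (hψin s hs))
  have he : e ≠ 0 := by
    rintro rfl
    rw [inner_zero_left] at he2
    exact zero_ne_one he2
  have hen : 0 < ‖e‖ := norm_pos_iff.2 he
  have hψs : 0 < ψ s0 := lt_of_le_of_ne (hψ0 s0) (Ne.symm hs0)
  -- a neighbourhood on which `ψ` is large
  obtain ⟨η, hη, hηψ⟩ : ∃ η > 0, ∀ s, |s - s0| ≤ η → ψ s0 / 2 ≤ ψ s := by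
    obtain ⟨δ, hδ, h⟩ := Metric.continuousAt_iff.1 hψ.continuousAt (ψ s0 / 2) (by positivity)
    refine ⟨δ / 2, by positivity, fun s hs => ?_⟩
    have h1 := h (x := s) (by rw [Real.dist_eq]; linarith)
    rw [Real.dist_eq, abs_lt] at h1
    linarith [h1.1]
  have hin : ∀ s, |s - s0| ≤ η → s ∈ Icc a b := by
    intro s hs
    apply hψin
    have := hηψ s hs
    have : 0 < ψ s := by linarith
    exact this.ne'
  -- order of contact
  set φ : ℝ → ℝ := fun s => ⟪e, γ s⟫ with hφ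
  have hφs : ContDiff ℝ ∞ φ := contDiff_inner γ hγ e
  obtain ⟨C0, hC0⟩ : ∃ C0, ∀ s ∈ Icc a b, ‖iteratedDeriv n φ s‖ ≤ C0 :=
    isCompact_Icc.exists_bound_of_continuousOn
      (hφs.continuous_iteratedDeriv n (by exact_mod_cast le_top)).continuousOn
  set C1 : ℝ := max 1 C0 with hC1
  have hC11 : 1 ≤ C1 := le_max_left _ _
  have hn1 : n - 1 + 1 = n := by omega
  have htay : ∀ s, |s - s0| ≤ η → |φ s - 1| ≤ C1 * |s - s0| ^ n := by
    have h1 := taylor_bound (n - 1) φ hφs s0 η C1 (by linarith) (fun k hk => by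
        rw [hφ, iteratedDeriv_inner γ hγ e (k + 1)]
        exact he1 k hk) (fun s hs => by
        rw [hn1]
        exact (hC0 s (hin s hs)).trans (le_max_right _ _))
    rw [hn1] at h1
    have h2 : φ s0 = 1 := he2
    rw [h2] at h1
    exact h1
  obtain ⟨Γ0, hΓ0⟩ : ∃ Γ0, ∀ s ∈ Icc a b, ‖γ s‖ ≤ Γ0 :=
    isCompact_Icc.exists_bound_of_continuousOn hγc.continuousOn
  have hΓ00 : 0 ≤ Γ0 := (norm_nonneg _).trans (hΓ0 s0 (hψin s0 hs0))
  set ρ : ℝ := 2 / ‖e‖ with hρ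
  set R : ℝ := ρ + 2 * Γ0 with hR
  refine ⟨e, R, he, fun R₂ F Fc F0 Fle Feq Fs FH => ?_⟩
  have Fle1 : ∀ ε, 0 < ε → ∀ y, F ε y ≤ ε⁻¹ := by
    intro ε hε y
    refine (Fle ε hε y).trans (inv_anti₀ hε ?_)
    have : 0 ≤ |⟪e, y⟫| ^ (1 / (n : ℝ)) := Real.rpow_nonneg (abs_nonneg _) _
    linarith
  set κ : ℝ := (2 * C1) ^ (1 / (n : ℝ)) with hκ
  have hκ0 : 0 < κ := by positivity
  -- the set of positive measure
  set E : Set (En n) := {x | 1 < ⟪e, x⟫} ∩ {x | ⟪e, x⟫ < 2} ∩ ball 0 ρ with hE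
  have hEo : IsOpen E :=
    ((isOpen_lt continuous_const (by fun_prop)).inter
      (isOpen_lt (by fun_prop) continuous_const)).inter isOpen_ball
  have hEn : E.Nonempty := by
    refine ⟨(3 / 2 * (‖e‖ ^ 2)⁻¹) • e, ?_⟩
    have h1 : ⟪e, (3 / 2 * (‖e‖ ^ 2)⁻¹) • e⟫ = 3 / 2 := by
      rw [real_inner_smul_right, real_inner_self_eq_norm_sq]
      field_simp
    refine ⟨⟨?_, ?_⟩, ?_⟩
    · rw [mem_ofPred_eq, h1]; norm_num
    · rw [mem_ofPred_eq, h1]; norm_num
    · rw [mem_ball_zero_iff, norm_smul, Real.norm_eq_abs, abs_of_nonneg (by positivity), hρ]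
      have h2 : 3 / 2 * (‖e‖ ^ 2)⁻¹ * ‖e‖ = (3 / 2) / ‖e‖ := by
        field_simp
      rw [h2]
      gcongr
      norm_num
  have hEpos : 0 < volume E := hEo.measure_pos _ hEn
  have hEfin : volume E ≠ ⊤ :=
    ((measure_mono inter_subset_right).trans_lt measure_ball_lt_top).ne
  -- the lower bound
  have hlow : ∀ ε : ℝ, 0 < ε → ∀ x ∈ E,
      ψ s0 / 2 * (κ⁻¹ * Real.log ((κ * η + ε) / ε)) ≤ Mx γ ψ (F ε) x := by
    intro ε hε x hx
    obtain ⟨⟨hx1, hx2⟩, hx3⟩ := hx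
    rw [mem_ofPred_eq] at hx1 hx2
    rw [mem_ball_zero_iff] at hx3
    set t : ℝ := ⟪e, x⟫ with ht
    have ht0 : 0 < t := by linarith
    refine le_trans ?_ (Mx_ge γ hγc ψ hψ hψc (F ε) (Fc ε hε) ε⁻¹
      (fun y => by rw [abs_of_nonneg (F0 ε hε y)]; exact Fle1 ε hε y) x t ht0)
    have hfc : Continuous fun s => ψ s * F ε (x - t • γ s) :=
      hψ.mul ((Fc ε hε).comp (by fun_prop))
    have hfi : Integrable (fun s => ψ s * F ε (x - t • γ s)) volume :=
      hfc.integrable_of_hasCompactSupport hψc.mul_right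
    have hpt : ∀ s ∈ Ioo (s0 - η) (s0 + η), ψ s0 / 2 * (κ * |s - s0| + ε)⁻¹ ≤
        ψ s * F ε (x - t • γ s) := by
      intro s hs
      have hsη : |s - s0| ≤ η := abs_le.2 ⟨by linarith [hs.1], by linarith [hs.2]⟩
      have hnorm : ‖x - t • γ s‖ ≤ R := by
        calc ‖x - t • γ s‖ ≤ ‖x‖ + ‖t • γ s‖ := norm_sub_le _ _
          _ ≤ ρ + 2 * Γ0 := by
            rw [norm_smul, Real.norm_eq_abs, abs_of_pos ht0]
            have h1 := hΓ0 s (hin s hsη)
            have h2 : t * ‖γ s‖ ≤ 2 * Γ0 := mul_le_mul hx2.le h1 (norm_nonneg _) (by norm_num)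
            linarith
      rw [Feq ε hε _ hnorm]
      have h3 : ⟪e, x - t • γ s⟫ = t * (1 - φ s) := by
        rw [inner_sub_right, real_inner_smul_right, ← ht]
        ring
      have h4 : |⟪e, x - t • γ s⟫| ≤ 2 * C1 * |s - s0| ^ n := by
        rw [h3, abs_mul, abs_of_pos ht0, abs_sub_comm]
        calc t * |φ s - 1| ≤ 2 * (C1 * |s - s0| ^ n) :=
              mul_le_mul hx2.le (htay s hsη) (abs_nonneg _) (by norm_num)
          _ = _ := by ring
      have h5 : |⟪e, x - t • γ s⟫| ^ (1 / (n : ℝ)) ≤ κ * |s - s0| := by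
        calc |⟪e, x - t • γ s⟫| ^ (1 / (n : ℝ)) ≤ (2 * C1 * |s - s0| ^ n) ^ (1 / (n : ℝ)) :=
              Real.rpow_le_rpow (abs_nonneg _) h4 (by positivity)
          _ = κ * |s - s0| := by
              rw [Real.mul_rpow (by positivity) (by positivity), ← Real.rpow_natCast |s - s0| n,
                ← Real.rpow_mul (abs_nonneg _), mul_one_div_cancel hnr.ne', Real.rpow_one]
      have h6 := den_pos (e := e) hε (x - t • γ s)
      apply mul_le_mul (hηψ s hsη) _ (by positivity) (hψ0 s)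
      apply inv_anti₀ h6
      linarith
    have hc : Continuous fun s : ℝ => (κ * |s - s0| + ε)⁻¹ :=
      (cont_inv ε hε κ hκ0).comp (by fun_prop : Continuous fun s : ℝ => s - s0)
    calc ψ s0 / 2 * (κ⁻¹ * Real.log ((κ * η + ε) / ε))
        ≤ ψ s0 / 2 * ∫ s in Ioo (s0 - η) (s0 + η), (κ * |s - s0| + ε)⁻¹ := by
          gcongr
          exact low_int ε κ η s0 hε hκ0 hη
      _ = ∫ s in Ioo (s0 - η) (s0 + η), ψ s0 / 2 * (κ * |s - s0| + ε)⁻¹ := by
          rw [integral_const_mul]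
      _ ≤ ∫ s in Ioo (s0 - η) (s0 + η), ψ s * F ε (x - t • γ s) := by
          apply setIntegral_mono_on _ hfi.integrableOn measurableSet_Ioo hpt
          exact ((continuous_const.mul hc).integrableOn_Icc (a := s0 - η) (b := s0 + η)).mono_set
            Ioo_subset_Icc_self
      _ ≤ ∫ s, ψ s * F ε (x - t • γ s) :=
          setIntegral_le_integral hfi (Eventually.of_forall fun s =>
            mul_nonneg (hψ0 s) (F0 ε hε _))
  -- comparison
  set V := volume (closedBall (0 : En n) (R₂ + ‖e‖⁻¹)) with hV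
  set V1 := volume (closedBall (0 : En n) R₂) ^ (1 / p.toReal - 1 / (n : ℝ)) with hV1
  have hVt : V ≠ ⊤ := measure_closedBall_lt_top.ne
  have hpn : p.toReal ≤ n := by
    have := ENNReal.toReal_mono (ENNReal.natCast_ne_top n) hp
    rwa [ENNReal.toReal_natCast] at this
  have hexp : 0 ≤ 1 / p.toReal - 1 / (n : ℝ) := by
    have := one_div_le_one_div_of_le hpr hpn
    linarith
  have hV1t : V1 ≠ ⊤ := ENNReal.rpow_ne_top_of_nonneg hexp measure_closedBall_lt_top.ne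
  set aE : ℝ := (volume E).toReal ^ (1 / p.toReal) with haE
  have haE0 : 0 < aE := Real.rpow_pos_of_pos (ENNReal.toReal_pos hEpos.ne' hEfin) _
  set bC : ℝ := C.toReal * V.toReal ^ (1 / (n : ℝ)) * V1.toReal with hbC
  have hbC0 : 0 ≤ bC := by positivity
  have hcmp : ∀ ε : ℝ, 0 < ε → 0 ≤ Real.log ((κ * η + ε) / ε) →
      ψ s0 / 2 * (κ⁻¹ * Real.log ((κ * η + ε) / ε)) * aE ≤
        bC * (1 + 2 * Real.log ((1 + ε ^ n) / ε ^ n)) ^ (1 / (n : ℝ)) := by
    intro ε hε hlog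
    set Λ : ℝ := ψ s0 / 2 * (κ⁻¹ * Real.log ((κ * η + ε) / ε)) with hΛ
    have hΛ0 : 0 ≤ Λ := by positivity
    have hlog2 : 0 ≤ Real.log ((1 + ε ^ n) / ε ^ n) := Real.log_nonneg (by
      rw [le_div_iff₀ (by positivity)]; linarith)
    have h1 : eLpNorm (E.indicator fun _ => Λ) p volume ≤
        eLpNorm (Mx γ ψ (F ε)) p volume := by
      apply eLpNorm_mono
      intro x
      by_cases hx : x ∈ E
      · rw [indicator_of_mem hx, Real.norm_eq_abs, Real.norm_eq_abs, abs_of_nonneg hΛ0]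
        exact (hlow ε hε x hx).trans (le_abs_self _)
      · rw [indicator_of_notMem hx, norm_zero]
        exact norm_nonneg _
    rw [eLpNorm_indicator_const hEo.measurableSet hp0 hpt] at h1
    have h2 := FH ε hε
    have h3 := gen_norm_p hn0 he hε (Fc ε hε) (F0 ε hε) (Fle ε hε) (Fs ε hε) p hp
    rw [← hV, ← hV1] at h3
    have h4 : ‖Λ‖ₑ * volume E ^ (1 / p.toReal) ≤ C * ((V *
        ENNReal.ofReal (1 + 2 * Real.log ((1 + ε ^ n) / ε ^ n))) ^ (1 / (n : ℝ)) * V1) :=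
      (h1.trans h2).trans (by gcongr)
    have hpos : (0 : ℝ) ≤ 1 / (n : ℝ) := by positivity
    have h5 := ENNReal.toReal_mono (ENNReal.mul_ne_top hC (ENNReal.mul_ne_top
      (ENNReal.rpow_ne_top_of_nonneg hpos (ENNReal.mul_ne_top hVt ENNReal.ofReal_ne_top))
      hV1t)) h4
    rw [ENNReal.toReal_mul, ENNReal.toReal_mul, ENNReal.toReal_mul, toReal_enorm,
      Real.norm_eq_abs, abs_of_nonneg hΛ0, ← ENNReal.toReal_rpow, ← ENNReal.toReal_rpow,
      ENNReal.toReal_mul, ENNReal.toReal_ofReal (by linarith),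
      Real.mul_rpow ENNReal.toReal_nonneg (by linarith)] at h5
    calc Λ * aE ≤ _ := h5
      _ = _ := by rw [hbC]; ring
  -- the limit
  refine final_real (ψ s0 / 2 * κ⁻¹ * aE) (Real.log (κ * η)) bC n (by positivity) hbC0 hn ?_
  intro L hL
  set ε : ℝ := Real.exp (-L) with hε
  have hε0 : 0 < ε := Real.exp_pos _
  have hε1 : ε ≤ 1 := Real.exp_le_one_iff.2 (by linarith)
  have hκη : 0 < κ * η := by positivity
  have hl1 : L + Real.log (κ * η) ≤ Real.log ((κ * η + ε) / ε) := by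
    rw [Real.log_div (by positivity) hε0.ne', hε, Real.log_exp]
    have : Real.log (κ * η) ≤ Real.log (κ * η + Real.exp (-L)) :=
      Real.log_le_log hκη (by linarith [Real.exp_pos (-L)])
    linarith
  have hl0 : 0 ≤ Real.log ((κ * η + ε) / ε) := Real.log_nonneg (by
    rw [le_div_iff₀ hε0]; linarith)
  have hl2 : 1 + 2 * Real.log ((1 + ε ^ n) / ε ^ n) ≤ 3 + 2 * n * L := by
    have h1 : Real.log ((1 + ε ^ n) / ε ^ n) ≤ Real.log 2 + n * L := by
      rw [Real.log_div (by positivity) (by positivity), Real.log_pow, hε, Real.log_exp]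
      have : Real.log (1 + Real.exp (-L) ^ n) ≤ Real.log 2 := by
        apply Real.log_le_log (by positivity)
        have : Real.exp (-L) ^ n ≤ 1 := pow_le_one₀ hε0.le hε1
        linarith
      nlinarith
    have h2 : Real.log 2 ≤ 1 := by
      have := Real.log_two_lt_d9
      linarith
    nlinarith
  have hlog2 : 0 ≤ Real.log ((1 + ε ^ n) / ε ^ n) := Real.log_nonneg (by
    rw [le_div_iff₀ (by positivity)]; linarith)
  calc ψ s0 / 2 * κ⁻¹ * aE * (L + Real.log (κ * η))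
      ≤ ψ s0 / 2 * κ⁻¹ * aE * Real.log ((κ * η + ε) / ε) := by gcongr
    _ = ψ s0 / 2 * (κ⁻¹ * Real.log ((κ * η + ε) / ε)) * aE := by ring
    _ ≤ _ := hcmp ε hε0 hl0
    _ ≤ bC * (3 + 2 * n * L) ^ (1 / (n : ℝ)) := by
        gcongr


/-- the cutoff -/
noncomputable def chi (R : ℝ) (u : ℝ) : ℝ := max 0 (min 1 (R + 1 - |u|))

lemma chi_cont (R : ℝ) : Continuous (chi R) := by
  unfold chi
  fun_prop

lemma chi_nonneg (R u : ℝ) : 0 ≤ chi R u := le_max_left _ _

lemma chi_le (R u : ℝ) : chi R u ≤ 1 := max_le zero_le_one (min_le_left _ _)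

lemma chi_one {R u : ℝ} (h : |u| ≤ R) : chi R u = 1 := by
  unfold chi
  rw [min_eq_left (by linarith), max_eq_right zero_le_one]

lemma chi_zero {R u : ℝ} (h : R + 1 ≤ |u|) : chi R u = 0 := by
  unfold chi
  rw [max_eq_left]
  exact (min_le_right _ _).trans (by linarith)

lemma chi_compact (R : ℝ) : HasCompactSupport (chi R) := by
  apply HasCompactSupport.of_support_subset_isCompact (isCompact_Icc (a := -(R + 1)) (b := R + 1))
  intro u hu
  rw [Function.mem_support] at hu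
  rw [mem_Icc, ← abs_le]
  by_contra h
  exact hu (chi_zero (not_le.1 h).le)

/-- the special factor -/
noncomputable def f0 (n : ℕ) (R ε : ℝ) (u : ℝ) : ℝ := (|u| ^ (1 / (n : ℝ)) + ε)⁻¹ * chi R u

lemma f0_cont (n : ℕ) (R : ℝ) {ε : ℝ} (hε : 0 < ε) : Continuous (f0 n R ε) := by
  unfold f0
  apply Continuous.mul _ (chi_cont R)
  apply Continuous.inv₀
  · have h1 : Continuous fun u : ℝ => |u| := by fun_prop
    exact (h1.rpow_const fun _ => Or.inr (by positivity)).add continuous_const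
  · intro u
    have : 0 ≤ |u| ^ (1 / (n : ℝ)) := Real.rpow_nonneg (abs_nonneg _) _
    linarith

lemma f0_compact (n : ℕ) (R : ℝ) (ε : ℝ) : HasCompactSupport (f0 n R ε) :=
  (chi_compact R).mul_left

/-- a basis which contains `e` -/
lemma basis {e : En n} (he : e ≠ 0) : ∃ (i₀ : Fin n) (b : Fin n → En n),
    LinearIndependent ℝ b ∧ b i₀ = e := by
  obtain ⟨i₀, hi⟩ : ∃ i, e i ≠ 0 := by
    by_contra h
    push Not at h
    apply he
    ext i
    exact h i
  refine ⟨i₀, Function.update (fun i => EuclideanSpace.single i (1 : ℝ)) i₀ e, ?_, by simp⟩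
  rw [Fintype.linearIndependent_iff]
  intro c hc
  have h1 : ∀ j, c i₀ * e j + (if j = i₀ then 0 else c j) = 0 := by
    intro j
    have h := congrArg (fun v : En n => v j) hc
    simp only [PiLp.zero_apply] at h
    have h2 : (∑ i, c i • Function.update (fun i => EuclideanSpace.single i (1 : ℝ)) i₀ e i) =
        c i₀ • e + ∑ i ∈ Finset.univ.erase i₀, c i • EuclideanSpace.single i (1 : ℝ) := by
      rw [← Finset.add_sum_erase Finset.univ _ (Finset.mem_univ i₀)]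
      congr 1
      · simp
      · refine Finset.sum_congr rfl fun i hi => ?_
        rw [Function.update_of_ne (Finset.ne_of_mem_erase hi)]
    have h4 : (∑ i ∈ Finset.univ.erase i₀, c i • EuclideanSpace.single i (1 : ℝ) : En n) j =
        ∑ i ∈ Finset.univ.erase i₀, (if j = i then c i else 0) := by
      rw [WithLp.ofLp_sum, Finset.sum_apply]
      refine Finset.sum_congr rfl fun i _ => ?_
      rw [WithLp.ofLp_smul, Pi.smul_apply, PiLp.single_apply, smul_eq_mul, mul_ite, mul_one,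
        mul_zero]
    rw [h2, PiLp.add_apply, PiLp.smul_apply, smul_eq_mul, h4, Finset.sum_ite_eq] at h
    by_cases hj : j = i₀
    · rw [if_neg (by simp [hj])] at h
      rw [if_pos hj]
      exact h
    · rw [if_pos (by simp [hj])] at h
      rw [if_neg hj]
      exact h
  have h0 : c i₀ = 0 := by
    have h := h1 i₀
    rw [if_pos rfl, add_zero] at h
    exact (mul_eq_zero.1 h).resolve_right hi
  intro j
  by_cases hj : j = i₀
  · rw [hj, h0]
  · have h := h1 j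
    rw [h0, zero_mul, zero_add, if_neg hj] at h
    exact h

/-- the coordinates bound the norm -/
lemma anti {b : Fin n → En n} (hb : LinearIndependent ℝ b) :
    ∃ K : ℝ, 0 ≤ K ∧ ∀ (y : En n) (r : ℝ), 0 ≤ r → (∀ i, |⟪b i, y⟫| ≤ r) → ‖y‖ ≤ K * r := by
  let T : En n →ₗ[ℝ] (Fin n → ℝ) := LinearMap.pi fun i => (innerₛₗ ℝ (b i))
  have hT : ∀ y i, T y i = ⟪b i, y⟫ := fun y i => rfl
  have hker : LinearMap.ker T = ⊥ := by
    rw [LinearMap.ker_eq_bot']
    intro y hy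
    have h1 : ∀ i, ⟪b i, y⟫ = 0 := fun i => by rw [← hT, hy]; rfl
    have h2 : y ∈ (Submodule.span ℝ (Set.range b))ᗮ := by
      rw [Submodule.mem_orthogonal]
      intro u hu
      induction hu using Submodule.span_induction with
      | mem x hx => obtain ⟨i, rfl⟩ := hx; exact h1 i
      | zero => exact inner_zero_left _
      | add x z _ _ hx hz => rw [inner_add_left, hx, hz, add_zero]
      | smul a x _ hx => rw [real_inner_smul_left, hx, mul_zero]
    have h3 : Submodule.span ℝ (Set.range b) = ⊤ :=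
      hb.span_eq_top_of_card_eq_finrank' (by simp)
    rw [h3, Submodule.top_orthogonal_eq_bot, Submodule.mem_bot] at h2
    exact h2
  obtain ⟨K, _, hK⟩ := T.exists_antilipschitzWith hker
  refine ⟨K, K.2, fun y r hr h => ?_⟩
  have h1 := hK.le_mul_dist y 0
  rw [dist_zero_right, map_zero, dist_zero_right] at h1
  refine h1.trans (mul_le_mul_of_nonneg_left ?_ K.2)
  rw [pi_norm_le_iff_of_nonneg hr]
  intro i
  rw [hT, Real.norm_eq_abs]
  exact h i

end NG

theorem t_NG : S_NG := by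
  intro n hn γ a b ⟨_, hγ, hnd⟩ ψ hψ hsupp hψ0 hψ1 p hp1 hp C hC H
  obtain ⟨e, R, he, hcore⟩ := NG.core hn γ a b hγ hnd ψ hψ hsupp hψ0 hψ1 p hp1 hp C hC
  obtain ⟨i₀, v, hv, hvi⟩ := NG.basis he
  obtain ⟨K, hK0, hK⟩ := NG.anti hv
  set R' : ℝ := |R| * ∑ i, ‖v i‖ with hR'
  have hR'0 : 0 ≤ R' := by positivity
  let f : ℝ → Fin n → ℝ → ℝ := fun ε i => if i = i₀ then NG.f0 n R' ε else NG.chi R'
  have hprod : ∀ ε y, ∏ i, f ε i ⟪v i, y⟫ =
      (|⟪e, y⟫| ^ (1 / (n : ℝ)) + ε)⁻¹ * ∏ i, NG.chi R' ⟪v i, y⟫ := by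
    intro ε y
    have h1 : ∀ i, f ε i ⟪v i, y⟫ =
        (if i = i₀ then (|⟪v i, y⟫| ^ (1 / (n : ℝ)) + ε)⁻¹ else 1) * NG.chi R' ⟪v i, y⟫ := by
      intro i
      by_cases hi : i = i₀
      · simp only [f, if_pos hi, NG.f0]
      · simp only [f, if_neg hi, one_mul]
    rw [Finset.prod_congr rfl fun i _ => h1 i, Finset.prod_mul_distrib, Finset.prod_ite_eq',
      if_pos (Finset.mem_univ _), hvi]
  have hchi0 : ∀ y, 0 ≤ ∏ i, NG.chi R' ⟪v i, y⟫ := fun y =>
    Finset.prod_nonneg fun i _ => NG.chi_nonneg _ _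
  have hchi1 : ∀ y, ∏ i, NG.chi R' ⟪v i, y⟫ ≤ 1 := fun y =>
    Finset.prod_le_one (fun i _ => NG.chi_nonneg _ _) fun i _ => NG.chi_le _ _
  have hden : ∀ ε : ℝ, 0 < ε → ∀ y : En n, 0 < |⟪e, y⟫| ^ (1 / (n : ℝ)) + ε := fun ε hε y =>
    den_pos hε y
  have hfc : ∀ ε : ℝ, 0 < ε → ∀ i, Continuous (f ε i) := by
    intro ε hε i
    by_cases hi : i = i₀
    · simp only [f, if_pos hi]
      exact NG.f0_cont n R' hε
    · simp only [f, if_neg hi]
      exact NG.chi_cont R'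
  have hfs : ∀ ε : ℝ, ∀ i, HasCompactSupport (f ε i) := by
    intro ε i
    by_cases hi : i = i₀
    · simp only [f, if_pos hi]
      exact NG.f0_compact n R' ε
    · simp only [f, if_neg hi]
      exact NG.chi_compact R'
  refine hcore (K * (R' + 1)) (fun ε y => ∏ i, f ε i ⟪v i, y⟫) ?_ ?_ ?_ ?_ ?_ ?_
  · intro ε hε
    exact continuous_finsetProd _ fun i _ => (hfc ε hε i).comp (by fun_prop)
  · intro ε hε y
    rw [hprod]
    exact mul_nonneg (inv_nonneg.2 (hden ε hε y).le) (hchi0 y)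
  · intro ε hε y
    rw [hprod]
    exact mul_le_of_le_one_right (inv_nonneg.2 (hden ε hε y).le) (hchi1 y)
  · intro ε hε y hy
    rw [hprod, Finset.prod_eq_one, mul_one]
    intro i _
    apply NG.chi_one
    calc |⟪v i, y⟫| ≤ ‖v i‖ * ‖y‖ := abs_real_inner_le_norm _ _
      _ ≤ (∑ i, ‖v i‖) * |R| := by
        apply mul_le_mul _ (hy.trans (le_abs_self R)) (norm_nonneg _) (by positivity)
        exact Finset.single_le_sum (f := fun i => ‖v i‖) (fun i _ => norm_nonneg _)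
          (Finset.mem_univ i)
      _ = R' := by rw [hR', mul_comm]
  · intro ε hε y hy
    rw [Function.mem_support, hprod] at hy
    rw [mem_closedBall_zero_iff]
    apply hK y (R' + 1) (by linarith)
    intro i
    by_contra h
    apply hy
    rw [Finset.prod_eq_zero (Finset.mem_univ i) (NG.chi_zero (not_le.1 h).le), mul_zero]
  · intro ε hε
    exact H v hv (f ε) (hfc ε hε) (hfs ε)

end Pool.Agent.PF
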