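import Pool.Agent.PF.NG

/-!
# Failure of the maximal estimate for functions whose superlevel sets are product sets, `p ≤ n`
-/

set_option autoImplicit false

open MeasureTheory Set Filter Topology Metric
open scoped ENNReal RealInnerProductSpace ContDiff

namespace Pool.Agent.PF

open Pool.Agent.MC

theorem t_NM {n : ℕ} (hn : 2 ≤ n) (γ : ℝ → En n) (a b : ℝ) (hN : Nd n γ a b)
    (ψ : ℝ → ℝ) (hψ : Continuous ψ) (hsupp : tsupport ψ ⊆ Ioo a b) (hψ0 : ∀ s, 0 ≤ ψ s)
    (hψ1 : ∃ s, ψ s ≠ 0) (p : ℝ≥0∞) (hp1 : 1 ≤ p) (hp : p ≤ n) (C : ℝ≥0∞) (hC : C ≠ ⊤)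
    (H : ∀ f : En n → ℝ, Continuous f → HasCompactSupport f →
      (∀ v : ℝ, 0 < v → ProdSet n {y | v < |f y|}) →
      eLpNorm (Mx γ ψ f) p volume ≤ C * eLpNorm f p volume) : False := by
  obtain ⟨_, hγ, hnd⟩ := hN
  obtain ⟨e, R, he, hcore⟩ := NG.core hn γ a b hγ hnd ψ hψ hsupp hψ0 hψ1 p hp1 hp C hC
  obtain ⟨i₀, v, hv, hvi⟩ := NG.basis he
  obtain ⟨K, hK0, hK⟩ := NG.anti hv
  set R' : ℝ := |R| * ∑ i, ‖v i‖ with hR'
  have hR'0 : 0 ≤ R' := by positivity
  let g : ℝ → Fin n → ℝ → ℝ := fun ε i => if i = i₀ then NG.f0 n R' ε else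
    fun u => ε⁻¹ * NG.chi R' u
  have hne : (Finset.univ : Finset (Fin n)).Nonempty := ⟨i₀, Finset.mem_univ _⟩
  let F : ℝ → En n → ℝ := fun ε y => Finset.univ.inf' hne (fun i => g ε i ⟪v i, y⟫)
  have hden : ∀ ε : ℝ, 0 < ε → ∀ u : ℝ, 0 < |u| ^ (1 / (n : ℝ)) + ε := by
    intro ε hε u
    have : 0 ≤ |u| ^ (1 / (n : ℝ)) := Real.rpow_nonneg (abs_nonneg _) _
    linarith
  have hgc : ∀ ε : ℝ, 0 < ε → ∀ i, Continuous (g ε i) := by
    intro ε hε i
    by_cases hi : i = i₀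
    · simp only [g, if_pos hi]
      exact NG.f0_cont n R' hε
    · simp only [g, if_neg hi]
      exact continuous_const.mul (NG.chi_cont R')
  have hg0 : ∀ ε : ℝ, 0 < ε → ∀ i u, 0 ≤ g ε i u := by
    intro ε hε i u
    by_cases hi : i = i₀
    · simp only [g, if_pos hi, NG.f0]
      exact mul_nonneg (inv_nonneg.2 (hden ε hε u).le) (NG.chi_nonneg _ _)
    · simp only [g, if_neg hi]
      exact mul_nonneg (inv_nonneg.2 hε.le) (NG.chi_nonneg _ _)
  have hgz : ∀ ε : ℝ, ∀ i u, R' + 1 ≤ |u| → g ε i u = 0 := by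
    intro ε i u hu
    by_cases hi : i = i₀
    · simp only [g, if_pos hi, NG.f0, NG.chi_zero hu, mul_zero]
    · simp only [g, if_neg hi, NG.chi_zero hu, mul_zero]
  have hF0 : ∀ ε : ℝ, 0 < ε → ∀ y, 0 ≤ F ε y := fun ε hε y =>
    Finset.le_inf' _ _ fun i _ => hg0 ε hε i _
  have hFc : ∀ ε : ℝ, 0 < ε → Continuous (F ε) := by
    intro ε hε
    exact Continuous.finset_inf'_apply hne fun i _ => (hgc ε hε i).comp (by fun_prop)
  have hFs : ∀ ε : ℝ, 0 < ε → Function.support (F ε) ⊆ closedBall 0 (K * (R' + 1)) := by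
    intro ε hε y hy
    rw [Function.mem_support] at hy
    rw [mem_closedBall_zero_iff]
    apply hK y (R' + 1) (by linarith)
    intro i
    by_contra h
    apply hy
    apply le_antisymm _ (hF0 ε hε y)
    have h1 : F ε y ≤ g ε i ⟪v i, y⟫ := Finset.inf'_le _ (Finset.mem_univ i)
    rwa [hgz ε i _ (not_le.1 h).le] at h1
  refine hcore (K * (R' + 1)) F hFc hF0 ?_ ?_ hFs ?_
  · intro ε hε y
    have h1 : F ε y ≤ g ε i₀ ⟪v i₀, y⟫ := Finset.inf'_le _ (Finset.mem_univ i₀)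
    refine h1.trans ?_
    simp only [g, if_true, NG.f0, hvi]
    exact mul_le_of_le_one_right (inv_nonneg.2 (hden ε hε _).le) (NG.chi_le _ _)
  · intro ε hε y hy
    have hchi : ∀ i, NG.chi R' ⟪v i, y⟫ = 1 := by
      intro i
      apply NG.chi_one
      calc |⟪v i, y⟫| ≤ ‖v i‖ * ‖y‖ := abs_real_inner_le_norm _ _
        _ ≤ (∑ i, ‖v i‖) * |R| := by
          apply mul_le_mul _ (hy.trans (le_abs_self R)) (norm_nonneg _) (by positivity)
          exact Finset.single_le_sum (f := fun i => ‖v i‖) (fun i _ => norm_nonneg _)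
            (Finset.mem_univ i)
        _ = R' := by rw [hR', mul_comm]
    have h0 : g ε i₀ ⟪v i₀, y⟫ = (|⟪e, y⟫| ^ (1 / (n : ℝ)) + ε)⁻¹ := by
      have h1 := hchi i₀
      rw [hvi] at h1
      simp only [g, if_true, NG.f0, hvi, h1, mul_one]
    apply le_antisymm
    · rw [← h0]
      exact Finset.inf'_le _ (Finset.mem_univ i₀)
    · apply Finset.le_inf'
      intro i _
      by_cases hi : i = i₀
      · rw [hi, h0]
      · simp only [g, if_neg hi, hchi, mul_one]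
        apply inv_anti₀ hε
        have : 0 ≤ |⟪e, y⟫| ^ (1 / (n : ℝ)) := Real.rpow_nonneg (abs_nonneg _) _
        linarith
  · intro ε hε
    apply H (F ε) (hFc ε hε)
    · exact HasCompactSupport.of_support_subset_isCompact (isCompact_closedBall _ _) (hFs ε hε)
    · intro w hw
      refine ⟨v, fun i => {u | w < g ε i u}, hv,
        fun i => isOpen_lt continuous_const (hgc ε hε i), ?_⟩
      ext y
      simp only [mem_ofPred_eq]
      rw [abs_of_nonneg (hF0 ε hε y)]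
      simp only [F, Finset.lt_inf'_iff, Finset.mem_univ, true_imp_iff]

end Pool.Agent.PF
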