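import Pool.Agent.RadF.Asm
import Pool.Agent.Lib_helper71.MC.FinType
import Pool.Agent.Lib_helper71.MC.OneDim2
import Pool.Agent.Lib_helper71.MC.Neg4

/-!
# Maximal averages along nondegenerate curves: product functions (MP_0a3820_an), statements

`M f (x) = sup_{t>0} |∫ ψ(s) f(x - t γ(s)) ds|`, `γ` nondegenerate in `ℝⁿ`. THEOREM. For `p > n` there is `C` with
`‖M F‖_p ≤ C ‖F‖_p` for ALL product functions `F(x) = f_1(⟪e_1, x⟫) ⋯ f_n(⟪e_n, x⟫)`, ALL bases `e_1, …, e_n` of `ℝⁿ` (one constant), and this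
fails for `p ≤ n`; and superlevel sets which are unions of `m` product sets cost `m^θ`, `θ > n/p`.

PLAN. `h_i(s) = ⟪e_i, γ(s)⟫`, `|e_i| = 1`. Cut `[a, b]` into intervals `Q` on which all `|h_i'|` are constant up to a factor (`LV`: one family for each
`e`; intersect them). On one `Q`, `λ = |Q|`: Hoelder, `∫_Q ∏ g_i(y_i - t h_i(s)) ds ≤ ∏ (∫_Q g_i^n (y_i - t h_i(s)) ds)^(1/n)`, and each factor is at most `λ` times an
average of `g_i^n` over an interval of length `~ t L_i` at distance `~ t` from `y_i`, `L_i ~ |h_i'| λ` (`CV`). Such an average does not change much if `t` changes by the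
factor `1 ± L_i`, so only `N ~ 1 / min L_i` values of `t` in each `[2^l, 2^(l+1)]` count; for a fixed one of them the supremum over `l` is a product of
one-dimensional shifted lacunary maximal functions, whose norms are `O(L^(-η))` (`WK`, `SH`). So the `p`-th power of the norm on `Q` is at most
`λ^p (λ μ)^(-1-η)`, `μ = min |h_i'|` (`PC`), and `λ^(n-1) ≤ C μ` (`LN`) makes the sum over the `Q` converge for `p > n` (`SM`).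

`S_X` is the statement of module `X`, `M_X` the implication that the module proves (`theorem t_X : M_X`, or `t_X : S_X` if there is no
`M_X`), in the file `Pool/Agent/PF/X.lean`, namespace `Pool.Agent.PF`.
-/

set_option autoImplicit false

open MeasureTheory Set Filter Topology Metric
open scoped ENNReal RealInnerProductSpace ContDiff

namespace Pool.Agent.PF

open Pool.Agent.MC

/-- a smooth nondegenerate curve on `[a, b]` -/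
def Nd (n : ℕ) (γ : ℝ → En n) (a b : ℝ) : Prop :=
  a < b ∧ ContDiff ℝ ∞ γ ∧
    ∀ s ∈ Icc a b, LinearIndependent ℝ (fun k : Fin n => iteratedDeriv ((k : ℕ) + 1) γ s)

/-! ## 1. The shifted lacunary maximal function on the line -/

/-- the interval `x - 2^l [c - L, c + L]` -/
def Jt (c L : ℝ) (l : ℤ) (x : ℝ) : Set ℝ :=
  Icc (x - (2 : ℝ) ^ l * (c + L)) (x - (2 : ℝ) ^ l * (c - L))

/-- **WK**, weak type (1,1) with an absolute constant for a residue class of `l` modulo `H`. PROOF. If `∫ g = ∞` or `lam = ∞` (empty set) it is trivial. For `x` in the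
set choose `l(x) = k + j(x) H`; then `2^(l x) ≤ R := ∫ g / (lam L)`. `Vitali.exists_disjoint_subfamily_covering_enlargement` (Mathlib) for the sets `Jt c L (l x) x`,
`δ x = 2^(l x)`, `τ = 3/2`: a disjoint subfamily `u` such that each `x` has `b ∈ u` with `J(x) ∩ J(b) ≠ ∅` and `2^(l x) ≤ (3/2) 2^(l b)`, so `l x ≤ l b`
(congruent modulo `H ≥ 1`). If `l x = l b` then `|x - b| ≤ 2 · 2^(l b) L`. If `l x ≤ l b - H` then for `y ∈ J(x) ∩ J(b)` `|x - y| ≤ 2^(l x) (|c| + L) ≤ 2^(l b - H) 2 B ≤ 2^(l b) L`,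
so `|x - (b - 2^(l b) c)| ≤ 2 · 2^(l b) L`. The set is covered by the balls of radius `2 · 2^(l b) L` with centres `b` and `b - 2^(l b) c`, `b ∈ u` (`u` is countable: disjoint sets with
nonempty interior), the sum of their measures is `∑ 8 · 2^(l b) L ≤ (8/lam) ∑ ∫_(J b) g ≤ (8/lam) ∫ g`. (Compare `RadF/HL.lean`, `weak`.) -/
def S_WK : Prop :=
  ∀ (B c L : ℝ) (H : ℕ), |c| ≤ B → 0 < L → L ≤ B → 1 ≤ H → 2 * B ≤ 2 ^ H * L →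
    ∀ (k : ℤ) (g : ℝ → ℝ≥0∞), Measurable g → ∀ lam : ℝ≥0∞,
      volume {x : ℝ | ∃ j : ℤ, lam * ENNReal.ofReal ((2 : ℝ) ^ (k + j * H) * L) <
        ∫⁻ y in Jt c L (k + j * H) x, g y} * lam ≤ 8 * ∫⁻ y, g y

/-- **SH**. PROOF. `S x = ⨆ l, (∫ y in Jt c L l x, g y) / ofReal (2^l L)` (measurable: countable supremum, each term is
`∫⁻ y, indicator · g y`, `Measurable.lintegral_prod_right'`). `H` = the smallest `H ≥ 1` with `2 B ≤ 2^H L`: `H ≤ 1 + log_2 (2 B / L) ≤ C L^(-η)` for `L ≤ B`. For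
`j ∈ ℤ` split `g = g 1(g ≤ 2^j / 4) + g 1(g > 2^j / 4) =: g' + g''`; the average of `g'` (divided by `2^l L`, the interval has length `2 · 2^l L`) is at most `2^j / 2`, so
`{S > 2^j} ⊆ ⋃_(k < H) {∃ j', (2^j / 2) 2^(k + j' H) L < ∫_J g''}` and `|{S > 2^j}| ≤ H · 16 · 2^(-j) ∫ g''` (`S_WK` with `lam = 2^j / 2`; every `l` is `k + j' H`, `0 ≤ k < H`). For every
`y ∈ [0, ∞]`: `y^r ≤ ∑_j 2^((j+1) r) 1(y > 2^j)`, so `∫ S^r ≤ ∑_j 2^((j+1) r) 16 H 2^(-j) ∫ g 1(g > 2^j / 4) = 16 H ∫ g ∑_(2^j < 4 g) 2^((j+1) r - j) ≤ C H ∫ g · g^(r-1)`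
(geometric series, `r > 1`). (Where `g = ∞` on a set of positive measure the right side is `∞`; a null set may be ignored. See also `layer_pow` in `MC/Layer.lean`.) -/
def S_SH : Prop :=
  ∀ r η B : ℝ, 1 < r → 0 < η → 0 < B → ∃ C : ℝ≥0∞, C ≠ ⊤ ∧
    ∀ c L : ℝ, |c| ≤ B → 0 < L → L ≤ B → ∀ g : ℝ → ℝ≥0∞, Measurable g →
      ∃ S : ℝ → ℝ≥0∞, Measurable S ∧
        (∀ (l : ℤ) (x : ℝ), ∫⁻ y in Jt c L l x, g y ≤ ENNReal.ofReal ((2 : ℝ) ^ l * L) * S x) ∧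
        ∫⁻ x, S x ^ r ≤ C * ENNReal.ofReal (L ^ (-η)) * ∫⁻ y, g y ^ r

def M_SH : Prop := S_WK → S_SH

/-! ## 2. The curve -/

/-- **PM**, pieces of monotonicity. PROOF. Induction on `k`. `k = 0`: `deriv u` is continuous and has no zero on the order connected set `J`, so it has a
constant sign on `J` and `u` is monotone or antitone on `J` (`P 0 = J`; mean value theorem on the segments of `J`). `k + 1`: apply the
assertion for `k` to `deriv u` (`iteratedDeriv (k+1) (deriv u) = iteratedDeriv (k+2) u`): sets `P' i` on which `deriv u` is monotone or antitone; then `P' i ∩ {deriv u ≥ 0}` and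
`P' i ∩ {deriv u ≤ 0}` are order connected and `u` is monotone, antitone on them. -/
def S_PM : Prop :=
  ∀ (k : ℕ) (u : ℝ → ℝ), ContDiff ℝ ∞ u → ∀ J : Set ℝ, J.OrdConnected →
    (∀ s ∈ J, iteratedDeriv (k + 1) u s ≠ 0) →
    ∃ P : Fin (2 ^ k) → Set ℝ,
      (∀ i, (P i).OrdConnected ∧ (MonotoneOn u (P i) ∨ AntitoneOn u (P i))) ∧ J = ⋃ i, P i

/-- **LN**. PROOF. `MC.finite_type` gives `c`, `δ₀`; cover `[a, b]` by finitely many (a number independent of `e`) open intervals of length `< δ₀` (or use the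
midpoints). On one of them, for some `k < n`, `h^(k+1) ≥ c` or `≤ -c`, `h(s) = ⟪e, γ s⟫`. If `k = 0` the set is empty unless `δ ≥ c`, and then the bound is
trivial with `C = (b - a)^(n-1) / c`. If `k ≥ 1`: `MC.sublevel'` (or `unif_const`) for `deriv h` and `m = k - 1`: `v^k ≤ C δ / c`, and `v^(n-1) ≤ v^k (b - a)^(n-1-k)`.
Add up (`(∑_(i<N) v_i)^(n-1) ≤ N^(n-1) max v_i^(n-1)`). `deriv (fun s => ⟪e, γ s⟫) s = ⟪e, deriv γ s⟫` (`iteratedDeriv_inner`). -/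
def S_LN : Prop :=
  ∀ n : ℕ, 2 ≤ n → ∀ (γ : ℝ → En n) (a b : ℝ), Nd n γ a b → ∃ C : ℝ, 0 < C ∧
    ∀ e : En n, ‖e‖ = 1 → ∀ δ : ℝ, 0 ≤ δ →
      volume.real {s | s ∈ Icc a b ∧ |⟪e, deriv γ s⟫| ≤ δ} ^ (n - 1) ≤ C * δ

/-- **LV**, the levels of `|h'|`, `h(s) = ⟪e, γ s⟫`. PROOF. Let `M₀ ≥ 1` be a bound of `‖deriv γ‖` on `[a, b]`, `c`, `δ₀` from `MC.finite_type`. Cut `[a, b]` into `N₀` closed
intervals `I` of length `< δ₀`. If on `I` the `k` of `finite_type` is `0`: one piece, `Q κ 0 = I`, the other `Q κ j` empty. If `k ≥ 1`: `S_PM` for `u = deriv h`, exponent `k - 1`,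
`J = I`: `2^(k-1) ≤ 2^n` sets `P` on which `deriv h` is monotone or antitone; put `P⁺ = P ∩ {0 ≤ deriv h}`, `P⁻ = P ∩ {deriv h ≤ 0}` and
`Q (P⁺) j = P⁺ ∩ {M₀ / 2^(j+1) < |deriv h| ≤ M₀ / 2^j}` (order connected), the same for `P⁻`. With `c' = min c (M₀ / 2)`, `M = M₀`. What is not covered is
`{deriv h = 0}`, of measure `0` by `S_LN` with `δ = 0`. (`N = N₀ · 2^n · 3`, or any other way to index finitely many sets by a number independent of `e`; the `Q κ j`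
need not be disjoint.) -/
def S_LV : Prop :=
  ∀ n : ℕ, 2 ≤ n → ∀ (γ : ℝ → En n) (a b : ℝ), Nd n γ a b → ∃ (N : ℕ) (c M : ℝ), 0 < c ∧ c ≤ M ∧
    ∀ e : En n, ‖e‖ = 1 → ∃ Q : Fin N → ℕ → Set ℝ,
      (∀ κ j, (Q κ j).OrdConnected ∧ Q κ j ⊆ Icc a b ∧
        ∀ s ∈ Q κ j, c / 2 ^ j ≤ |⟪e, deriv γ s⟫| ∧ |⟪e, deriv γ s⟫| ≤ M / 2 ^ j) ∧
      volume (Icc a b \ ⋃ κ, ⋃ j, Q κ j) = 0

def M_LV : Prop := S_PM → S_LN → S_LV

/-! ## 3. One piece -/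

/-- **CV**. PROOF. `h` is injective on `Q` (Rolle: `deriv h ≠ 0` on the order connected set `Q`), so by
`lintegral_image_eq_lintegral_abs_deriv_mul` `∫_Q g(x - t h(s)) ds ≤ (1/m) ∫_Q |h'| g(x - t h(s)) ds = (1/m) ∫_(h(Q)) g(x - t u) du`. For `s ∈ Q`
`|h s - h s₀| ≤ K m |s - s₀| ≤ K m |Q|` (the segment is in `Q`; if `volume Q = 0` both sides: the left is `0`). So `h(Q) ⊆ [h s₀ - L, h s₀ + L]`, `L = K m |Q|`, and
`∫_([h s₀ - L, h s₀ + L]) g(x - t u) du = (1/t) ∫_(x - t [..]) g`. -/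
def S_CV : Prop :=
  ∀ (h : ℝ → ℝ) (Q : Set ℝ) (m K : ℝ), ContDiff ℝ ∞ h → Q.OrdConnected → volume Q ≠ ⊤ → 0 < m →
    (∀ s ∈ Q, m ≤ |deriv h s| ∧ |deriv h s| ≤ K * m) → ∀ s₀ ∈ Q,
    ∀ g : ℝ → ℝ≥0∞, Measurable g → ∀ x t : ℝ, 0 < t →
      ∫⁻ s in Q, g (x - t * h s) ≤ ENNReal.ofReal (1 / (m * t)) *
        ∫⁻ y in Icc (x - t * (h s₀ + K * m * volume.real Q)) (x - t * (h s₀ - K * m * volume.real Q)), g y

/-- **PC**. PROOF. `λ = volume.real Q`; if `volume Q = 0` (in particular if `Q` is empty) take `G = 0`. Fix `s₀ ∈ Q`, `c_i = h_i(s₀)`, `L_i = K m_i λ ≤ K B²`. Put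
`N = ⌈(B + K B²) / min_i L_i⌉`, `N ≤ C / (μ λ)`. For `t > 0` let `2^l ≤ t < 2^(l+1)`, `j = ⌊(t / 2^l - 1) N⌋ ∈ [0, N)`, `τ = 2^l (1 + j/N)`, `0 ≤ t - τ ≤ 2^l / N`. For
`|u - c_i| ≤ L_i`: `|(t - τ) u| ≤ 2^l (B + K B²) / N ≤ 2^l L_i` and `τ |u - c_i| ≤ 2^(l+1) L_i`, so `y - t u ∈ y - 2^l [c' - 3 L_i, c' + 3 L_i] = Jt c' (3 L_i) l y`, `c' = (1 + j/N) c_i`,
`|c'| ≤ 2 B`. So by `S_CV` and `S_SH` (for `g_i^n`, exponent `r = p/n > 1`, the constant `η / n`, the bound `2 B + 3 K B²`; `S_(i,j)`):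
`∫_Q g_i(y - t h_i(s))^n ds ≤ (1 / (m_i t)) ∫_J g_i^n ≤ (1 / (m_i 2^l)) 2^l 3 L_i S_(i,j)(y) = 3 K λ S_(i,j)(y)`. Hoelder (`ENNReal.lintegral_prod_norm_pow_le`, weights `1/n`, functions `g_i^n`):
`(∫_Q ∏ g_i(y_i - t h_i(s)) ds)^p ≤ (3 K λ)^p ∏ S_(i,j)(y_i)^(p/n) ≤ G(y) := (3 K λ)^p ∑_(j<N) ∏_i S_(i,j)(y_i)^(p/n)`. Tonelli for products (`lintegral` over `Fin n → ℝ`;
`lintegral_fin_nat_prod_eq_prod` or `volume_pi`, induction): `∫ G ≤ (3 K λ)^p N ∏ (C (3 L_i)^(-η/n) ∫ g_i^p)`, `3 L_i ≥ λ μ`. -/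
def S_PC : Prop :=
  ∀ n : ℕ, 1 ≤ n → ∀ p η B K : ℝ, (n : ℝ) < p → 0 < η → 0 < B → 1 ≤ K → ∃ C : ℝ≥0∞, C ≠ ⊤ ∧
    ∀ (h : Fin n → ℝ → ℝ) (Q : Set ℝ) (m : Fin n → ℝ) (μ : ℝ), (∀ i, ContDiff ℝ ∞ (h i)) →
      Q.OrdConnected → volume Q ≤ ENNReal.ofReal B → 0 < μ → (∀ i, μ ≤ m i ∧ m i ≤ B) →
      (∀ i, ∀ s ∈ Q, |h i s| ≤ B ∧ m i ≤ |deriv (h i) s| ∧ |deriv (h i) s| ≤ K * m i) →
      ∀ g : Fin n → ℝ → ℝ≥0∞, (∀ i, Measurable (g i)) →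
        ∃ G : (Fin n → ℝ) → ℝ≥0∞, Measurable G ∧
          (∀ (y : Fin n → ℝ) (t : ℝ), 0 < t →
            (∫⁻ s in Q, ∏ i, g i (y i - t * h i s)) ^ p ≤ G y) ∧
          ∫⁻ y, G y ≤ C * ENNReal.ofReal (volume.real Q ^ (p - 1 - η) * μ ^ (-(1 + η))) *
            ∏ i, ∫⁻ u, g i u ^ p

def M_PC : Prop := S_CV → S_SH → S_PC

/-! ## 4. All pieces -/

/-- **SM**. PROOF. `S_LV` (`N`, `c`, `M`) for each `e_i`: `Q_i`. For `κ : Fin n → Fin N`, `J : Fin n → ℕ` put `Q = ⋂ i, Q_i (κ i) (J i)`, `m_i = c / 2^(J i)`, `K = M / c`, `A = max J`,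
`μ = c / 2^A`; `S_PC` with `η ≤ 1` and `n (1 + η) < p`. `S_LN` (for an `i` with `J i = A`): `λ^(n-1) ≤ C 2^(-A)`, so `λ^(p-1-η) μ^(-(1+η)) ≤ C 2^(-σ A)`,
`σ = (p - 1 - η - (n-1)(1+η))/(n-1) > 0`. Almost every `s ∈ [a, b]` is in some `Q_(κ,J)`, so `∫_([a,b]) ∏ ≤ ∑_(κ,J) X_(κ,J)`, `X_(κ,J)^p ≤ G_(κ,J)(y)`. With the weights
`w_(κ,J) = 2^(-θ ∑ J i)`, `θ = σ / (2 n (p-1))`: `(∑ X)^p ≤ (∑ w)^(p-1) ∑ w^(1-p) X^p` (Hoelder, `ENNReal.inner_le_Lp_mul_Lq_tsum`), and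
`w^(1-p) ≤ 2^(θ (p-1) n A) = 2^(σ A / 2)`, so `∑ w^(1-p) ∫ G ≤ C ∑_J 2^(-σ A / 2) ∏ ∫ g_i^p`, `2^(-σ A/2) ≤ ∏ 2^(-σ (J i) / (2 n))`: finite. `G = W^(p-1) ∑ w^(1-p) G_(κ,J)`. -/
def S_SM : Prop :=
  ∀ n : ℕ, 2 ≤ n → ∀ (γ : ℝ → En n) (a b : ℝ), Nd n γ a b → ∀ p : ℝ, (n : ℝ) < p →
    ∃ C : ℝ≥0∞, C ≠ ⊤ ∧ ∀ e : Fin n → En n, (∀ i, ‖e i‖ = 1) →
      ∀ g : Fin n → ℝ → ℝ≥0∞, (∀ i, Measurable (g i)) →
        ∃ G : (Fin n → ℝ) → ℝ≥0∞, Measurable G ∧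
          (∀ (y : Fin n → ℝ) (t : ℝ), 0 < t →
            (∫⁻ s in Icc a b, ∏ i, g i (y i - t * ⟪e i, γ s⟫)) ^ p ≤ G y) ∧
          ∫⁻ y, G y ≤ C * ∏ i, ∫⁻ u, g i u ^ p

def M_SM : Prop := S_LN → S_LV → S_PC → S_SM

/-- **MJ**. PROOF. First `‖e i‖ = 1` for all `i`: `T x = (⟪e_i, x⟫)_i` is a linear bijection `En n → (Fin n → ℝ)`, so `volume.map T = κ • volume` with `0 < κ < ∞` (Haar measures,
`Measure.isAddHaarMeasure_eq_smul`), `G(x) = G'(T x)` with `G'` from `S_SM`: `∫ G = κ ∫ G' ≤ C κ ∏ ∫ g_i^p = C ∫ (∏ g_i ⟪e_i, x⟫)^p dx`; `⟪e_i, x - t γ s⟫ = ⟪e_i, x⟫ - t ⟪e_i, γ s⟫`. In general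
replace `e_i` by `e_i / ‖e_i‖` and `g_i(u)` by `g_i(‖e_i‖ u)`. -/
def S_MJ : Prop :=
  ∀ n : ℕ, 2 ≤ n → ∀ (γ : ℝ → En n) (a b : ℝ), Nd n γ a b → ∀ p : ℝ, (n : ℝ) < p →
    ∃ C : ℝ≥0∞, C ≠ ⊤ ∧ ∀ e : Fin n → En n, LinearIndependent ℝ e →
      ∀ g : Fin n → ℝ → ℝ≥0∞, (∀ i, Measurable (g i)) →
        ∃ G : En n → ℝ≥0∞, Measurable G ∧
          (∀ (x : En n) (t : ℝ), 0 < t →
            (∫⁻ s in Icc a b, ∏ i, g i ⟪e i, x - t • γ s⟫) ^ p ≤ G x) ∧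
          ∫⁻ x, G x ≤ C * ∫⁻ x, (∏ i, g i ⟪e i, x⟫) ^ p

def M_MJ : Prop := S_SM → S_MJ

/-! ## 5. The results -/

/-- **FP**. PROOF. `p = ∞`: `MC.main_top`. `p < ∞`: `S_MJ` with `g_i = ENNReal.ofReal |f_i|`; the passage from the majorant to the norm as in `RadF.norm_bound` (`enorm_Mx_le`, `|ψ| ≤ B` on
`[a, b]`, `ψ = 0` elsewhere). -/
def S_FP : Prop :=
  ∀ n : ℕ, 2 ≤ n → ∀ (γ : ℝ → En n) (a b : ℝ), Nd n γ a b →
    ∀ ψ : ℝ → ℝ, Continuous ψ → tsupport ψ ⊆ Ioo a b → ∀ p : ℝ≥0∞, (n : ℝ≥0∞) < p →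
      ∃ C : ℝ, ∀ e : Fin n → En n, LinearIndependent ℝ e →
        ∀ f : Fin n → ℝ → ℝ, (∀ i, Continuous (f i)) → (∀ i, HasCompactSupport (f i)) →
          eLpNorm (Mx γ ψ (fun x => ∏ i, f i ⟪e i, x⟫)) p volume ≤
            ENNReal.ofReal C * eLpNorm (fun x => ∏ i, f i ⟪e i, x⟫) p volume

def M_FP : Prop := S_MJ → S_FP

/-- a product set in some linear coordinates -/
def ProdSet (n : ℕ) (K : Set (En n)) : Prop :=
  ∃ (e : Fin n → En n) (A : Fin n → Set ℝ), LinearIndependent ℝ e ∧ (∀ i, IsOpen (A i)) ∧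
    K = {x | ∀ i, ⟪e i, x⟫ ∈ A i}

/-- **FL**. PROOF. `S_MJ` with `g_i` the indicator of `A_i`: `∏ g_i ⟪e_i, x⟫` is the indicator of `K`, its power is the same. -/
def S_FL : Prop :=
  ∀ n : ℕ, 2 ≤ n → ∀ (γ : ℝ → En n) (a b : ℝ), Nd n γ a b → ∀ p₀ : ℝ, (n : ℝ) < p₀ →
    ∃ Cm : ℝ≥0∞, Cm ≠ ⊤ ∧ RadF.MajFor (ProdSet n) γ a b p₀ Cm

def M_FL : Prop := S_MJ → S_FL

/-- **NG**. PROOF. As `MC.main_neg` (`MC/Neg4.lean`, copy and adapt): there the test functions are `tf e₀ R ε` (`MC/Neg3.lean`), `e₀` from `exists_transversal`. Take a basis `e` with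
`e 0 = e₀` (complete it, `Fin n` with `n ≥ 2`; e.g. the other `e i` orthonormal and orthogonal to `e₀`), and `F(y) = f_0 ⟪e₀, y⟫ ∏_(i ≥ 1) χ ⟪e i, y⟫`,
`χ(u) = max 0 (min 1 (R' + 1 - |u|))`, `f_0(u) = (|u|^(1/n) + ε)⁻¹ χ(u)`, `R' = (R + 1) max ‖e i‖`: `F ≥ tf e₀ R ε ≥ 0`, so the lower bound for `Mx` is the same, and
`‖F‖_p` is bounded as in `tf_norm`, `tf_norm_p` (support in a ball, `F ≤ (|⟪e₀, y⟫|^(1/n) + ε)⁻¹`, `slab_int`, `one_dim_int`). -/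
def S_NG : Prop :=
  ∀ n : ℕ, 2 ≤ n → ∀ (γ : ℝ → En n) (a b : ℝ), Nd n γ a b →
    ∀ ψ : ℝ → ℝ, Continuous ψ → tsupport ψ ⊆ Ioo a b → (∀ s, 0 ≤ ψ s) → (∃ s, ψ s ≠ 0) →
    ∀ p : ℝ≥0∞, 1 ≤ p → p ≤ n → ∀ C : ℝ≥0∞, C ≠ ⊤ →
      ¬ ∀ e : Fin n → En n, LinearIndependent ℝ e →
        ∀ f : Fin n → ℝ → ℝ, (∀ i, Continuous (f i)) → (∀ i, HasCompactSupport (f i)) →
          eLpNorm (Mx γ ψ (fun x => ∏ i, f i ⟪e i, x⟫)) p volume ≤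
            C * eLpNorm (fun x => ∏ i, f i ⟪e i, x⟫) p volume

end Pool.Agent.PF
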