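import Mathlib
import Pool.Agent.PF.St

/-!
# PC: one piece (Hoelder, discretisation of the dilation parameter, Tonelli for products)
-/

set_option autoImplicit false

open MeasureTheory Set Filter Topology Metric
open scoped ENNReal RealInnerProductSpace ContDiff

namespace Pool.Agent.PF

open Pool.Agent.MC

namespace PC

/-- Fubini's theorem for products of functions of one variable. -/
theorem lintegral_pi_prod {n : ℕ} (f : Fin n → ℝ → ℝ≥0∞) (hf : ∀ i, Measurable (f i)) :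
    ∫⁻ x : Fin n → ℝ, ∏ i, f i (x i) = ∏ i, ∫⁻ y, f i y := by
  induction n with
  | zero =>
    simp [volume_pi]
  | succ n ih =>
    have h1 : ∫⁻ x : Fin (n + 1) → ℝ, ∏ i, f i (x i) =
        ∫⁻ z : ℝ × (Fin n → ℝ), f 0 z.1 * ∏ i, f i.succ (z.2 i) ∂(volume.prod volume) := by
      rw [← (((volume_preserving_piFinSuccAbove (fun _ : Fin (n + 1) => ℝ) 0)).symm).lintegral_comp_emb
        (MeasurableEquiv.measurableEmbedding _)]
      refine lintegral_congr fun z => ?_
      rw [Fin.prod_univ_succ]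
      rfl
    have hg : AEMeasurable (fun y : Fin n → ℝ => ∏ i, f i.succ (y i)) volume :=
      (Finset.measurable_fun_prod _ fun i _ =>
        (hf i.succ).comp (measurable_pi_apply i)).aemeasurable
    have h2 := lintegral_prod_mul (μ := (volume : Measure ℝ))
      (ν := (volume : Measure (Fin n → ℝ))) (hf 0).aemeasurable hg
    rw [h1, h2, ih _ (fun i => hf i.succ), Fin.prod_univ_succ]

/-- the dyadic scale of `t` and a grid of `N` points in it -/
theorem grid (t : ℝ) (ht : 0 < t) (N : ℕ) (hN : 0 < N) :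
    ∃ (l : ℤ) (j : ℕ), j < N ∧ (2 : ℝ) ^ l ≤ t ∧ t ≤ 2 * (2 : ℝ) ^ l ∧
      0 ≤ t - (2 : ℝ) ^ l * (1 + j / N) ∧ (t - (2 : ℝ) ^ l * (1 + j / N)) * N ≤ (2 : ℝ) ^ l := by
  obtain ⟨l, hl1, hl2⟩ := exists_mem_Ico_zpow ht one_lt_two
  have h2l : (0 : ℝ) < (2 : ℝ) ^ l := by positivity
  have hN' : (0 : ℝ) < N := by exact_mod_cast hN
  have hl2' : t < 2 * (2 : ℝ) ^ l := by
    rw [zpow_add₀ (by norm_num : (2 : ℝ) ≠ 0), zpow_one] at hl2
    linarith
  obtain ⟨z, hz⟩ : ∃ z : ℝ, z = t / (2 : ℝ) ^ l - 1 := ⟨_, rfl⟩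
  have hz0 : 0 ≤ z := by
    rw [hz, sub_nonneg, one_le_div h2l]
    exact hl1
  have hz1 : z < 1 := by
    rw [hz, sub_lt_iff_lt_add, div_lt_iff₀ h2l]
    linarith
  have htz : t = (2 : ℝ) ^ l * (1 + z) := by
    rw [hz]
    field_simp
    ring
  refine ⟨l, ⌊z * N⌋₊, ?_, hl1, hl2'.le, ?_, ?_⟩
  · rw [Nat.floor_lt (by positivity)]
    nlinarith
  · have h1 : ((⌊z * N⌋₊ : ℕ) : ℝ) / N ≤ z := by
      rw [div_le_iff₀ hN']
      exact Nat.floor_le (by positivity)
    rw [htz, ← mul_sub]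
    apply mul_nonneg h2l.le
    linarith
  · have h1 : z * N < ((⌊z * N⌋₊ : ℕ) : ℝ) + 1 := Nat.lt_floor_add_one _
    have h2 : (t - (2 : ℝ) ^ l * (1 + (⌊z * N⌋₊ : ℕ) / N)) * N =
        (2 : ℝ) ^ l * (z * N - (⌊z * N⌋₊ : ℕ)) := by
      rw [htz]
      field_simp
      ring
    rw [h2]
    have h3 : z * N - ((⌊z * N⌋₊ : ℕ) : ℝ) ≤ 1 := by linarith
    nlinarith

/-- the interval of `CV` is contained in the one of `SH` -/
theorem incl (h0 L B t x : ℝ) (l : ℤ) (j N : ℕ) (hN : 0 < N) (ht1 : t ≤ 2 * (2 : ℝ) ^ l)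
    (h1 : 0 ≤ t - (2 : ℝ) ^ l * (1 + j / N)) (h2 : (t - (2 : ℝ) ^ l * (1 + j / N)) * N ≤ (2 : ℝ) ^ l)
    (hh0 : |h0| ≤ B) (hL : 0 ≤ L) (hB : B ≤ L * N) :
    Icc (x - t * (h0 + L)) (x - t * (h0 - L)) ⊆ Jt ((1 + j / N) * h0) (3 * L) l x := by
  have h2l : (0 : ℝ) < (2 : ℝ) ^ l := by positivity
  have hN' : (0 : ℝ) < N := by exact_mod_cast hN
  obtain ⟨w, hw⟩ : ∃ w : ℝ, w = t - (2 : ℝ) ^ l * (1 + j / N) := ⟨_, rfl⟩
  rw [← hw] at h1 h2
  have htw : t = (2 : ℝ) ^ l * (1 + j / N) + w := by rw [hw]; ring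
  have hwh : |w * h0| ≤ (2 : ℝ) ^ l * L := by
    rw [abs_mul, abs_of_nonneg h1]
    have h3 : w * |h0| ≤ w * (L * N) := mul_le_mul_of_nonneg_left (hh0.trans hB) h1
    have h4 : w * (L * N) = (w * N) * L := by ring
    have h5 : (w * N) * L ≤ (2 : ℝ) ^ l * L := mul_le_mul_of_nonneg_right h2 hL
    linarith
  have htL : t * L ≤ 2 * (2 : ℝ) ^ l * L := mul_le_mul_of_nonneg_right ht1 hL
  obtain ⟨ha, hb⟩ := abs_le.1 hwh
  have e1 : t * h0 = (2 : ℝ) ^ l * ((1 + j / N) * h0) + w * h0 := by rw [htw]; ring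
  unfold Jt
  apply Icc_subset_Icc
  · have e2 : (2 : ℝ) ^ l * ((1 + j / N) * h0 + 3 * L) =
        (2 : ℝ) ^ l * ((1 + j / N) * h0) + 3 * ((2 : ℝ) ^ l * L) := by ring
    have e3 : t * (h0 + L) = t * h0 + t * L := by ring
    rw [e2, e3, e1]
    linarith
  · have e2 : (2 : ℝ) ^ l * ((1 + j / N) * h0 - 3 * L) =
        (2 : ℝ) ^ l * ((1 + j / N) * h0) - 3 * ((2 : ℝ) ^ l * L) := by ring
    have e3 : t * (h0 - L) = t * h0 - t * L := by ring
    rw [e2, e3, e1]
    linarith

end PC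

theorem t_PC : M_PC := by
  intro hCV hSH n hn p η B K hp hη hB hK
  have hn' : (0 : ℝ) < n := by exact_mod_cast hn
  have hp0 : 0 < p := hn'.trans hp
  have hr : 1 < p / n := by rwa [one_lt_div hn']
  have hK0 : 0 < K := by linarith
  obtain ⟨C₀, hC₀, hS⟩ := hSH (p / n) (η / n) (2 * B + 3 * K * B ^ 2) hr (div_pos hη hn') (by positivity)
  refine ⟨C₀ ^ n * ENNReal.ofReal ((3 * K) ^ p * (B + B ^ 2)),
    ENNReal.mul_ne_top (ENNReal.pow_ne_top hC₀) ENNReal.ofReal_ne_top, ?_⟩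
  intro h Q m μ hh hQ hQB hμ hm hhQ g hg
  have hQtop : volume Q ≠ ⊤ := ne_top_of_le_ne_top ENNReal.ofReal_ne_top hQB
  rcases eq_or_ne (volume Q) 0 with hQ0 | hQ0
  · refine ⟨fun _ => 0, measurable_const, fun y t _ => ?_, by simp⟩
    rw [Measure.restrict_eq_zero.2 hQ0, lintegral_zero_measure, ENNReal.zero_rpow_of_pos hp0]
  obtain ⟨lam, hlam⟩ : ∃ lam : ℝ, lam = volume.real Q := ⟨_, rfl⟩
  have hlam0 : 0 < lam := by
    rw [hlam]
    exact ENNReal.toReal_pos hQ0 hQtop
  have hlamB : lam ≤ B := by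
    rw [hlam]
    exact ENNReal.toReal_le_of_le_ofReal hB.le hQB
  obtain ⟨s₀, hs₀⟩ : Q.Nonempty := by
    rw [nonempty_iff_ne_empty]
    rintro rfl
    exact hQ0 measure_empty
  have hm0 : ∀ i, 0 < m i := fun i => hμ.trans_le (hm i).1
  have hμB : μ ≤ B := (hm ⟨0, hn⟩).1.trans (hm ⟨0, hn⟩).2
  -- the number of grid points
  obtain ⟨N, hN⟩ : ∃ N : ℕ, N = ⌈B / (K * μ * lam)⌉₊ := ⟨_, rfl⟩
  have hden : 0 < K * μ * lam := by positivity
  have hN0 : 0 < N := by
    rw [hN]
    exact Nat.ceil_pos.2 (div_pos hB hden)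
  have hN1 : B ≤ K * μ * lam * N := by
    have h1 : B / (K * μ * lam) ≤ N := by
      rw [hN]
      exact Nat.le_ceil _
    rw [div_le_iff₀ hden] at h1
    linarith
  have hN2 : (N : ℝ) ≤ (B + B ^ 2) / (μ * lam) := by
    have h1 : (N : ℝ) < B / (K * μ * lam) + 1 := by
      rw [hN]
      exact Nat.ceil_lt_add_one (by positivity)
    have h2 : B / (K * μ * lam) ≤ B / (μ * lam) := by
      apply div_le_div_of_nonneg_left hB.le (by positivity)
      have : 1 * (μ * lam) ≤ K * (μ * lam) := mul_le_mul_of_nonneg_right hK (by positivity)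
      linarith
    have h3 : 1 ≤ B ^ 2 / (μ * lam) := by
      rw [one_le_div (by positivity), sq]
      exact mul_le_mul hμB hlamB hlam0.le hB.le
    rw [add_div]
    linarith
  have hLN : ∀ i, B ≤ K * m i * lam * N := by
    intro i
    refine hN1.trans ?_
    have : K * μ * lam ≤ K * m i * lam := by
      apply mul_le_mul_of_nonneg_right _ hlam0.le
      exact mul_le_mul_of_nonneg_left (hm i).1 hK0.le
    exact mul_le_mul_of_nonneg_right this (Nat.cast_nonneg N)
  have hL0 : ∀ i, 0 < K * m i * lam := fun i => mul_pos (mul_pos hK0 (hm0 i)) hlam0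
  -- the majorants
  have hS' : ∀ (j : Fin N) (i : Fin n), ∃ S : ℝ → ℝ≥0∞, Measurable S ∧
      (∀ (l : ℤ) (x : ℝ), ∫⁻ y in Jt ((1 + (j : ℕ) / N) * h i s₀) (3 * (K * m i * lam)) l x, g i y ^ n ≤
        ENNReal.ofReal ((2 : ℝ) ^ l * (3 * (K * m i * lam))) * S x) ∧
      ∫⁻ x, S x ^ (p / n) ≤ C₀ * ENNReal.ofReal ((3 * (K * m i * lam)) ^ (-(η / n))) *
        ∫⁻ y, g i y ^ p := by
    intro j i
    have hjN : ((j : ℕ) : ℝ) / N ≤ 1 := by
      rw [div_le_one (by exact_mod_cast hN0)]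
      exact_mod_cast j.2.le
    have hj0 : 0 ≤ ((j : ℕ) : ℝ) / N := by positivity
    have hc : |(1 + ((j : ℕ) : ℝ) / N) * h i s₀| ≤ 2 * B + 3 * K * B ^ 2 := by
      rw [abs_mul, abs_of_nonneg (by linarith)]
      have h1 := (hhQ i s₀ hs₀).1
      have h2 : (1 + ((j : ℕ) : ℝ) / N) * |h i s₀| ≤ 2 * B :=
        mul_le_mul (by linarith) h1 (abs_nonneg _) (by norm_num)
      have h3 : 0 ≤ 3 * K * B ^ 2 := by positivity
      linarith
    have hL : 3 * (K * m i * lam) ≤ 2 * B + 3 * K * B ^ 2 := by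
      have h1 : m i * lam ≤ B * B := mul_le_mul (hm i).2 hlamB hlam0.le hB.le
      have h2 : K * (m i * lam) ≤ K * (B * B) := mul_le_mul_of_nonneg_left h1 hK0.le
      nlinarith
    obtain ⟨S, hS1, hS2, hS3⟩ := hS _ _ hc (mul_pos three_pos (hL0 i)) hL (fun y => g i y ^ n)
      ((hg i).pow_const n)
    refine ⟨S, hS1, hS2, hS3.trans_eq ?_⟩
    congr 1
    refine lintegral_congr fun y => ?_
    rw [← ENNReal.rpow_natCast, ← ENNReal.rpow_mul, mul_div_cancel₀ _ hn'.ne']
  choose S hS1 hS2 hS3 using hS'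
  refine ⟨fun y => ENNReal.ofReal (3 * K * lam) ^ p * ∑ j : Fin N, ∏ i, S j i (y i) ^ (p / n),
    ?_, ?_, ?_⟩
  · refine Measurable.const_mul ?_ _
    refine Finset.measurable_fun_sum _ fun j _ => ?_
    refine Finset.measurable_fun_prod _ fun i _ => ?_
    exact ((hS1 j i).comp (measurable_pi_apply i)).pow_const _
  · intro y t ht
    obtain ⟨l, j, hj, hl1, hl2, hg1, hg2⟩ := PC.grid t ht N hN0
    -- one factor
    have hone : ∀ i, ∫⁻ s in Q, g i (y i - t * h i s) ^ n ≤
        ENNReal.ofReal (3 * K * lam) * S ⟨j, hj⟩ i (y i) := by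
      intro i
      have h1 := hCV (h i) Q (m i) K (hh i) hQ hQtop (hm0 i) (fun s hs => (hhQ i s hs).2) s₀ hs₀
        (fun u => g i u ^ n) ((hg i).pow_const n) (y i) t ht
      refine h1.trans ?_
      rw [← hlam]
      have h2 : ∫⁻ u in Icc (y i - t * (h i s₀ + K * m i * lam)) (y i - t * (h i s₀ - K * m i * lam)),
          g i u ^ n ≤ ENNReal.ofReal ((2 : ℝ) ^ l * (3 * (K * m i * lam))) * S ⟨j, hj⟩ i (y i) := by
        refine (lintegral_mono_set ?_).trans (hS2 ⟨j, hj⟩ i l (y i))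
        exact PC.incl (h i s₀) (K * m i * lam) B t (y i) l j N hN0 hl2 hg1 hg2 (hhQ i s₀ hs₀).1
          (hL0 i).le (hLN i)
      refine (mul_le_mul_right h2 _).trans ?_
      rw [← mul_assoc, ← ENNReal.ofReal_mul (by have := hm0 i; positivity)]
      refine mul_le_mul_left (ENNReal.ofReal_le_ofReal ?_) _
      have hmi := hm0 i
      rw [one_div, inv_mul_le_iff₀ (by positivity)]
      have h3 : (2 : ℝ) ^ l * (3 * (K * m i * lam)) ≤ t * (3 * (K * m i * lam)) :=
        mul_le_mul_of_nonneg_right hl1 (by positivity)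
      nlinarith
    -- Hoelder
    have hHo : ∫⁻ s in Q, ∏ i, g i (y i - t * h i s) ≤
        ∏ i, (∫⁻ s in Q, g i (y i - t * h i s) ^ n) ^ (1 / (n : ℝ)) := by
      have h1 := ENNReal.lintegral_prod_norm_pow_le (μ := volume.restrict Q) (Finset.univ : Finset (Fin n))
        (f := fun i s => g i (y i - t * h i s) ^ n) (p := fun _ => 1 / (n : ℝ))
        (fun i _ => (((hg i).comp (measurable_const.sub
          (measurable_const.mul (hh i).continuous.measurable))).pow_const n).aemeasurable)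
        (by simp [hn'.ne']) (fun _ _ => by positivity)
      refine le_trans (le_of_eq ?_) h1
      refine lintegral_congr fun s => Finset.prod_congr rfl fun i _ => ?_
      rw [← ENNReal.rpow_natCast, ← ENNReal.rpow_mul, mul_one_div_cancel hn'.ne', ENNReal.rpow_one]
    calc (∫⁻ s in Q, ∏ i, g i (y i - t * h i s)) ^ p
        ≤ (∏ i, (ENNReal.ofReal (3 * K * lam) * S ⟨j, hj⟩ i (y i)) ^ (1 / (n : ℝ))) ^ p := by
          refine ENNReal.rpow_le_rpow (hHo.trans ?_) hp0.le
          exact Finset.prod_le_prod' fun i _ => ENNReal.rpow_le_rpow (hone i) (by positivity)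
      _ = ENNReal.ofReal (3 * K * lam) ^ p * ∏ i, S ⟨j, hj⟩ i (y i) ^ (p / n) := by
          rw [← ENNReal.prod_rpow_of_nonneg hp0.le]
          have h1 : ∀ i : Fin n, ((ENNReal.ofReal (3 * K * lam) * S ⟨j, hj⟩ i (y i)) ^ (1 / (n : ℝ))) ^ p =
              ENNReal.ofReal (3 * K * lam) ^ (p / n) * S ⟨j, hj⟩ i (y i) ^ (p / n) := by
            intro i
            rw [← ENNReal.rpow_mul, ENNReal.mul_rpow_of_nonneg _ _ (by positivity)]
            congr 2 <;> ring
          rw [Finset.prod_congr rfl fun i _ => h1 i, Finset.prod_mul_distrib, Finset.prod_const,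
            Finset.card_univ, Fintype.card_fin, ← ENNReal.rpow_natCast, ← ENNReal.rpow_mul,
            div_mul_cancel₀ _ hn'.ne']
      _ ≤ ENNReal.ofReal (3 * K * lam) ^ p * ∑ j : Fin N, ∏ i, S j i (y i) ^ (p / n) := by
          refine mul_le_mul_right ?_ _
          exact Finset.single_le_sum (f := fun j : Fin N => ∏ i, S j i (y i) ^ (p / n))
            (fun _ _ => zero_le) (Finset.mem_univ (⟨j, hj⟩ : Fin N))
  · have hmeas : ∀ j : Fin N, Measurable fun y : Fin n → ℝ => ∏ i, S j i (y i) ^ (p / n) := fun j =>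
      Finset.measurable_fun_prod _ fun i _ => ((hS1 j i).comp (measurable_pi_apply i)).pow_const _
    rw [lintegral_const_mul _ (Finset.measurable_fun_sum _ fun j _ => hmeas j),
      lintegral_finsetSum _ fun j _ => hmeas j]
    obtain ⟨P, hP⟩ : ∃ P : ℝ≥0∞, P = ∏ i, ∫⁻ u, g i u ^ p := ⟨_, rfl⟩
    rw [← hP, ← hlam]
    have hj : ∀ j : Fin N, ∫⁻ y : Fin n → ℝ, ∏ i, S j i (y i) ^ (p / n) ≤
        C₀ ^ n * ENNReal.ofReal ((lam * μ) ^ (-η)) * P := by
      intro j
      rw [PC.lintegral_pi_prod (fun i x => S j i x ^ (p / n)) fun i => (hS1 j i).pow_const _]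
      refine (Finset.prod_le_prod' fun i _ => hS3 j i).trans ?_
      rw [Finset.prod_mul_distrib, Finset.prod_mul_distrib, Finset.prod_const, Finset.card_univ,
        Fintype.card_fin, ← hP]
      refine mul_le_mul_left (mul_le_mul_right ?_ _) _
      have h1 : ∀ i : Fin n, ENNReal.ofReal ((3 * (K * m i * lam)) ^ (-(η / n))) ≤
          ENNReal.ofReal ((lam * μ) ^ (-(η / n))) := by
        intro i
        refine ENNReal.ofReal_le_ofReal ?_
        refine Real.rpow_le_rpow_of_nonpos (by positivity) ?_ (by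
          rw [neg_nonpos]; positivity)
        have h2 : lam * μ ≤ lam * m i := mul_le_mul_of_nonneg_left (hm i).1 hlam0.le
        have h3 : 1 * (lam * m i) ≤ (3 * K) * (lam * m i) :=
          mul_le_mul_of_nonneg_right (by linarith) (by have := hm0 i; positivity)
        nlinarith
      refine (Finset.prod_le_prod' fun i _ => h1 i).trans (le_of_eq ?_)
      rw [Finset.prod_const, Finset.card_univ, Fintype.card_fin, ← ENNReal.ofReal_pow (by positivity),
        ← Real.rpow_natCast, ← Real.rpow_mul (by positivity)]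
      congr 2
      field_simp
    calc ENNReal.ofReal (3 * K * lam) ^ p * ∑ j : Fin N, ∫⁻ y : Fin n → ℝ, ∏ i, S j i (y i) ^ (p / n)
        ≤ ENNReal.ofReal (3 * K * lam) ^ p * (N * (C₀ ^ n * ENNReal.ofReal ((lam * μ) ^ (-η)) * P)) := by
          refine mul_le_mul_right ?_ _
          refine (Finset.sum_le_sum fun j _ => hj j).trans (le_of_eq ?_)
          rw [Finset.sum_const, Finset.card_univ, Fintype.card_fin, nsmul_eq_mul]
      _ = C₀ ^ n * ENNReal.ofReal ((3 * K * lam) ^ p * N * (lam * μ) ^ (-η)) * P := by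
          have e1 : ENNReal.ofReal ((3 * K * lam) ^ p * N * (lam * μ) ^ (-η)) =
              ENNReal.ofReal (3 * K * lam) ^ p * N * ENNReal.ofReal ((lam * μ) ^ (-η)) := by
            rw [ENNReal.ofReal_mul (by positivity), ENNReal.ofReal_mul (by positivity),
              ← ENNReal.ofReal_rpow_of_nonneg (by positivity) hp0.le, ENNReal.ofReal_natCast]
          rw [e1]
          ring
      _ ≤ C₀ ^ n * ENNReal.ofReal ((3 * K) ^ p * (B + B ^ 2) *
            (lam ^ (p - 1 - η) * μ ^ (-(1 + η)))) * P := by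
          refine mul_le_mul_left (mul_le_mul_right (ENNReal.ofReal_le_ofReal ?_) _) _
          have h1 : (3 * K * lam) ^ p * N * (lam * μ) ^ (-η) ≤
              (3 * K * lam) ^ p * ((B + B ^ 2) / (μ * lam)) * (lam * μ) ^ (-η) := by
            refine mul_le_mul_of_nonneg_right ?_ (by positivity)
            exact mul_le_mul_of_nonneg_left hN2 (by positivity)
          refine h1.trans (le_of_eq ?_)
          rw [Real.mul_rpow (by positivity) hlam0.le, Real.mul_rpow hlam0.le hμ.le,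
            show p - 1 - η = p + (-1) + (-η) by ring, Real.rpow_add hlam0, Real.rpow_add hlam0,
            show -(1 + η) = -1 + (-η) by ring, Real.rpow_add hμ, Real.rpow_neg_one, Real.rpow_neg_one]
          field_simp
      _ = C₀ ^ n * ENNReal.ofReal ((3 * K) ^ p * (B + B ^ 2)) *
            ENNReal.ofReal (lam ^ (p - 1 - η) * μ ^ (-(1 + η))) * P := by
          rw [ENNReal.ofReal_mul (by positivity)]
          ring

end Pool.Agent.PF
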