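import Pool.Agent.PF.St

/-!
# PF, module PM: pieces of monotonicity
-/

set_option autoImplicit false

open MeasureTheory Set Filter Topology Metric
open scoped ENNReal RealInnerProductSpace ContDiff

namespace Pool.Agent.PF

open Pool.Agent.MC

namespace LPM

theorem mono_of_nonneg (u : ℝ → ℝ) (hu : ContDiff ℝ ∞ u) (P : Set ℝ) (hP : P.OrdConnected)
    (h : ∀ s ∈ P, 0 ≤ deriv u s) : MonotoneOn u P := by
  have h1 : Differentiable ℝ u := (contDiff_infty_iff_deriv.1 hu).1
  exact monotoneOn_of_deriv_nonneg hP.convex h1.continuous.continuousOn h1.differentiableOn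
    (fun x hx => h x (interior_subset hx))

theorem anti_of_nonpos (u : ℝ → ℝ) (hu : ContDiff ℝ ∞ u) (P : Set ℝ) (hP : P.OrdConnected)
    (h : ∀ s ∈ P, deriv u s ≤ 0) : AntitoneOn u P := by
  have h1 : Differentiable ℝ u := (contDiff_infty_iff_deriv.1 hu).1
  exact antitoneOn_of_deriv_nonpos hP.convex h1.continuous.continuousOn h1.differentiableOn
    (fun x hx => h x (interior_subset hx))

theorem oc_nonneg (v : ℝ → ℝ) (P : Set ℝ) (hP : P.OrdConnected)
    (h : MonotoneOn v P ∨ AntitoneOn v P) : (P ∩ {s | 0 ≤ v s}).OrdConnected := by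
  refine ⟨fun x hx y hy z hz => ?_⟩
  have hzP : z ∈ P := hP.out hx.1 hy.1 hz
  refine ⟨hzP, ?_⟩
  rcases h with h | h
  · exact le_trans hx.2 (h hx.1 hzP hz.1)
  · exact le_trans hy.2 (h hzP hy.1 hz.2)

theorem oc_nonpos (v : ℝ → ℝ) (P : Set ℝ) (hP : P.OrdConnected)
    (h : MonotoneOn v P ∨ AntitoneOn v P) : (P ∩ {s | v s ≤ 0}).OrdConnected := by
  refine ⟨fun x hx y hy z hz => ?_⟩
  have hzP : z ∈ P := hP.out hx.1 hy.1 hz
  refine ⟨hzP, ?_⟩
  rcases h with h | h
  · exact le_trans (h hzP hy.1 hz.2) hy.2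
  · exact le_trans (h hx.1 hzP hz.1) hx.2

end LPM

open LPM in
theorem t_PM : S_PM := by
  intro k
  induction k with
  | zero =>
    intro u hu J hJ hne
    refine ⟨fun _ => J, fun _ => ⟨hJ, ?_⟩, ?_⟩
    · have hc : Continuous (deriv u) := (contDiff_infty_iff_deriv.1 hu).2.continuous
      have hne' : ∀ s ∈ J, deriv u s ≠ 0 := by
        intro s hs h0
        apply hne s hs
        rw [zero_add, iteratedDeriv_one]
        exact h0
      by_cases hpos : ∀ s ∈ J, 0 ≤ deriv u s
      · exact Or.inl (mono_of_nonneg u hu J hJ hpos)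
      · right
        push Not at hpos
        obtain ⟨s₀, hs₀, hneg⟩ := hpos
        refine anti_of_nonpos u hu J hJ fun s hs => ?_
        by_contra hcon
        push Not at hcon
        obtain ⟨z, hz, hz0⟩ := hJ.isPreconnected.intermediate_value hs₀ hs hc.continuousOn
          ⟨hneg.le, hcon.le⟩
        exact hne' z hz hz0
    · ext x
      simp
  | succ k ih =>
    intro u hu J hJ hne
    have hd : ContDiff ℝ ∞ (deriv u) := (contDiff_infty_iff_deriv.1 hu).2
    obtain ⟨P', hP', hJP⟩ := ih (deriv u) hd J hJ (by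
      intro s hs
      have h1 := hne s hs
      rwa [iteratedDeriv_succ'] at h1)
    let e : Fin (2 ^ (k + 1)) ≃ Fin (2 ^ k) × Fin 2 := (finCongr (pow_succ 2 k)).trans finProdFinEquiv.symm
    refine ⟨fun i => P' (e i).1 ∩ (if (e i).2 = 0 then {s | 0 ≤ deriv u s} else {s | deriv u s ≤ 0}),
      fun i => ?_, ?_⟩
    · obtain ⟨h1, h2⟩ := hP' (e i).1
      by_cases h0 : (e i).2 = 0
      · simp only [if_pos h0]
        have h3 := oc_nonneg (deriv u) _ h1 h2
        exact ⟨h3, Or.inl (mono_of_nonneg u hu _ h3 fun s hs => hs.2)⟩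
      · simp only [if_neg h0]
        have h3 := oc_nonpos (deriv u) _ h1 h2
        exact ⟨h3, Or.inr (anti_of_nonpos u hu _ h3 fun s hs => hs.2)⟩
    · ext s
      rw [hJP]
      simp only [mem_iUnion, mem_inter_iff]
      constructor
      · rintro ⟨i, hi⟩
        rcases le_total 0 (deriv u s) with h | h
        · refine ⟨e.symm (i, 0), ?_⟩
          rw [Equiv.apply_symm_apply]
          exact ⟨hi, by rw [if_pos rfl]; exact h⟩
        · refine ⟨e.symm (i, 1), ?_⟩
          rw [Equiv.apply_symm_apply]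
          exact ⟨hi, by rw [if_neg (show (1 : Fin 2) ≠ 0 by decide)]; exact h⟩
      · rintro ⟨i, hi, _⟩
        exact ⟨_, hi⟩

end Pool.Agent.PF
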