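import Pool.Agent.PF.St

/-!
# Project PF: module SH (strong type from weak type)
-/

set_option autoImplicit false

open MeasureTheory Set Filter Topology Metric
open scoped ENNReal RealInnerProductSpace ContDiff

namespace Pool.Agent.PF

open Pool.Agent.MC

namespace SH

/-- Dyadic layers dominate a power. -/
theorem layer_lower (r : ℝ) (hr : 0 < r) (y : ℝ≥0∞) :
    y ^ r ≤ ∑' j : ℤ, (if ENNReal.ofReal ((2 : ℝ) ^ j) < y then
      ENNReal.ofReal (((2 : ℝ) ^ (j + 1)) ^ r) else 0) := by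
  rcases eq_or_ne y 0 with h0 | h0
  · rw [h0, ENNReal.zero_rpow_of_pos hr]
    exact zero_le
  rcases eq_or_ne y ⊤ with ht | ht
  · have h1 : ∀ N : ℕ, (N : ℝ≥0∞) ≤ ∑' j : ℤ, (if ENNReal.ofReal ((2 : ℝ) ^ j) < y then
        ENNReal.ofReal (((2 : ℝ) ^ (j + 1)) ^ r) else 0) := by
      intro N
      have h2 : ∑ j ∈ (Finset.range N).map Nat.castEmbedding,
          (fun j : ℤ => if ENNReal.ofReal ((2 : ℝ) ^ j) < y then
            ENNReal.ofReal (((2 : ℝ) ^ (j + 1)) ^ r) else 0) j ≤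
          ∑' j : ℤ, (if ENNReal.ofReal ((2 : ℝ) ^ j) < y then
            ENNReal.ofReal (((2 : ℝ) ^ (j + 1)) ^ r) else 0) := ENNReal.sum_le_tsum _
      refine le_trans ?_ h2
      rw [Finset.sum_map]
      calc (N : ℝ≥0∞) = ∑ j ∈ Finset.range N, (1 : ℝ≥0∞) := by simp
        _ ≤ _ := by
          apply Finset.sum_le_sum
          intro j _
          simp only [Nat.castEmbedding_apply]
          rw [if_pos (by rw [ht]; exact ENNReal.ofReal_lt_top)]
          rw [ENNReal.one_le_ofReal]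
          apply Real.one_le_rpow _ hr.le
          exact one_le_zpow₀ (by norm_num) (by positivity)
    have h3 : (∑' j : ℤ, (if ENNReal.ofReal ((2 : ℝ) ^ j) < y then
        ENNReal.ofReal (((2 : ℝ) ^ (j + 1)) ^ r) else 0)) = ⊤ := by
      by_contra hcon
      obtain ⟨n, hn⟩ := ENNReal.exists_nat_gt hcon
      exact absurd (h1 n) (not_le.2 hn)
    rw [h3]
    exact le_top
  · have hv : 0 < y.toReal := ENNReal.toReal_pos h0 ht
    obtain ⟨l0, hl1, hl2⟩ := exists_mem_Ioc_zpow hv (by norm_num : (1 : ℝ) < 2)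
    have hy : y = ENNReal.ofReal y.toReal := (ENNReal.ofReal_toReal ht).symm
    have h4 : ENNReal.ofReal ((2 : ℝ) ^ l0) < y := by
      rw [hy]
      exact (ENNReal.ofReal_lt_ofReal_iff hv).2 hl1
    have h5 := ENNReal.le_tsum (f := fun j : ℤ => (if ENNReal.ofReal ((2 : ℝ) ^ j) < y then
      ENNReal.ofReal (((2 : ℝ) ^ (j + 1)) ^ r) else 0)) l0
    refine le_trans ?_ h5
    simp only [if_pos h4]
    have h6 : y ^ r = ENNReal.ofReal (y.toReal ^ r) := by
      rw [← ENNReal.ofReal_rpow_of_pos hv, ENNReal.ofReal_toReal ht]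
    rw [h6]
    apply ENNReal.ofReal_le_ofReal
    exact Real.rpow_le_rpow ENNReal.toReal_nonneg hl2 hr.le

theorem layer_real (q : ℝ) (hq : 0 < q) : ∃ K : ℝ≥0∞, K ≠ ⊤ ∧ ∀ v : ℝ, 0 ≤ v →
    ∑' l : ℤ, (if (2 : ℝ) ^ l < v then ENNReal.ofReal (((2 : ℝ) ^ l) ^ q) else 0) ≤
      K * ENNReal.ofReal (v ^ q) := by
  set θ : ℝ := (2 : ℝ) ^ (-q) with hθ
  have hθ0 : 0 < θ := by positivity
  have hθ1 : θ < 1 := Real.rpow_lt_one_of_one_lt_of_neg (by norm_num) (by linarith)
  refine ⟨∑' m : ℤ, ENNReal.ofReal (θ ^ m.natAbs), tsum_geom hθ0 hθ1, fun v hv => ?_⟩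
  rcases hv.eq_or_lt with h0 | hpos
  · have : ∀ l : ℤ, ¬ (2 : ℝ) ^ l < v := by
      intro l
      rw [← h0, not_lt]; positivity
    simp [this]
  obtain ⟨l0, hl1, hl2⟩ := exists_mem_Ioc_zpow hpos (by norm_num : (1 : ℝ) < 2)
  rw [← (Equiv.addLeft l0).tsum_eq, ← ENNReal.tsum_mul_right]
  apply ENNReal.tsum_le_tsum
  intro m
  simp only [Equiv.coe_addLeft]
  rcases le_or_gt m 0 with hm | hm
  · rw [← ENNReal.ofReal_mul (by positivity)]
    split_ifs
    · apply ENNReal.ofReal_le_ofReal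
      have h2 : ((2 : ℝ) ^ m) ^ q = θ ^ m.natAbs := by
        obtain ⟨k, rfl⟩ : ∃ k : ℕ, m = -(k : ℤ) := ⟨m.natAbs, by omega⟩
        rw [Int.natAbs_neg, Int.natAbs_natCast, hθ, ← Real.rpow_natCast, ← Real.rpow_mul (by norm_num),
          ← Real.rpow_intCast, ← Real.rpow_mul (by norm_num)]
        congr 1
        push_cast
        ring
      rw [zpow_add₀ (by norm_num), Real.mul_rpow (by positivity) (by positivity), h2, mul_comm]
      gcongr
    · exact zero_le
  · rw [if_neg]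
    · exact zero_le
    · rw [not_lt]
      refine hl2.trans ?_
      exact zpow_le_zpow_right₀ (by norm_num) (by omega)

theorem layer_upper (r : ℝ) (hr : 1 < r) : ∃ K : ℝ≥0∞, K ≠ ⊤ ∧ ∀ w : ℝ≥0∞,
    ∑' j : ℤ, ENNReal.ofReal (((2 : ℝ) ^ (j + 1)) ^ r * ((2 : ℝ) ^ j)⁻¹) *
      (if ENNReal.ofReal ((2 : ℝ) ^ j) < 4 * w then w else 0) ≤ K * w ^ r := by
  obtain ⟨K0, hK0, hK⟩ := layer_real (r - 1) (by linarith)
  refine ⟨ENNReal.ofReal (2 ^ r * 4 ^ (r - 1)) * K0 + 1, ?_, fun w => ?_⟩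
  · exact ENNReal.add_ne_top.2 ⟨ENNReal.mul_ne_top ENNReal.ofReal_ne_top hK0, ENNReal.one_ne_top⟩
  rcases eq_or_ne w ⊤ with ht | ht
  · have hne : ENNReal.ofReal (2 ^ r * 4 ^ (r - 1)) * K0 + 1 ≠ 0 := by simp
    have hr1 : 0 < r := by linarith
    rw [ht, ENNReal.top_rpow_of_pos hr1, ENNReal.mul_top hne]
    exact le_top
  have hr0 : 0 ≤ r := by linarith
  set v := w.toReal with hv
  have hv0 : 0 ≤ v := ENNReal.toReal_nonneg
  have hw : w = ENNReal.ofReal v := (ENNReal.ofReal_toReal ht).symm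
  have h1 : ∀ j : ℤ, ENNReal.ofReal (((2 : ℝ) ^ (j + 1)) ^ r * ((2 : ℝ) ^ j)⁻¹) *
      (if ENNReal.ofReal ((2 : ℝ) ^ j) < 4 * w then w else 0) =
      ENNReal.ofReal (2 ^ r) * w * (if (2 : ℝ) ^ j < 4 * v then
        ENNReal.ofReal (((2 : ℝ) ^ j) ^ (r - 1)) else 0) := by
    intro j
    have h2 : ENNReal.ofReal ((2 : ℝ) ^ j) < 4 * w ↔ (2 : ℝ) ^ j < 4 * v := by
      have h3 : 4 * w = ENNReal.ofReal (4 * v) := by
        rw [ENNReal.ofReal_mul (by norm_num), ← hw]
        simp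
      rw [h3]
      constructor
      · intro h
        by_contra hcon
        exact absurd (ENNReal.ofReal_le_ofReal (not_lt.1 hcon)) (not_le.2 h)
      · intro h
        exact (ENNReal.ofReal_lt_ofReal_iff (lt_of_le_of_lt (by positivity) h)).2 h
    simp only [h2]
    split_ifs
    · have h4 : ((2 : ℝ) ^ (j + 1)) ^ r * ((2 : ℝ) ^ j)⁻¹ = 2 ^ r * ((2 : ℝ) ^ j) ^ (r - 1) := by
        rw [zpow_add₀ (by norm_num), zpow_one, Real.mul_rpow (by positivity) (by norm_num),
          Real.rpow_sub_one (by positivity)]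
        ring
      rw [h4, ENNReal.ofReal_mul (by positivity)]
      ring
    · simp
  simp only [h1]
  rw [ENNReal.tsum_mul_left]
  have h5 := hK (4 * v) (by positivity)
  calc ENNReal.ofReal (2 ^ r) * w * ∑' j : ℤ, (if (2 : ℝ) ^ j < 4 * v then
        ENNReal.ofReal (((2 : ℝ) ^ j) ^ (r - 1)) else 0)
      ≤ ENNReal.ofReal (2 ^ r) * w * (K0 * ENNReal.ofReal ((4 * v) ^ (r - 1))) := by gcongr
    _ = ENNReal.ofReal (2 ^ r * 4 ^ (r - 1)) * K0 * w ^ r := by
        have h6 : ENNReal.ofReal ((4 * v) ^ (r - 1)) = ENNReal.ofReal (4 ^ (r - 1)) *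
            ENNReal.ofReal (v ^ (r - 1)) := by
          rw [Real.mul_rpow (by norm_num) hv0, ENNReal.ofReal_mul (by positivity)]
        have h7 : w * ENNReal.ofReal (v ^ (r - 1)) = w ^ r := by
          rw [hw, ENNReal.ofReal_rpow_of_nonneg hv0 hr0, ← ENNReal.ofReal_mul hv0]
          congr 1
          rcases hv0.eq_or_lt with h | h
          · have hrne : r ≠ 0 := by
              intro h
              linarith
            rw [← h, Real.zero_rpow hrne, zero_mul]
          · rw [Real.rpow_sub_one h.ne']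
            field_simp
        rw [h6, ENNReal.ofReal_mul (by positivity), ← h7]
        ring
    _ ≤ _ := by
        gcongr
        exact le_self_add

theorem meas_int {c L : ℝ} {g : ℝ → ℝ≥0∞} (hg : Measurable g) (l : ℤ) :
    Measurable (fun x => ∫⁻ y in Jt c L l x, g y) := by
  have h1 : ∀ x, ∫⁻ y in Jt c L l x, g y =
      ∫⁻ y, ({p : ℝ × ℝ | p.2 ∈ Jt c L l p.1}.indicator (fun p => g p.2)) (x, y) := by
    intro x
    have hm : MeasurableSet (Jt c L l x) := measurableSet_Icc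
    rw [← lintegral_indicator hm]
    rfl
  simp only [h1]
  apply Measurable.lintegral_prod_right'
  refine Measurable.indicator (hg.comp measurable_snd) ?_
  have e1 : {p : ℝ × ℝ | p.2 ∈ Jt c L l p.1} =
      {p : ℝ × ℝ | p.1 - (2 : ℝ) ^ l * (c + L) ≤ p.2} ∩
        {p : ℝ × ℝ | p.2 ≤ p.1 - (2 : ℝ) ^ l * (c - L)} := by
    ext p
    simp [Jt, mem_Icc]
  rw [e1]
  exact (measurableSet_le (measurable_fst.sub_const _) measurable_snd).inter
    (measurableSet_le measurable_snd (measurable_fst.sub_const _))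

theorem sup_level (hWK : S_WK) {B c L : ℝ} {H : ℕ} (hc : |c| ≤ B) (hL : 0 < L) (hLB : L ≤ B)
    (hH : 1 ≤ H) (hBH : 2 * B ≤ 2 ^ H * L) {g : ℝ → ℝ≥0∞} (hg : Measurable g) (lam : ℝ)
    (hlam : 0 < lam) :
    volume {x | ENNReal.ofReal lam < ⨆ l : ℤ, (∫⁻ y in Jt c L l x, g y) /
      ENNReal.ofReal ((2 : ℝ) ^ l * L)} * ENNReal.ofReal lam ≤
      16 * H * ∫⁻ y, (if ENNReal.ofReal lam < 4 * g y then g y else 0) := by
  set G : ℝ → ℝ≥0∞ := fun y => if ENNReal.ofReal lam < 4 * g y then g y else 0 with hG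
  have hGm : Measurable G :=
    Measurable.ite (measurableSet_lt measurable_const (hg.const_mul 4)) hg measurable_const
  have hsub : {x | ENNReal.ofReal lam < ⨆ l : ℤ, (∫⁻ y in Jt c L l x, g y) /
      ENNReal.ofReal ((2 : ℝ) ^ l * L)} ⊆ ⋃ k ∈ Finset.range H,
        {x : ℝ | ∃ j : ℤ, ENNReal.ofReal (lam / 2) *
          ENNReal.ofReal ((2 : ℝ) ^ ((k : ℤ) + j * H) * L) <
          ∫⁻ y in Jt c L ((k : ℤ) + j * H) x, G y} := by
    intro x hx
    obtain ⟨l, hl⟩ := lt_iSup_iff.1 (show ENNReal.ofReal lam < ⨆ l : ℤ,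
      (∫⁻ y in Jt c L l x, g y) / ENNReal.ofReal ((2 : ℝ) ^ l * L) from hx)
    have hb : 0 < (2 : ℝ) ^ l * L := by positivity
    have hb0 : ENNReal.ofReal ((2 : ℝ) ^ l * L) ≠ 0 := by
      rw [Ne, ENNReal.ofReal_eq_zero, not_le]
      exact hb
    have hbt : ENNReal.ofReal ((2 : ℝ) ^ l * L) ≠ ⊤ := ENNReal.ofReal_ne_top
    have h1 : ENNReal.ofReal lam * ENNReal.ofReal ((2 : ℝ) ^ l * L) <
        ∫⁻ y in Jt c L l x, g y :=
      (ENNReal.lt_div_iff_mul_lt (Or.inl hb0) (Or.inl hbt)).1 hl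
    have h2 : ∀ y, g y ≤ G y + ENNReal.ofReal (lam / 4) := by
      intro y
      simp only [hG]
      split_ifs with h
      · exact le_self_add
      · rw [zero_add]
        have h3 := not_lt.1 h
        have h4 : ENNReal.ofReal (lam / 4) = ENNReal.ofReal lam / 4 := by
          rw [ENNReal.ofReal_div_of_pos (by norm_num)]
          simp
        rw [h4, ENNReal.le_div_iff_mul_le (Or.inl (by norm_num)) (Or.inl (by norm_num)), mul_comm]
        exact h3
    have h3 : ∫⁻ y in Jt c L l x, g y ≤ (∫⁻ y in Jt c L l x, G y) +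
        ENNReal.ofReal (lam / 2) * ENNReal.ofReal ((2 : ℝ) ^ l * L) := by
      calc ∫⁻ y in Jt c L l x, g y ≤ ∫⁻ y in Jt c L l x, (G y + ENNReal.ofReal (lam / 4)) :=
            lintegral_mono h2
        _ = (∫⁻ y in Jt c L l x, G y) + ENNReal.ofReal (lam / 4) * volume (Jt c L l x) := by
            rw [lintegral_add_left hGm, setLIntegral_const]
        _ = _ := by
            congr 1
            unfold Jt
            rw [Real.volume_Icc, ← ENNReal.ofReal_mul (by positivity),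
              ← ENNReal.ofReal_mul (by positivity)]
            congr 1
            ring
    have h4 : ENNReal.ofReal lam * ENNReal.ofReal ((2 : ℝ) ^ l * L) =
        ENNReal.ofReal (lam / 2) * ENNReal.ofReal ((2 : ℝ) ^ l * L) +
        ENNReal.ofReal (lam / 2) * ENNReal.ofReal ((2 : ℝ) ^ l * L) := by
      rw [← add_mul, ← ENNReal.ofReal_add (by positivity) (by positivity)]
      congr 2
      ring
    have h5 : ENNReal.ofReal (lam / 2) * ENNReal.ofReal ((2 : ℝ) ^ l * L) <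
        ∫⁻ y in Jt c L l x, G y := by
      have h6 := lt_of_lt_of_le h1 h3
      rw [h4] at h6
      exact (ENNReal.add_lt_add_iff_right (ENNReal.mul_ne_top ENNReal.ofReal_ne_top hbt)).1 h6
    have hH0 : (0 : ℤ) < H := by exact_mod_cast hH
    have h7 : 0 ≤ l % (H : ℤ) := Int.emod_nonneg _ hH0.ne'
    have h8 : l % (H : ℤ) < H := Int.emod_lt_of_pos _ hH0
    have h9 : (((l % (H : ℤ)).toNat : ℕ) : ℤ) = l % (H : ℤ) := Int.toNat_of_nonneg h7
    rw [mem_iUnion₂]
    refine ⟨(l % (H : ℤ)).toNat, ?_, l / (H : ℤ), ?_⟩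
    · rw [Finset.mem_range]
      omega
    · have h10 : (((l % (H : ℤ)).toNat : ℕ) : ℤ) + l / (H : ℤ) * H = l := by
        rw [h9]
        have := Int.emod_add_mul_ediv l (H : ℤ)
        linarith [mul_comm (l / (H : ℤ)) (H : ℤ)]
      rw [h10]
      exact h5
  have hk : ∀ k ∈ Finset.range H, volume {x : ℝ | ∃ j : ℤ, ENNReal.ofReal (lam / 2) *
      ENNReal.ofReal ((2 : ℝ) ^ ((k : ℤ) + j * H) * L) <
      ∫⁻ y in Jt c L ((k : ℤ) + j * H) x, G y} * ENNReal.ofReal lam ≤ 16 * ∫⁻ y, G y := by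
    intro k _
    have h1 := hWK B c L H hc hL hLB hH hBH (k : ℤ) G hGm (ENNReal.ofReal (lam / 2))
    have h2 : ENNReal.ofReal lam = 2 * ENNReal.ofReal (lam / 2) := by
      rw [← ENNReal.ofReal_ofNat, ← ENNReal.ofReal_mul (by norm_num)]
      congr 1
      ring
    rw [h2]
    calc _ = 2 * (volume {x : ℝ | ∃ j : ℤ, ENNReal.ofReal (lam / 2) *
          ENNReal.ofReal ((2 : ℝ) ^ ((k : ℤ) + j * H) * L) <
          ∫⁻ y in Jt c L ((k : ℤ) + j * H) x, G y} * ENNReal.ofReal (lam / 2)) := by ring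
      _ ≤ 2 * (8 * ∫⁻ y, G y) := by gcongr
      _ = _ := by ring
  calc volume {x | ENNReal.ofReal lam < ⨆ l : ℤ, (∫⁻ y in Jt c L l x, g y) /
      ENNReal.ofReal ((2 : ℝ) ^ l * L)} * ENNReal.ofReal lam
      ≤ (∑ k ∈ Finset.range H, volume {x : ℝ | ∃ j : ℤ, ENNReal.ofReal (lam / 2) *
          ENNReal.ofReal ((2 : ℝ) ^ ((k : ℤ) + j * H) * L) <
          ∫⁻ y in Jt c L ((k : ℤ) + j * H) x, G y}) * ENNReal.ofReal lam := by
        gcongr
        exact (measure_mono hsub).trans (measure_biUnion_finset_le _ _)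
    _ = ∑ k ∈ Finset.range H, volume {x : ℝ | ∃ j : ℤ, ENNReal.ofReal (lam / 2) *
          ENNReal.ofReal ((2 : ℝ) ^ ((k : ℤ) + j * H) * L) <
          ∫⁻ y in Jt c L ((k : ℤ) + j * H) x, G y} * ENNReal.ofReal lam := by
        rw [Finset.sum_mul]
    _ ≤ ∑ k ∈ Finset.range H, 16 * ∫⁻ y, G y := Finset.sum_le_sum hk
    _ = _ := by
        rw [Finset.sum_const, Finset.card_range, nsmul_eq_mul]
        ring

theorem exists_H {η B : ℝ} (hη : 0 < η) {L : ℝ} (hL : 0 < L) (hLB : L ≤ B) :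
    ∃ H : ℕ, 1 ≤ H ∧ 2 * B ≤ 2 ^ H * L ∧
      (H : ℝ) ≤ (1 + 1 / (η * Real.log 2)) * (2 * B) ^ η * L ^ (-η) := by
  have hB : 0 < B := hL.trans_le hLB
  set t := 2 * B / L with ht
  have ht2 : 2 ≤ t := by
    rw [ht, le_div_iff₀ hL]
    linarith
  have hlog2 : 0 < Real.log 2 := Real.log_pos (by norm_num)
  have ht0 : 0 < t := by linarith
  have hlogt : Real.log 2 ≤ Real.log t := Real.log_le_log (by norm_num) ht2
  have hq : 1 ≤ Real.log t / Real.log 2 := by
    rw [le_div_iff₀ hlog2]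
    linarith
  refine ⟨⌈Real.log t / Real.log 2⌉₊, ?_, ?_, ?_⟩
  · have h1 := Nat.le_ceil (Real.log t / Real.log 2)
    have h2 : (1 : ℝ) ≤ (⌈Real.log t / Real.log 2⌉₊ : ℝ) := hq.trans h1
    exact_mod_cast h2
  · have h1 := Nat.le_ceil (Real.log t / Real.log 2)
    rw [div_le_iff₀ hlog2] at h1
    have h2 : Real.log t ≤ Real.log ((2 : ℝ) ^ ⌈Real.log t / Real.log 2⌉₊) := by
      rw [Real.log_pow]
      exact h1
    have h3 := (Real.log_le_log_iff ht0 (by positivity)).1 h2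
    rw [ht, div_le_iff₀ hL] at h3
    exact h3
  · have h1 : (⌈Real.log t / Real.log 2⌉₊ : ℝ) < Real.log t / Real.log 2 + 1 :=
      Nat.ceil_lt_add_one (by linarith)
    have h2 : Real.log t ≤ t ^ η / η := Real.log_le_rpow_div ht0.le hη
    have h3 : 1 ≤ t ^ η := Real.one_le_rpow (by linarith) hη.le
    have h4 : t ^ η = (2 * B) ^ η * L ^ (-η) := by
      rw [ht, Real.div_rpow (by positivity) hL.le, Real.rpow_neg hL.le]
      rfl
    rw [mul_assoc, ← h4]
    calc (⌈Real.log t / Real.log 2⌉₊ : ℝ) ≤ Real.log t / Real.log 2 + 1 := h1.le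
      _ ≤ (t ^ η / η) / Real.log 2 + t ^ η := by gcongr
      _ = _ := by
        field_simp
        ring

end SH

theorem t_SH : M_SH := by
  intro hWK r η B hr hη hB
  obtain ⟨K, hK, hKu⟩ := SH.layer_upper r hr
  refine ⟨ENNReal.ofReal ((1 + 1 / (η * Real.log 2)) * (2 * B) ^ η) * (16 * K), ?_, ?_⟩
  · exact ENNReal.mul_ne_top ENNReal.ofReal_ne_top (ENNReal.mul_ne_top (by norm_num) hK)
  intro c L hc hL hLB g hg
  obtain ⟨H, hH1, hH2, hH3⟩ := SH.exists_H hη hL hLB
  have hlog2 : 0 < Real.log 2 := Real.log_pos (by norm_num)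
  set S : ℝ → ℝ≥0∞ := fun x => ⨆ l : ℤ, (∫⁻ y in Jt c L l x, g y) /
    ENNReal.ofReal ((2 : ℝ) ^ l * L) with hS
  have hSm : Measurable S := Measurable.iSup fun l => (SH.meas_int hg l).div_const _
  refine ⟨S, hSm, ?_, ?_⟩
  · intro l x
    have hb : 0 < (2 : ℝ) ^ l * L := by positivity
    have hb0 : ENNReal.ofReal ((2 : ℝ) ^ l * L) ≠ 0 := by
      rw [Ne, ENNReal.ofReal_eq_zero, not_le]
      exact hb
    have h1 : (∫⁻ y in Jt c L l x, g y) / ENNReal.ofReal ((2 : ℝ) ^ l * L) ≤ S x :=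
      le_iSup (fun l : ℤ => (∫⁻ y in Jt c L l x, g y) / ENNReal.ofReal ((2 : ℝ) ^ l * L)) l
    rw [ENNReal.div_le_iff hb0 ENNReal.ofReal_ne_top] at h1
    rw [mul_comm]
    exact h1
  · have hset : ∀ j : ℤ, MeasurableSet {x | ENNReal.ofReal ((2 : ℝ) ^ j) < S x} := fun j =>
      measurableSet_lt measurable_const hSm
    set G : ℤ → ℝ → ℝ≥0∞ := fun j y =>
      if ENNReal.ofReal ((2 : ℝ) ^ j) < 4 * g y then g y else 0 with hG
    have hGm : ∀ j, Measurable (G j) := fun j =>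
      Measurable.ite (measurableSet_lt measurable_const (hg.const_mul 4)) hg measurable_const
    calc ∫⁻ x, S x ^ r
        ≤ ∫⁻ x, ∑' j : ℤ, (if ENNReal.ofReal ((2 : ℝ) ^ j) < S x then
            ENNReal.ofReal (((2 : ℝ) ^ (j + 1)) ^ r) else 0) :=
          lintegral_mono fun x => SH.layer_lower r (by linarith) (S x)
      _ = ∑' j : ℤ, ∫⁻ x, (if ENNReal.ofReal ((2 : ℝ) ^ j) < S x then
            ENNReal.ofReal (((2 : ℝ) ^ (j + 1)) ^ r) else 0) := by
          rw [lintegral_tsum]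
          intro j
          exact (Measurable.ite (hset j) measurable_const measurable_const).aemeasurable
      _ = ∑' j : ℤ, ENNReal.ofReal (((2 : ℝ) ^ (j + 1)) ^ r) *
            volume {x | ENNReal.ofReal ((2 : ℝ) ^ j) < S x} := by
          congr 1
          ext j
          rw [← lintegral_indicator_const (hset j)]
          apply lintegral_congr
          intro x
          simp only [indicator, mem_ofPred_eq]
      _ ≤ ∑' j : ℤ, (16 * H : ℝ≥0∞) * ∫⁻ y, ENNReal.ofReal (((2 : ℝ) ^ (j + 1)) ^ r *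
            ((2 : ℝ) ^ j)⁻¹) * G j y := by
          apply ENNReal.tsum_le_tsum
          intro j
          have h2j : 0 < (2 : ℝ) ^ j := by positivity
          have h1 := SH.sup_level hWK hc hL hLB hH1 hH2 hg ((2 : ℝ) ^ j) h2j
          have h2 : volume {x | ENNReal.ofReal ((2 : ℝ) ^ j) < S x} =
              (volume {x | ENNReal.ofReal ((2 : ℝ) ^ j) < S x} * ENNReal.ofReal ((2 : ℝ) ^ j)) *
                ENNReal.ofReal (((2 : ℝ) ^ j)⁻¹) := by
            rw [mul_assoc, ← ENNReal.ofReal_mul h2j.le, mul_inv_cancel₀ h2j.ne',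
              ENNReal.ofReal_one, mul_one]
          rw [lintegral_const_mul _ (hGm j), ENNReal.ofReal_mul (by positivity), h2]
          calc _ ≤ ENNReal.ofReal (((2 : ℝ) ^ (j + 1)) ^ r) * ((16 * H * ∫⁻ y, G j y) *
                ENNReal.ofReal (((2 : ℝ) ^ j)⁻¹)) := by
                gcongr
            _ = _ := by ring
      _ = (16 * H : ℝ≥0∞) * ∫⁻ y, ∑' j : ℤ, ENNReal.ofReal (((2 : ℝ) ^ (j + 1)) ^ r *
            ((2 : ℝ) ^ j)⁻¹) * G j y := by
          rw [ENNReal.tsum_mul_left, lintegral_tsum]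
          intro j
          exact ((hGm j).const_mul _).aemeasurable
      _ ≤ (16 * H : ℝ≥0∞) * ∫⁻ y, K * g y ^ r := by
          gcongr with y
          exact hKu (g y)
      _ = (H : ℝ≥0∞) * (16 * K) * ∫⁻ y, g y ^ r := by
          rw [lintegral_const_mul _ (hg.pow_const r)]
          ring
      _ ≤ ENNReal.ofReal ((1 + 1 / (η * Real.log 2)) * (2 * B) ^ η) * (16 * K) *
            ENNReal.ofReal (L ^ (-η)) * ∫⁻ y, g y ^ r := by
          have h3 : (H : ℝ≥0∞) ≤ ENNReal.ofReal ((1 + 1 / (η * Real.log 2)) * (2 * B) ^ η) *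
              ENNReal.ofReal (L ^ (-η)) := by
            rw [← ENNReal.ofReal_mul (by positivity), ← ENNReal.ofReal_natCast]
            exact ENNReal.ofReal_le_ofReal hH3
          calc (H : ℝ≥0∞) * (16 * K) * ∫⁻ y, g y ^ r
              ≤ (ENNReal.ofReal ((1 + 1 / (η * Real.log 2)) * (2 * B) ^ η) *
                ENNReal.ofReal (L ^ (-η))) * (16 * K) * ∫⁻ y, g y ^ r := by gcongr
            _ = _ := by ring

end Pool.Agent.PF
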