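import Pool.Agent.PF.St

/-!
# PF: the module SM (sum over all pieces)
-/

set_option autoImplicit false

open MeasureTheory Set Filter Topology Metric
open scoped ENNReal RealInnerProductSpace ContDiff

namespace Pool.Agent.PF

open Pool.Agent.MC

namespace SM

/-- Hoelder's inequality for sums with weights -/
theorem hold {ι : Type} (w X : ι → ℝ≥0∞) (hw0 : ∀ i, w i ≠ 0) (hwt : ∀ i, w i ≠ ⊤) (p : ℝ)
    (hp : 1 < p) :
    (∑' i, X i) ^ p ≤ (∑' i, w i) ^ (p - 1) * ∑' i, w i ^ (1 - p) * X i ^ p := by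
  let _ : MeasurableSpace ι := ⊤
  have hp0 : 0 < p := by linarith
  have hp1 : 0 < p - 1 := by linarith
  have hpq := (Real.HolderConjugate.conjExponent hp).symm
  have h1 := ENNReal.lintegral_mul_le_Lp_mul_Lq (Measure.count : Measure ι) hpq
    (f := fun i => w i ^ ((p - 1) / p)) (g := fun i => w i ^ (-((p - 1) / p)) * X i)
    (measurable_from_top.aemeasurable) (measurable_from_top.aemeasurable)
  simp only [lintegral_count, Pi.mul_apply] at h1
  have h2 : ∀ i, w i ^ ((p - 1) / p) * (w i ^ (-((p - 1) / p)) * X i) = X i := by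
    intro i
    rw [← mul_assoc, ← ENNReal.rpow_add _ _ (hw0 i) (hwt i), add_neg_cancel, ENNReal.rpow_zero,
      one_mul]
  have h3 : ∀ i, (w i ^ ((p - 1) / p)) ^ (p.conjExponent) = w i := by
    intro i
    rw [← ENNReal.rpow_mul, Real.conjExponent]
    have : (p - 1) / p * (p / (p - 1)) = 1 := by field_simp
    rw [this, ENNReal.rpow_one]
  have h4 : ∀ i, (w i ^ (-((p - 1) / p)) * X i) ^ p = w i ^ (1 - p) * X i ^ p := by
    intro i
    rw [ENNReal.mul_rpow_of_nonneg _ _ hp0.le, ← ENNReal.rpow_mul]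
    congr 2
    field_simp
    ring
  simp only [h2, h3, h4] at h1
  have h5 := ENNReal.rpow_le_rpow h1 hp0.le
  refine h5.trans (le_of_eq ?_)
  rw [ENNReal.mul_rpow_of_nonneg _ _ hp0.le, ← ENNReal.rpow_mul, ← ENNReal.rpow_mul]
  have e1 : 1 / p.conjExponent * p = p - 1 := by
    rw [Real.conjExponent]; field_simp
  have e2 : 1 / p * p = 1 := by field_simp
  rw [e1, e2, ENNReal.rpow_one]

theorem tsum_pi (r : ℝ≥0∞) (n : ℕ) :
    ∑' J : Fin n → ℕ, ∏ i, r ^ J i = (∑' j : ℕ, r ^ j) ^ n := by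
  induction n with
  | zero =>
    rw [pow_zero, tsum_fintype]
    simp
  | succ n ih =>
    rw [← (Fin.consEquiv (fun _ : Fin (n + 1) => ℕ)).tsum_eq, ENNReal.tsum_prod']
    have h1 : ∀ (j : ℕ) (J : Fin n → ℕ),
        ∏ i, r ^ (Fin.consEquiv (fun _ : Fin (n + 1) => ℕ)) (j, J) i = r ^ j * ∏ i, r ^ J i := by
      intro j J
      rw [Fin.prod_univ_succ]
      simp [Fin.consEquiv]
    simp only [h1, ENNReal.tsum_mul_left, ih, ENNReal.tsum_mul_right]
    rw [pow_succ, mul_comm]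

theorem tsum_fin (n N : ℕ) (ρ : ℝ) (hρ : 0 < ρ) :
    ∑' α : (Fin n → Fin N) × (Fin n → ℕ),
      ENNReal.ofReal ((2 : ℝ) ^ (-(ρ * ((∑ i, α.2 i : ℕ) : ℝ)))) ≠ ⊤ := by
  set r : ℝ≥0∞ := ENNReal.ofReal ((2 : ℝ) ^ (-ρ)) with hr
  have hr1 : r < 1 := by
    rw [hr, ENNReal.ofReal_lt_one]
    exact Real.rpow_lt_one_of_one_lt_of_neg (by norm_num) (by linarith)
  have h1 : ∀ J : Fin n → ℕ, ENNReal.ofReal ((2 : ℝ) ^ (-(ρ * ((∑ i, J i : ℕ) : ℝ)))) =
      ∏ i, r ^ J i := by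
    intro J
    rw [Finset.prod_pow_eq_pow_sum, hr, ← ENNReal.ofReal_pow (by positivity)]
    congr 1
    rw [← Real.rpow_natCast, ← Real.rpow_mul (by norm_num)]
    congr 1
    ring
  rw [ENNReal.tsum_prod']
  simp only [h1, tsum_pi]
  rw [tsum_fintype, Finset.sum_const, nsmul_eq_mul]
  refine ENNReal.mul_ne_top (ENNReal.natCast_ne_top _) (ENNReal.pow_ne_top ?_)
  rw [ENNReal.tsum_geometric]
  exact ENNReal.inv_ne_top.mpr (tsub_pos_of_lt hr1).ne'

/-- the numbers -/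
theorem num (n : ℕ) (hn : 2 ≤ n) (p η σ C₁ c M lam : ℝ) (A S : ℕ) (hC₁ : 0 < C₁) (hc : 0 < c)
    (hM : 0 < M) (_hη : 0 < η) (hp : 0 < p - 1 - η)
    (hσ : σ = (p - (n : ℝ) * (1 + η)) / ((n : ℝ) - 1)) (hσ0 : 0 < σ) (hl : 0 ≤ lam)
    (hlam : lam ^ (n - 1) ≤ C₁ * (M / 2 ^ A)) (hS : S ≤ n * A) :
    lam ^ (p - 1 - η) * (c / 2 ^ A) ^ (-(1 + η)) ≤
      ((C₁ * M) ^ ((p - 1 - η) / ((n : ℝ) - 1)) * c ^ (-(1 + η))) *
        (2 : ℝ) ^ (-(2 * (σ / (2 * n)) * (S : ℝ))) := by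
  have hn2 : (2 : ℝ) ≤ n := by exact_mod_cast hn
  have hn1 : (0 : ℝ) < (n : ℝ) - 1 := by linarith
  have hcast : (((n - 1 : ℕ)) : ℝ) = (n : ℝ) - 1 := by
    rw [Nat.cast_sub (by omega)]; norm_num
  set ρ := (p - 1 - η) / ((n : ℝ) - 1) with hρ
  have hρ0 : 0 < ρ := div_pos hp hn1
  have h1 : lam ^ (p - 1 - η) = (lam ^ (n - 1)) ^ ρ := by
    rw [← Real.rpow_natCast lam (n - 1), ← Real.rpow_mul hl, hcast, hρ]
    congr 1
    field_simp
  have h2 : (lam ^ (n - 1)) ^ ρ ≤ (C₁ * (M / 2 ^ A)) ^ ρ :=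
    Real.rpow_le_rpow (pow_nonneg hl _) hlam hρ0.le
  have h3 : (C₁ * (M / 2 ^ A)) ^ ρ = (C₁ * M) ^ ρ * (2 : ℝ) ^ (-((A : ℝ) * ρ)) := by
    have : C₁ * (M / 2 ^ A) = (C₁ * M) * (2 : ℝ) ^ (-(A : ℝ)) := by
      rw [Real.rpow_neg (by norm_num), Real.rpow_natCast]
      field_simp
    rw [this, Real.mul_rpow (by positivity) (by positivity), ← Real.rpow_mul (by norm_num)]
    congr 2
    ring
  have h4 : (c / 2 ^ A) ^ (-(1 + η)) = c ^ (-(1 + η)) * (2 : ℝ) ^ ((A : ℝ) * (1 + η)) := by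
    have : c / 2 ^ A = c * (2 : ℝ) ^ (-(A : ℝ)) := by
      rw [Real.rpow_neg (by norm_num), Real.rpow_natCast]
      rfl
    rw [this, Real.mul_rpow hc.le (by positivity), ← Real.rpow_mul (by norm_num)]
    congr 2
    ring
  have h5 : (2 : ℝ) ^ (-((A : ℝ) * ρ)) * (2 : ℝ) ^ ((A : ℝ) * (1 + η)) ≤
      (2 : ℝ) ^ (-(2 * (σ / (2 * n)) * (S : ℝ))) := by
    rw [← Real.rpow_add (by norm_num)]
    refine Real.rpow_le_rpow_of_exponent_le (by norm_num) ?_
    have e1 : ρ - (1 + η) = σ := by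
      rw [hρ, hσ]
      field_simp
      ring
    have e2 : (S : ℝ) ≤ n * A := by exact_mod_cast hS
    have e3 : 2 * (σ / (2 * n)) * (S : ℝ) ≤ 2 * (σ / (2 * n)) * (n * A) := by
      refine mul_le_mul_of_nonneg_left e2 ?_
      positivity
    have e4 : 2 * (σ / (2 * n)) * ((n : ℝ) * A) = σ * A := by
      field_simp
    have e5 : -((A : ℝ) * ρ) + (A : ℝ) * (1 + η) = -(σ * A) := by
      rw [← e1]; ring
    rw [e5]
    linarith
  rw [h1, h4]
  calc (lam ^ (n - 1)) ^ ρ * (c ^ (-(1 + η)) * (2 : ℝ) ^ ((A : ℝ) * (1 + η)))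
      ≤ ((C₁ * M) ^ ρ * (2 : ℝ) ^ (-((A : ℝ) * ρ))) *
        (c ^ (-(1 + η)) * (2 : ℝ) ^ ((A : ℝ) * (1 + η))) := by
        refine mul_le_mul_of_nonneg_right (h2.trans (le_of_eq h3)) (by positivity)
    _ = ((C₁ * M) ^ ρ * c ^ (-(1 + η))) *
        ((2 : ℝ) ^ (-((A : ℝ) * ρ)) * (2 : ℝ) ^ ((A : ℝ) * (1 + η))) := by ring
    _ ≤ _ := mul_le_mul_of_nonneg_left h5 (by positivity)

end SM

theorem t_SM : M_SM := by
  intro hLN hLV hPC n hn γ a b hγ p hp
  obtain ⟨C₁, hC₁, h1⟩ := hLN n hn γ a b hγ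
  obtain ⟨N, c, M, hc, hcM, h2⟩ := hLV n hn γ a b hγ
  have hab : a < b := hγ.1
  have hsm : ContDiff ℝ ∞ γ := hγ.2.1
  obtain ⟨Γ, hΓ⟩ : ∃ Γ, ∀ s ∈ Icc a b, ‖γ s‖ ≤ Γ :=
    isCompact_Icc.exists_bound_of_continuousOn hsm.continuous.continuousOn
  have hn2 : (2 : ℝ) ≤ n := by exact_mod_cast hn
  have hn0 : (0 : ℝ) < n := by linarith
  have hn1 : (0 : ℝ) < (n : ℝ) - 1 := by linarith
  have hM0 : 0 < M := hc.trans_le hcM
  have hp1 : 1 < p := by linarith
  set η : ℝ := min 1 ((p - n) / (2 * n)) with hη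
  have hη0 : 0 < η := lt_min one_pos (div_pos (by linarith) (by positivity))
  have hη1 : η ≤ 1 := min_le_left _ _
  have hη2 : (n : ℝ) * (1 + η) < p := by
    have h3 : η ≤ (p - n) / (2 * n) := min_le_right _ _
    have h4 : (n : ℝ) * η ≤ n * ((p - n) / (2 * n)) := mul_le_mul_of_nonneg_left h3 hn0.le
    have h5 : (n : ℝ) * ((p - n) / (2 * n)) = (p - n) / 2 := by field_simp
    rw [h5] at h4
    linarith
  have hpη : 0 < p - 1 - η := by linarith
  set σ : ℝ := (p - (n : ℝ) * (1 + η)) / ((n : ℝ) - 1) with hσ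
  have hσ0 : 0 < σ := div_pos (by linarith) hn1
  set τ : ℝ := σ / (2 * n) with hτ
  have hτ0 : 0 < τ := by positivity
  set θ : ℝ := τ / (p - 1) with hθ
  have hθ0 : 0 < θ := div_pos hτ0 (by linarith)
  set B : ℝ := (b - a) + c + |Γ| with hB
  have hB0 : 0 < B := by
    have := abs_nonneg Γ
    rw [hB]; linarith
  have hK : 1 ≤ M / c := by rw [le_div_iff₀ hc]; linarith
  obtain ⟨C₂, hC₂, h3⟩ := hPC n (by omega) p η B (M / c) hp hη0 hB0 hK
  set C₃ : ℝ := (C₁ * M) ^ ((p - 1 - η) / ((n : ℝ) - 1)) * c ^ (-(1 + η)) with hC₃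
  have hC₃0 : 0 ≤ C₃ := by positivity
  set w : (Fin n → Fin N) × (Fin n → ℕ) → ℝ≥0∞ := fun α =>
    ENNReal.ofReal ((2 : ℝ) ^ (-(θ * ((∑ i, α.2 i : ℕ) : ℝ)))) with hw
  set v : (Fin n → Fin N) × (Fin n → ℕ) → ℝ≥0∞ := fun α =>
    ENNReal.ofReal ((2 : ℝ) ^ (-(τ * ((∑ i, α.2 i : ℕ) : ℝ)))) with hv
  have hwt : ∑' α, w α ≠ ⊤ := SM.tsum_fin n N θ hθ0
  have hvt : ∑' α, v α ≠ ⊤ := SM.tsum_fin n N τ hτ0
  have hw0 : ∀ α, w α ≠ 0 := by
    intro α
    rw [hw]
    exact (ENNReal.ofReal_pos.mpr (by positivity)).ne'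
  have hw1 : ∀ α, w α ≠ ⊤ := fun α => ENNReal.ofReal_ne_top
  have hwp : ∀ α, w α ^ (1 - p) = ENNReal.ofReal ((2 : ℝ) ^ (τ * ((∑ i, α.2 i : ℕ) : ℝ))) := by
    intro α
    rw [hw]
    simp only []
    rw [ENNReal.ofReal_rpow_of_pos (by positivity), ← Real.rpow_mul (by norm_num)]
    congr 2
    rw [hθ]
    have : p - 1 ≠ 0 := by linarith
    field_simp
    ring
  refine ⟨(∑' α, w α) ^ (p - 1) * (C₂ * ENNReal.ofReal C₃ * ∑' α, v α), ?_, ?_⟩
  · refine ENNReal.mul_ne_top (ENNReal.rpow_ne_top_of_nonneg (by linarith) hwt) ?_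
    exact ENNReal.mul_ne_top (ENNReal.mul_ne_top hC₂ ENNReal.ofReal_ne_top) hvt
  intro e he g hg
  have hQ := fun i => h2 (e i) (he i)
  choose Q hQ1 hQ2 using hQ
  set h : Fin n → ℝ → ℝ := fun i s => ⟪e i, γ s⟫ with hh
  have hder : ∀ i s, deriv (h i) s = ⟪e i, deriv γ s⟫ := by
    intro i s
    have hd : HasDerivAt γ (deriv γ s) s :=
      (hsm.differentiable (by simp)).differentiableAt.hasDerivAt
    exact ((innerSL ℝ (e i)).hasFDerivAt.comp_hasDerivAt s hd).deriv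
  have hhs : ∀ i, ContDiff ℝ ∞ (h i) := fun i => contDiff_const.inner ℝ hsm
  set P : (Fin n → Fin N) × (Fin n → ℕ) → Set ℝ := fun α => ⋂ i, Q i (α.1 i) (α.2 i) with hP
  have hi0 : 0 < n := by omega
  have hPsub : ∀ α, P α ⊆ Icc a b := by
    intro α s hs
    rw [hP] at hs
    exact (hQ1 ⟨0, hi0⟩ _ _).2.1 (mem_iInter.mp hs ⟨0, hi0⟩)
  have hsup : ∀ (J : Fin n → ℕ) (i : Fin n), J i ≤ Finset.univ.sup J := fun J i =>
    Finset.le_sup (f := J) (Finset.mem_univ i)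
  have key : ∀ α : (Fin n → Fin N) × (Fin n → ℕ), ∃ G : (Fin n → ℝ) → ℝ≥0∞, Measurable G ∧
      (∀ (y : Fin n → ℝ) (t : ℝ), 0 < t →
        (∫⁻ s in P α, ∏ i, g i (y i - t * h i s)) ^ p ≤ G y) ∧
      ∫⁻ y, G y ≤ C₂ * ENNReal.ofReal (volume.real (P α) ^ (p - 1 - η) *
        (c / 2 ^ (Finset.univ.sup α.2)) ^ (-(1 + η))) * ∏ i, ∫⁻ u, g i u ^ p := by
    intro α
    refine h3 h (P α) (fun i => c / 2 ^ (α.2 i)) (c / 2 ^ (Finset.univ.sup α.2)) hhs ?_ ?_ ?_ ?_ ?_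
      g hg
    · exact Set.ordConnected_iInter fun i => (hQ1 i _ _).1
    · refine (measure_mono (hPsub α)).trans ?_
      rw [Real.volume_Icc]
      refine ENNReal.ofReal_le_ofReal ?_
      have := abs_nonneg Γ
      rw [hB]; linarith
    · positivity
    · intro i
      constructor
      · refine div_le_div_of_nonneg_left hc.le (by positivity) ?_
        exact pow_le_pow_right₀ (by norm_num) (hsup α.2 i)
      · have h4 : c / 2 ^ (α.2 i) ≤ c := div_le_self hc.le (one_le_pow₀ (by norm_num))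
        have := abs_nonneg Γ
        rw [hB]; linarith
    · intro i s hs
      have hs' := mem_iInter.mp hs i
      have h4 := (hQ1 i _ _).2.2 s hs'
      rw [hder]
      refine ⟨?_, h4.1, ?_⟩
      · have h5 : |h i s| ≤ ‖e i‖ * ‖γ s‖ := abs_real_inner_le_norm _ _
        rw [he i, one_mul] at h5
        have h6 := hΓ s (hPsub α hs)
        have h7 := le_abs_self Γ
        rw [hB]; linarith
      · refine h4.2.trans (le_of_eq ?_)
        field_simp
  choose G hG1 hG2 hG3 using key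
  refine ⟨fun y => (∑' α, w α) ^ (p - 1) * ∑' α, w α ^ (1 - p) * G α y, ?_, ?_, ?_⟩
  · refine Measurable.const_mul ?_ _
    exact Measurable.tsum fun α => (hG1 α).const_mul _
  · intro y t ht
    have hnull : volume (Icc a b \ ⋃ α, P α) = 0 := by
      refine measure_mono_null (t := ⋃ i, (Icc a b \ ⋃ κ, ⋃ j, Q i κ j)) ?_ ?_
      · intro s hs
        by_contra hcon
        apply hs.2
        have h4 : ∀ i, ∃ κ, ∃ j, s ∈ Q i κ j := by
          intro i
          by_contra h5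
          apply hcon
          rw [mem_iUnion]
          refine ⟨i, hs.1, fun h6 => h5 ?_⟩
          simpa only [mem_iUnion] using h6
        choose κ J hκ using h4
        rw [mem_iUnion]
        exact ⟨(κ, J), mem_iInter.mpr hκ⟩
      · exact measure_iUnion_null fun i => hQ2 i
    have h4 : ∫⁻ s in Icc a b, ∏ i, g i (y i - t * ⟪e i, γ s⟫) ≤
        ∑' α, ∫⁻ s in P α, ∏ i, g i (y i - t * h i s) := by
      refine (lintegral_mono_set' (ae_le_set.mpr hnull)).trans ?_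
      exact lintegral_iUnion_le _ _
    refine (ENNReal.rpow_le_rpow h4 (by linarith)).trans ?_
    refine (SM.hold w _ hw0 hw1 p hp1).trans ?_
    refine mul_le_mul_right ?_ _
    exact ENNReal.tsum_le_tsum fun α => mul_le_mul_right (hG2 α y t ht) _
  · rw [lintegral_const_mul _ (Measurable.tsum fun α => (hG1 α).const_mul _),
      lintegral_tsum fun α => ((hG1 α).const_mul _).aemeasurable, mul_assoc]
    refine mul_le_mul_right ?_ _
    have hcm : ∀ α, ∫⁻ y, w α ^ (1 - p) * G α y = w α ^ (1 - p) * ∫⁻ y, G α y := fun α =>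
      lintegral_const_mul _ (hG1 α)
    simp only [hcm]
    have h5 : ∀ α, w α ^ (1 - p) * ∫⁻ y, G α y ≤
        (C₂ * ENNReal.ofReal C₃ * ∏ i, ∫⁻ u, g i u ^ p) * v α := by
      intro α
      have hA : ∃ i₀, Finset.univ.sup α.2 = α.2 i₀ := by
        obtain ⟨i₀, -, hi⟩ := Finset.exists_mem_eq_sup Finset.univ
          ⟨⟨0, hi0⟩, Finset.mem_univ _⟩ α.2
        exact ⟨i₀, hi⟩
      obtain ⟨i₀, hi₀⟩ := hA
      have hlam : volume.real (P α) ^ (n - 1) ≤ C₁ * (M / 2 ^ (Finset.univ.sup α.2)) := by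
        have h6 := h1 (e i₀) (he i₀) (M / 2 ^ (Finset.univ.sup α.2)) (by positivity)
        refine le_trans (pow_le_pow_left₀ measureReal_nonneg ?_ _) h6
        refine measureReal_mono ?_ ?_
        · intro s hs
          refine ⟨hPsub α hs, ?_⟩
          rw [hi₀]
          exact ((hQ1 i₀ _ _).2.2 s (mem_iInter.mp hs i₀)).2
        · refine ((measure_mono (fun s hs => hs.1)).trans_lt
            (measure_Icc_lt_top (a := a) (b := b))).ne
      have hS : ∑ i, α.2 i ≤ n * Finset.univ.sup α.2 := by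
        refine (Finset.sum_le_card_nsmul _ _ _ fun i _ => hsup α.2 i).trans (le_of_eq ?_)
        rw [Finset.card_univ, Fintype.card_fin, smul_eq_mul]
      have h7 := SM.num n hn p η σ C₁ c M (volume.real (P α)) (Finset.univ.sup α.2)
        (∑ i, α.2 i) hC₁ hc hM0 hη0 hpη hσ hσ0 measureReal_nonneg hlam hS
      have h8 : w α ^ (1 - p) * ENNReal.ofReal (volume.real (P α) ^ (p - 1 - η) *
          (c / 2 ^ (Finset.univ.sup α.2)) ^ (-(1 + η))) ≤ ENNReal.ofReal C₃ * v α := by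
        rw [hwp, hv]
        simp only []
        rw [← ENNReal.ofReal_mul (by positivity), ← ENNReal.ofReal_mul hC₃0]
        refine ENNReal.ofReal_le_ofReal ?_
        refine (mul_le_mul_of_nonneg_left h7 (by positivity)).trans (le_of_eq ?_)
        rw [← hC₃]
        have h9 : (2 : ℝ) ^ (τ * ((∑ i, α.2 i : ℕ) : ℝ)) *
            (2 : ℝ) ^ (-(2 * (σ / (2 * n)) * ((∑ i, α.2 i : ℕ) : ℝ))) =
            (2 : ℝ) ^ (-(τ * ((∑ i, α.2 i : ℕ) : ℝ))) := by
          rw [← Real.rpow_add (by norm_num)]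
          congr 1
          rw [hτ]
          ring
        rw [← h9]
        ring
      calc w α ^ (1 - p) * ∫⁻ y, G α y
          ≤ w α ^ (1 - p) * (C₂ * ENNReal.ofReal (volume.real (P α) ^ (p - 1 - η) *
            (c / 2 ^ (Finset.univ.sup α.2)) ^ (-(1 + η))) * ∏ i, ∫⁻ u, g i u ^ p) :=
            mul_le_mul_right (hG3 α) _
        _ = (w α ^ (1 - p) * ENNReal.ofReal (volume.real (P α) ^ (p - 1 - η) *
            (c / 2 ^ (Finset.univ.sup α.2)) ^ (-(1 + η)))) * (C₂ * ∏ i, ∫⁻ u, g i u ^ p) := by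
            ring
        _ ≤ (ENNReal.ofReal C₃ * v α) * (C₂ * ∏ i, ∫⁻ u, g i u ^ p) := mul_le_mul_left h8 _
        _ = _ := by ring
    refine (ENNReal.tsum_le_tsum h5).trans (le_of_eq ?_)
    rw [ENNReal.tsum_mul_left]
    ring

end Pool.Agent.PF
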