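import Mathlib
import Pool.Agent.PF.St

/-!
# `PF_WK`: weak type (1,1) of the shifted lacunary maximal function
-/

set_option autoImplicit false

open MeasureTheory Set Filter Topology Metric
open scoped ENNReal RealInnerProductSpace ContDiff

namespace Pool.Agent.PF

open Pool.Agent.MC

namespace WK

/-- the geometric part: the point `x` is close to `b` or to the centre of the interval of `b` -/
theorem near {B c L : ℝ} {H : ℕ} (hc : |c| ≤ B) (hL : 0 < L) (hLB : L ≤ B)
    (hB : 2 * B ≤ 2 ^ H * L) {k i j : ℤ} {x b : ℝ}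
    (hne : (Jt c L (k + i * H) x ∩ Jt c L (k + j * H) b).Nonempty)
    (hle : (2 : ℝ) ^ (k + i * H) ≤ 3 / 2 * (2 : ℝ) ^ (k + j * H)) :
    x ∈ closedBall b (2 * ((2 : ℝ) ^ (k + j * H) * L)) ∪
      closedBall (b - (2 : ℝ) ^ (k + j * H) * c) (2 * ((2 : ℝ) ^ (k + j * H) * L)) := by
  obtain ⟨y, hy1, hy2⟩ := hne
  simp only [Jt, mem_Icc] at hy1 hy2
  have hpj : (0 : ℝ) < (2 : ℝ) ^ (k + j * H) := by positivity
  have hpi : (0 : ℝ) < (2 : ℝ) ^ (k + i * H) := by positivity
  have hij : k + i * H ≤ k + j * H := by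
    by_contra hcon
    push Not at hcon
    have h1 : (2 : ℝ) ^ (k + j * H + 1) ≤ (2 : ℝ) ^ (k + i * H) :=
      zpow_le_zpow_right₀ (by norm_num) (by omega)
    rw [zpow_add_one₀ (by norm_num)] at h1
    linarith
  rcases eq_or_lt_of_le hij with heq | hlt
  · left
    rw [heq] at hy1
    rw [mem_closedBall, Real.dist_eq, abs_le]
    constructor <;> nlinarith
  · right
    have hH : k + i * H ≤ k + j * H - H := by
      have h1 : i * (H : ℤ) < j * H := by omega
      have h2 : i < j := lt_of_mul_lt_mul_right h1 (by positivity)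
      have h3 : (i + 1) * (H : ℤ) ≤ j * H := mul_le_mul_of_nonneg_right (by omega) (by positivity)
      have h4 : (i + 1) * (H : ℤ) = i * H + H := by ring
      omega
    have h1 : (2 : ℝ) ^ (k + i * H) * 2 ^ H ≤ (2 : ℝ) ^ (k + j * H) := by
      have h2 : (2 : ℝ) ^ (k + i * H) ≤ (2 : ℝ) ^ (k + j * H - H) :=
        zpow_le_zpow_right₀ (by norm_num) hH
      rw [zpow_sub₀ (by norm_num), zpow_natCast, le_div_iff₀ (by positivity)] at h2
      exact h2
    have h3 : (2 : ℝ) ^ (k + i * H) * (2 * B) ≤ (2 : ℝ) ^ (k + j * H) * L := by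
      calc (2 : ℝ) ^ (k + i * H) * (2 * B) ≤ (2 : ℝ) ^ (k + i * H) * (2 ^ H * L) := by gcongr
        _ = ((2 : ℝ) ^ (k + i * H) * 2 ^ H) * L := by ring
        _ ≤ (2 : ℝ) ^ (k + j * H) * L := by gcongr
    have hc' := abs_le.1 hc
    rw [mem_closedBall, Real.dist_eq, abs_le]
    constructor <;> nlinarith

end WK

theorem t_WK : S_WK := by
  intro B c L H hc hL hLB hH hB k g hg lam
  classical
  set E : Set ℝ := {x : ℝ | ∃ j : ℤ, lam * ENNReal.ofReal ((2 : ℝ) ^ (k + j * H) * L) <
        ∫⁻ y in Jt c L (k + j * H) x, g y} with hE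
  rcases eq_or_ne (∫⁻ y, g y) ⊤ with hA | hA
  · rw [hA, ENNReal.mul_top (by norm_num)]
    exact le_top
  rcases eq_or_ne lam 0 with hl0 | hl0
  · rw [hl0, mul_zero]
    exact zero_le
  rcases eq_or_ne lam ⊤ with hlt | hlt
  · have : E = ∅ := by
      rw [eq_empty_iff_forall_notMem]
      rintro x ⟨j, hj⟩
      rw [hlt, ENNReal.top_mul] at hj
      · exact not_top_lt hj
      · rw [Ne, ENNReal.ofReal_eq_zero, not_le]
        positivity
    rw [this, measure_empty, zero_mul]
    exact zero_le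
  have h1 : ∀ x ∈ E, ∃ j : ℤ, lam * ENNReal.ofReal ((2 : ℝ) ^ (k + j * H) * L) <
        ∫⁻ y in Jt c L (k + j * H) x, g y := fun x hx => hx
  choose! j hj using h1
  set r : ℝ → ℝ := fun x => (2 : ℝ) ^ (k + j x * H) with hr
  have hr0 : ∀ x, 0 < r x := fun x => by positivity
  have hlr : 0 < lam.toReal := ENNReal.toReal_pos hl0 hlt
  have hR : ∀ x ∈ E, r x ≤ (∫⁻ y, g y).toReal / (lam.toReal * L) := by
    intro x hx
    have h2 : lam * ENNReal.ofReal (r x * L) ≤ ∫⁻ y, g y :=
      (hj x hx).le.trans (setLIntegral_le_lintegral _ _)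
    have h3 := ENNReal.toReal_mono hA h2
    rw [ENNReal.toReal_mul, ENNReal.toReal_ofReal (by have := hr0 x; positivity)] at h3
    rw [le_div_iff₀ (by positivity)]
    nlinarith
  obtain ⟨u, hut, hud, huc⟩ := Vitali.exists_disjoint_subfamily_covering_enlargement
    (fun x => Jt c L (k + j x * H) x) E r (3 / 2) (by norm_num) (fun x _ => (hr0 x).le) _ hR
    (fun x _ => by
      refine ⟨x - r x * c, ?_⟩
      have := hr0 x
      simp only [Jt, mem_Icc, hr] at this ⊢
      constructor <;> nlinarith)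
  have hcount : u.Countable := by
    apply hud.countable_of_nonempty_interior
    intro x hx
    simp only [Jt, interior_Icc]
    rw [nonempty_Ioo]
    have := hr0 x
    simp only [hr] at this
    nlinarith
  have hsub : E ⊆ ⋃ x ∈ u, (closedBall x (2 * (r x * L)) ∪ closedBall (x - r x * c) (2 * (r x * L))) := by
    intro x hx
    obtain ⟨b, hb, hne, hle⟩ := huc x hx
    exact mem_iUnion₂.2 ⟨b, hb, WK.near hc hL hLB hB hne hle⟩
  have hterm : ∀ x ∈ u, volume (closedBall x (2 * (r x * L)) ∪ closedBall (x - r x * c) (2 * (r x * L))) *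
      lam ≤ 8 * ∫⁻ y in Jt c L (k + j x * H) x, g y := by
    intro x hx
    have hrL : 0 < r x * L := mul_pos (hr0 x) hL
    have h2 : volume (closedBall x (2 * (r x * L)) ∪ closedBall (x - r x * c) (2 * (r x * L))) ≤
        8 * ENNReal.ofReal (r x * L) := by
      refine (measure_union_le _ _).trans ?_
      rw [Real.volume_closedBall, Real.volume_closedBall, ← ENNReal.ofReal_add (by positivity)
        (by positivity), show (8 : ℝ≥0∞) = ENNReal.ofReal 8 by simp, ← ENNReal.ofReal_mul (by norm_num)]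
      apply ENNReal.ofReal_le_ofReal
      linarith
    calc _ ≤ (8 * ENNReal.ofReal (r x * L)) * lam := by gcongr
      _ = 8 * (lam * ENNReal.ofReal (r x * L)) := by ring
      _ ≤ _ := by
        gcongr
        exact (hj x (hut hx)).le
  calc volume E * lam ≤ volume (⋃ x ∈ u, (closedBall x (2 * (r x * L)) ∪
          closedBall (x - r x * c) (2 * (r x * L)))) * lam := by
        gcongr
    _ ≤ (∑' x : u, volume (closedBall (x : ℝ) (2 * (r x * L)) ∪
          closedBall ((x : ℝ) - r x * c) (2 * (r x * L)))) * lam := by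
        gcongr
        exact measure_biUnion_le _ hcount _
    _ = ∑' x : u, volume (closedBall (x : ℝ) (2 * (r x * L)) ∪
          closedBall ((x : ℝ) - r x * c) (2 * (r x * L))) * lam := ENNReal.tsum_mul_right.symm
    _ ≤ ∑' x : u, 8 * ∫⁻ y in Jt c L (k + j x * H) x, g y :=
        ENNReal.tsum_le_tsum fun x => hterm x x.2
    _ = 8 * ∑' x : u, ∫⁻ y in Jt c L (k + j x * H) x, g y := ENNReal.tsum_mul_left
    _ = 8 * ∫⁻ y in ⋃ x ∈ u, Jt c L (k + j x * H) x, g y := by
        rw [lintegral_biUnion (s := fun x => Jt c L (k + j x * H) x) hcount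
          (fun x _ => measurableSet_Icc) hud]
    _ ≤ 8 * ∫⁻ y, g y := by
        gcongr
        exact Measure.restrict_le_self

end Pool.Agent.PF
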